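import Pool.Agent.H78.RS.Mom

set_option autoImplicit false

/-!
# Almost primes `2 ^ k + m`, `k + m = n`, for most `n`
-/

namespace Pool.Agent.H78.RS

open Finset Pool.Agent.H2.WO Pool.Agent.H75.AP

/-- `n = k + m` with positive `k`, `m` and `2 ^ k + m` a product of at most `r` primes -/
def AlmostGood (r n : ℕ) : Prop :=
  ∃ k m : ℕ, 0 < k ∧ 0 < m ∧ k + m = n ∧ (2 ^ k + m).primeFactorsList.length ≤ r

theorem AlmostGood.mono {r r' n : ℕ} (h : AlmostGood r n) (hr : r ≤ r') : AlmostGood r' n := by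
  obtain ⟨k, m, h1, h2, h3, h4⟩ := h
  exact ⟨k, m, h1, h2, h3, h4.trans hr⟩

theorem b_cast {k n : ℕ} (hk : k ≤ n) : (((2 ^ k + (n - k) : ℕ)) : ℤ) = n + b k := by
  unfold b
  push_cast [Nat.cast_sub hk]
  ring

theorem ind_ne {P : Finset ℕ} {x : ℤ} {k : ℕ} (h : ind P x k ≠ 0) : ∀ p ∈ P, ¬ (p : ℤ) ∣ x + b k := by
  unfold ind at h
  split_ifs at h with h1
  · exact h1
  · exact absurd rfl h

/-- number of prime factors of a number without small prime factors -/
theorem omega_le {M y : ℕ} (hM : M ≠ 0) (h : ∀ p ∈ pm y, ¬ p ∣ M) :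
    (y + 1) ^ M.primeFactorsList.length ≤ M := by
  conv_rhs => rw [← Nat.prod_primeFactorsList hM]
  refine List.pow_card_le_prod _ _ fun p hp => ?_
  have h1 := Nat.prime_of_mem_primeFactorsList hp
  have h2 := Nat.dvd_of_mem_primeFactorsList hp
  by_contra h3
  exact h p (mem_pm.2 ⟨by omega, h1⟩) h2

theorem log_le_two_sqrt {x : ℝ} (hx : 0 < x) : Real.log x ≤ 2 * √x := by
  have h0 : 0 < √x := Real.sqrt_pos.2 hx
  have h1 := Real.log_le_sub_one_of_pos h0
  rw [Real.log_sqrt hx.le] at h1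
  linarith

theorem natlog (X : ℕ) (hX : 2 ≤ X) : (2 : ℝ) ^ (Nat.log 2 X) ≤ X ∧ Real.log X / 2 ≤ Nat.log 2 X ∧
    (Nat.log 2 X : ℝ) + 1 ≤ 4 * √(X : ℝ) ∧ 1 ≤ Nat.log 2 X := by
  set K := Nat.log 2 X with hK
  have h1 : 2 ^ K ≤ X := Nat.pow_log_le_self 2 (by omega)
  have h2 : X < 2 ^ (K + 1) := Nat.lt_pow_succ_log_self (by norm_num) X
  have hK1 : 1 ≤ K := by
    rw [hK]
    exact (Nat.le_log_iff_pow_le (by norm_num) (by omega)).2 (by simpa using hX)
  have hXr : (2 : ℝ) ≤ X := by exact_mod_cast hX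
  have hKr : (1 : ℝ) ≤ K := by exact_mod_cast hK1
  have h1r : (2 : ℝ) ^ K ≤ X := by exact_mod_cast h1
  have h2r : (X : ℝ) < 2 ^ (K + 1) := by exact_mod_cast h2
  have hl2 : 0 < Real.log 2 := Real.log_pos (by norm_num)
  have hl2' : (0.69 : ℝ) ≤ Real.log 2 := by linarith [Real.log_two_gt_d9]
  have hl2'' : Real.log 2 ≤ 1 := by linarith [Real.log_two_lt_d9]
  have e1 := Real.log_le_log (by positivity) h1r
  rw [Real.log_pow] at e1
  have e2 := Real.log_lt_log (by linarith) h2r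
  rw [Real.log_pow] at e2
  push_cast at e2
  refine ⟨h1r, ?_, ?_, hK1⟩
  · nlinarith
  · have h3 := log_le_two_sqrt (x := X) (by linarith)
    have h4 : 1 ≤ √(X : ℝ) := Real.one_le_sqrt.2 (by linarith)
    have h5 : (K : ℝ) * 0.69 ≤ 2 * √(X : ℝ) := by nlinarith
    linarith

theorem part2B : ∃ C : ℝ, 0 < C ∧ ∀ B : ℕ, 20 ≤ B → ∃ X₁ : ℕ, ∀ X : ℕ, X₁ ≤ X →
    (num (fun n => 1 < n ∧ ¬ AlmostGood (48 * B + 96) n) X : ℝ) ≤ C / B * X := by
  classical
  obtain ⟨c, hc, hV⟩ := V_low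
  refine ⟨1 / (6 * c) + 10, by positivity, fun B hB => ?_⟩
  have hBr : (20 : ℝ) ≤ B := by exact_mod_cast hB
  have hB0 : (0 : ℝ) < B := by linarith
  have hε1 : (1 : ℝ) / B ≤ 1 := by rw [div_le_one hB0]; linarith
  obtain ⟨X₀, K₀, hX₀, hmom⟩ := moments B hB (1 / B) (by positivity) hε1
  have hδ := dlt_pos B
  have hev : ∀ᶠ X : ℕ in Filter.atTop, (4 : ℝ) ≤ (X : ℝ) ^ dlt B := by
    have h2 : Filter.Tendsto (fun X : ℕ => (X : ℝ) ^ dlt B) Filter.atTop Filter.atTop :=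
      (tendsto_rpow_atTop hδ).comp tendsto_natCast_atTop_atTop
    exact h2.eventually_ge_atTop 4
  obtain ⟨X₂, hX₂⟩ := Filter.eventually_atTop.1 hev
  refine ⟨max (max X₀ X₂) (max (2 ^ K₀) (16 * B ^ 2)), fun X hX => ?_⟩
  have hXX₀ : X₀ ≤ X := (le_max_left _ _).trans ((le_max_left _ _).trans hX)
  have hXX₂ : X₂ ≤ X := (le_max_right _ _).trans ((le_max_left _ _).trans hX)
  have hXK₀ : 2 ^ K₀ ≤ X := (le_max_left _ _).trans ((le_max_right _ _).trans hX)
  have hXB : 16 * B ^ 2 ≤ X := (le_max_right _ _).trans ((le_max_right _ _).trans hX)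
  have hX2 : 2 ≤ X := by nlinarith
  have hXr : (2 : ℝ) ≤ X := by exact_mod_cast hX2
  have h4 := hX₂ X hXX₂
  set y := ⌊(X : ℝ) ^ dlt B⌋₊ with hy
  set K := Nat.log 2 X with hK
  obtain ⟨hK2, hKlog, hKs, hK1⟩ := natlog X hX2
  have hKK₀ : K₀ ≤ K := (Nat.le_log_iff_pow_le (by norm_num) (by omega)).2 hXK₀
  have hyle : (y : ℝ) ≤ (X : ℝ) ^ dlt B := Nat.floor_le (by positivity)
  have hylt : (X : ℝ) ^ dlt B < y + 1 := Nat.lt_floor_add_one _
  have hy3 : 3 ≤ y := Nat.le_floor (by push_cast; linarith)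
  have hyr : (3 : ℝ) ≤ y := by exact_mod_cast hy3
  have hlogX : 0 < Real.log X := Real.log_pos (by linarith)
  have hlogy : 0 < Real.log y := Real.log_pos (by linarith)
  have hlogy2 : Real.log y ≤ dlt B * Real.log X := by
    rw [← Real.log_rpow (by linarith)]
    exact Real.log_le_log (by linarith) hyle
  have hVy := hV y hy3
  have hVX : c / (dlt B * Real.log X) ≤ V y := (div_le_div_of_nonneg_left hc.le hlogy hlogy2).trans hVy
  have hV0 : 0 < V y := lt_of_lt_of_le (by positivity) hVX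
  have hKr : (0 : ℝ) < K := by
    have : (1 : ℝ) ≤ K := by exact_mod_cast hK1
    linarith
  have hμ : c / (2 * dlt B) ≤ K * V y := by
    calc c / (2 * dlt B) = Real.log X / 2 * (c / (dlt B * Real.log X)) := by field_simp
      _ ≤ K * V y := by gcongr
  obtain ⟨hm1, hm2⟩ := hmom X hXX₀ y hyle
  have hη1 : 2 * (1 / 2 : ℝ) ^ B ≤ 1 / B := by
    have h5 : (B : ℝ) * 2 ≤ 2 ^ B := by
      have : B * 2 ≤ 2 ^ B := by
        obtain ⟨B', rfl⟩ : ∃ B', B = B' + 1 := ⟨B - 1, by omega⟩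
        have := Nat.lt_two_pow_self (n := B')
        rw [pow_succ]
        omega
      exact_mod_cast this
    rw [one_div, inv_pow, ← one_div, mul_one_div, div_le_div_iff₀ (by positivity) hB0]
    linarith
  have hch := cheb X K (pm y) (V y) (2 * (1 / 2 : ℝ) ^ B) (1 / B) (by positivity) (by positivity)
    (hη1.trans hε1) (by positivity) hε1 hm1 (hm2 K hKK₀)
  have hsub : num (fun n => 1 < n ∧ ¬ AlmostGood (48 * B + 96) n) X ≤
      num (fun n : ℕ => ∀ k ∈ Icc 1 K, ind (pm y) n k = 0) X + (K + 1) := by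
    have h5 : {n | n < X ∧ 1 < n ∧ ¬ AlmostGood (48 * B + 96) n} ⊆
        {n : ℕ | n < X ∧ ∀ k ∈ Icc 1 K, ind (pm y) n k = 0} ∪ ↑(range (K + 1)) := by
      intro n hn
      rw [Set.mem_union, Finset.mem_coe, mem_range]
      have hnX : n < X := hn.1
      by_cases hnK : n < K + 1
      · exact Or.inr hnK
      left
      refine ⟨hn.1, fun k hk => ?_⟩
      rw [mem_Icc] at hk
      by_contra h6
      refine hn.2.2 ⟨k, n - k, hk.1, by omega, by omega, ?_⟩
      set M := 2 ^ k + (n - k) with hM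
      have hMc : (M : ℤ) = n + b k := b_cast (by omega)
      have hM0 : 0 < M := by positivity
      have h7 := omega_le hM0.ne' fun p hp h8 => ind_ne h6 p hp (by
        rw [← hMc]
        exact_mod_cast h8)
      set L := M.primeFactorsList.length with hL
      have h9 : (M : ℝ) ≤ (X : ℝ) ^ (2 : ℝ) := by
        have h10 : (2 : ℝ) ^ k ≤ X := (pow_le_pow_right₀ (by norm_num) hk.2).trans hK2
        have h11 : ((n - k : ℕ) : ℝ) ≤ X := by exact_mod_cast (by omega : n - k ≤ X)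
        have h12 : (M : ℝ) = 2 ^ k + ((n - k : ℕ) : ℝ) := by rw [hM]; push_cast; ring
        rw [h12, show (2 : ℝ) = ((2 : ℕ) : ℝ) by norm_num, Real.rpow_natCast]
        push_cast
        nlinarith
      have h13 : (X : ℝ) ^ (dlt B * L) ≤ (X : ℝ) ^ (2 : ℝ) := by
        calc (X : ℝ) ^ (dlt B * L) = ((X : ℝ) ^ dlt B) ^ L := by
              rw [Real.rpow_mul (by linarith), Real.rpow_natCast]
          _ ≤ ((y : ℝ) + 1) ^ L := by gcongr
          _ ≤ M := by exact_mod_cast h7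
          _ ≤ _ := h9
      have h14 : dlt B * L ≤ 2 := (Real.rpow_le_rpow_left_iff (by linarith)).1 h13
      have h15 : (L : ℝ) ≤ 48 * B + 96 := by
        unfold dlt at h14
        rw [div_mul_eq_mul_div, one_mul, div_le_iff₀ (by positivity)] at h14
        linarith
      exact_mod_cast h15
    have h6 : ({n : ℕ | n < X ∧ ∀ k ∈ Icc 1 K, ind (pm y) n k = 0} ∪ ↑(range (K + 1)) : Set ℕ).Finite :=
      ((Set.finite_lt_nat X).subset fun n hn => hn.1).union (Finset.finite_toSet _)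
    refine (Set.ncard_le_ncard h5 h6).trans ((Set.ncard_union_le _ _).trans ?_)
    rw [Set.ncard_coe_finset, card_range]
    exact le_rfl
  have hsubr : (num (fun n => 1 < n ∧ ¬ AlmostGood (48 * B + 96) n) X : ℝ) ≤
      (num (fun n : ℕ => ∀ k ∈ Icc 1 K, ind (pm y) n k = 0) X : ℝ) + (K + 1) := by exact_mod_cast hsub
  have hKX : (K : ℝ) + 1 ≤ X * (1 / B) := by
    have h5 : 4 * (B : ℝ) ≤ √(X : ℝ) := by
      rw [Real.le_sqrt (by positivity) (by positivity)]
      have : (16 : ℝ) * B ^ 2 ≤ X := by exact_mod_cast hXB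
      nlinarith
    have h6 : √(X : ℝ) * √(X : ℝ) = X := Real.mul_self_sqrt (by linarith)
    have h7 : 0 < √(X : ℝ) := Real.sqrt_pos.2 (by linarith)
    refine hKs.trans ?_
    rw [mul_one_div, le_div_iff₀ hB0]
    nlinarith
  have h2μ : 2 / (K * V y) ≤ 1 / (6 * c) * (1 / B) := by
    have h5 : 2 / (K * V y) ≤ 2 / (c / (2 * dlt B)) := div_le_div_of_nonneg_left (by norm_num) (by positivity) hμ
    refine h5.trans ?_
    have h6 : 2 / (c / (2 * dlt B)) = 4 / c * dlt B := by field_simp; ring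
    rw [h6]
    unfold dlt
    have h7 : (1 : ℝ) / (4 * (6 * B + 12)) ≤ 1 / (24 * B) :=
      one_div_le_one_div_of_le (by positivity) (by linarith)
    calc 4 / c * (1 / (4 * (6 * B + 12)) : ℝ) ≤ 4 / c * (1 / (24 * B)) := by gcongr
      _ = 1 / (6 * c) * (1 / B) := by field_simp; ring
  have hbr : 2 / (K * V y) + 4 * (2 * (1 / 2 : ℝ) ^ B) + 1 / B ≤ (1 / (6 * c) + 5) * (1 / B) := by linarith
  have h16 := mul_le_mul_of_nonneg_left hbr (by positivity : (0 : ℝ) ≤ X)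
  have h17 : (0 : ℝ) ≤ X * (1 / B) := by positivity
  calc (num (fun n => 1 < n ∧ ¬ AlmostGood (48 * B + 96) n) X : ℝ)
      ≤ X * ((1 / (6 * c) + 5) * (1 / B)) + X * (1 / B) := by linarith
    _ = (1 / (6 * c) + 6) * (X * (1 / B)) := by ring
    _ ≤ (1 / (6 * c) + 10) * (X * (1 / B)) := by
        gcongr
        norm_num
    _ = (1 / (6 * c) + 10) / B * X := by ring

/-- for all but `O(N / r)` of the `n ≤ N` there are `k + m = n` with `2 ^ k + m` a product of at most `r` primes -/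
theorem part2 : ∃ C : ℝ, 0 < C ∧ ∀ r : ℕ, 1 ≤ r → ∃ N₀ : ℕ, ∀ N : ℕ, N₀ ≤ N →
    ({n : ℕ | 1 < n ∧ n ≤ N ∧ ¬ AlmostGood r n}.ncard : ℝ) ≤ C / r * N := by
  obtain ⟨C, hC, h⟩ := part2B
  refine ⟨max 1100 (200 * C), lt_of_lt_of_le (by norm_num) (le_max_left _ _), fun r hr => ?_⟩
  have hrr : (1 : ℝ) ≤ r := by exact_mod_cast hr
  by_cases hr2 : r < 1100
  · refine ⟨0, fun N _ => ?_⟩
    have h1 : {n : ℕ | 1 < n ∧ n ≤ N ∧ ¬ AlmostGood r n} ⊆ ↑(Icc 1 N) := by
      intro n hn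
      rw [Finset.mem_coe, mem_Icc]
      exact ⟨hn.1.le, hn.2.1⟩
    have h2 := Set.ncard_le_ncard h1 (Finset.finite_toSet _)
    rw [Set.ncard_coe_finset, Nat.card_Icc, Nat.add_sub_cancel] at h2
    have h3 : (({n : ℕ | 1 < n ∧ n ≤ N ∧ ¬ AlmostGood r n}.ncard : ℕ) : ℝ) ≤ N := by exact_mod_cast h2
    refine h3.trans ?_
    have h4 : (1 : ℝ) ≤ max 1100 (200 * C) / r := by
      rw [le_div_iff₀ (by linarith), one_mul]
      have : (r : ℝ) ≤ 1100 := by exact_mod_cast hr2.le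
      exact this.trans (le_max_left _ _)
    have : (0 : ℝ) ≤ N := Nat.cast_nonneg _
    nlinarith
  · set B := (r - 96) / 48 with hB
    have hB20 : 20 ≤ B := by omega
    have hBr : 48 * B + 96 ≤ r := by omega
    have hB100 : r ≤ 100 * B := by omega
    obtain ⟨X₁, hX₁⟩ := h B hB20
    refine ⟨max X₁ 1, fun N hN => ?_⟩
    have h1 := hX₁ (N + 1) (by have := (le_max_left X₁ 1).trans hN; omega)
    have hN1 : (1 : ℝ) ≤ N := by exact_mod_cast (le_max_right X₁ 1).trans hN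
    have h2 : {n : ℕ | 1 < n ∧ n ≤ N ∧ ¬ AlmostGood r n}.ncard ≤
        num (fun n => 1 < n ∧ ¬ AlmostGood (48 * B + 96) n) (N + 1) := by
      unfold num
      refine Set.ncard_le_ncard (fun n hn => ?_) ((Set.finite_lt_nat (N + 1)).subset fun n hn => hn.1)
      exact ⟨by have := hn.2.1; omega, hn.1, fun h3 => hn.2.2 (h3.mono hBr)⟩
    have h3 : (({n : ℕ | 1 < n ∧ n ≤ N ∧ ¬ AlmostGood r n}.ncard : ℕ) : ℝ) ≤
        num (fun n => 1 < n ∧ ¬ AlmostGood (48 * B + 96) n) (N + 1) := by exact_mod_cast h2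
    have hB0 : (0 : ℝ) < B := by exact_mod_cast (by omega : 0 < B)
    have hrB : (r : ℝ) ≤ 100 * B := by exact_mod_cast hB100
    calc (({n : ℕ | 1 < n ∧ n ≤ N ∧ ¬ AlmostGood r n}.ncard : ℕ) : ℝ) ≤ C / B * ((N + 1 : ℕ) : ℝ) := h3.trans h1
      _ ≤ C / B * (2 * N) := by
          push_cast
          gcongr
          linarith
      _ ≤ 100 * C / r * (2 * N) := by
          gcongr ?_ * _
          rw [div_le_div_iff₀ hB0 (by linarith)]
          nlinarith
      _ = 200 * C / r * N := by ring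
      _ ≤ max 1100 (200 * C) / r * N := by
          gcongr
          exact le_max_right _ _

end Pool.Agent.H78.RS
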