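import Pool.Agent.H78.RS.Cnt
import Pool.Agent.H2.WO.Mer
import Pool.Agent.H5.Short.Second

set_option autoImplicit false

/-!
# The average of the singular series over pairs of exponents
-/

namespace Pool.Agent.H78.RS

open Finset Pool.Agent.H2.WO Pool.Agent.H75.AP

theorem log_sq_le (x : ℝ) (hx : 1 ≤ x) : (Real.log x) ^ 2 ≤ 16 * √x := by
  have h0 : 0 < √x := Real.sqrt_pos.2 (by linarith)
  have h1 : 0 < √(√x) := Real.sqrt_pos.2 h0
  have h2 : Real.log x = 4 * Real.log (√(√x)) := by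
    rw [Real.log_sqrt h0.le, Real.log_sqrt (by linarith)]
    ring
  have h3 : Real.log (√(√x)) ≤ √(√x) := by
    have := Real.log_le_sub_one_of_pos h1
    linarith
  have h4 : 0 ≤ Real.log x := Real.log_nonneg hx
  have h5 : Real.log x ≤ 4 * √(√x) := by rw [h2]; linarith
  calc (Real.log x) ^ 2 ≤ (4 * √(√x)) ^ 2 := by gcongr
    _ = 16 * (√(√x) * √(√x)) := by ring
    _ = 16 * √x := by rw [Real.mul_self_sqrt h0.le]

theorem L1 : ∃ C : ℝ, 0 < C ∧ ∀ S : Finset ℕ, (∀ p ∈ S, p.Prime ∧ 3 ≤ p) →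
    ∏ p ∈ S, (1 + 2 / (p : ℝ)) - 1 ≤ C * ∑ q ∈ S, 1 / √(q : ℝ) := by
  obtain ⟨C, hC, hM⟩ := mertens_upper
  refine ⟨32 * Real.exp (2 * C), by positivity, fun S hS => ?_⟩
  rw [Finset.prod_one_add_ordered, add_sub_cancel_left, Finset.mul_sum]
  refine Finset.sum_le_sum fun q hq => ?_
  have hq3 : (3 : ℝ) ≤ q := by exact_mod_cast (hS q hq).2
  have hq0 : (0 : ℝ) < q := by linarith
  have hlog : 0 < Real.log q := Real.log_pos (by linarith)
  have h1 : ∏ j ∈ S with j < q, (1 + 2 / (j : ℝ)) ≤ Real.exp (2 * C) * (Real.log q) ^ 2 := by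
    calc ∏ j ∈ S with j < q, (1 + 2 / (j : ℝ)) ≤ ∏ j ∈ S with j < q, Real.exp (2 / (j : ℝ)) := by
          refine Finset.prod_le_prod (fun j _ => by positivity) fun j _ => ?_
          have := Real.add_one_le_exp (2 / (j : ℝ))
          linarith
      _ = Real.exp (∑ j ∈ S with j < q, 2 / (j : ℝ)) := by rw [Real.exp_sum]
      _ ≤ Real.exp (2 * (Real.log (Real.log q) + C)) := by
          refine Real.exp_le_exp.2 ?_
          have h2 : ∑ j ∈ S with j < q, 1 / (j : ℝ) ≤ ∑ p ∈ PI 0 (q : ℝ), 1 / (p : ℝ) := by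
            refine Finset.sum_le_sum_of_subset_of_nonneg (fun j hj => ?_) fun _ _ _ => by positivity
            rw [mem_filter] at hj
            rw [mem_PI0]
            exact ⟨(hS j hj.1).1, hj.2.le⟩
          have h3 := hM q hq3
          have h4 : ∑ j ∈ S with j < q, 2 / (j : ℝ) = 2 * ∑ j ∈ S with j < q, 1 / (j : ℝ) := by
            rw [Finset.mul_sum]
            exact Finset.sum_congr rfl fun j _ => by ring
          rw [h4]
          linarith
      _ = Real.exp (2 * C) * (Real.log q) ^ 2 := by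
          rw [mul_add, Real.exp_add, mul_comm]
          congr 1
          rw [two_mul, Real.exp_add, Real.exp_log hlog, sq]
  have h2 := log_sq_le q (by linarith)
  have hs : 0 < √(q : ℝ) := Real.sqrt_pos.2 hq0
  have hss : √(q : ℝ) * √(q : ℝ) = q := Real.mul_self_sqrt hq0.le
  calc 2 / (q : ℝ) * ∏ j ∈ S with j < q, (1 + 2 / (j : ℝ))
      ≤ 2 / (q : ℝ) * (Real.exp (2 * C) * (16 * √(q : ℝ))) := by
        refine mul_le_mul_of_nonneg_left (h1.trans ?_) (by positivity)
        exact mul_le_mul_of_nonneg_left h2 (Real.exp_pos _).le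
    _ = 32 * Real.exp (2 * C) * (√(q : ℝ) / q) := by ring
    _ = 32 * Real.exp (2 * C) * (1 / √(q : ℝ)) := by
        congr 1
        rw [div_eq_div_iff hq0.ne' hs.ne', hss, one_mul]

theorem exp_sub_one_le {t : ℝ} : Real.exp t - 1 ≤ t * Real.exp t := by
  have h1 := Real.add_one_le_exp (-t)
  have h2 := Real.exp_pos t
  have h3 : Real.exp t * Real.exp (-t) = 1 := by rw [← Real.exp_add]; simp
  nlinarith

theorem L2 : ∃ C : ℝ, 1 ≤ C ∧ ∀ K : ℕ, 9 ≤ K → ∀ d : ℤ, d ≠ 0 → |(d : ℝ)| ≤ 2 ^ K → ∀ S : Finset ℕ,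
    (∀ p ∈ S, p.Prime ∧ (p : ℤ) ∣ d ∧ K < p * p) →
    ∏ p ∈ S, (1 + 2 / (p : ℝ)) ≤ C ∧
    ∏ p ∈ S, (1 + 2 / (p : ℝ)) - 1 ≤ C * (∑ p ∈ S with p ≤ K, 1 / (p : ℝ) + 1 / Real.log K) := by
  obtain ⟨Cu, hCu, hU⟩ := mertens_upper
  obtain ⟨Cl, hCl, hL⟩ := mertens_low
  set T0 : ℝ := 2 * (Real.log 2 + Cu + Cl + 1) with hT0
  have hlog2 : 0 < Real.log 2 := Real.log_pos (by norm_num)
  have hlog21 : Real.log 2 ≤ 1 := by linarith [Real.log_two_lt_d9]
  have hT00 : 0 ≤ T0 := by rw [hT0]; positivity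
  have hexp1 : 1 ≤ Real.exp T0 := Real.one_le_exp hT00
  refine ⟨2 * Real.exp T0, by linarith, fun K hK d hd hdK S hS => ?_⟩
  have hKr : (9 : ℝ) ≤ K := by exact_mod_cast hK
  have hlogK : 1 ≤ Real.log K := by
    rw [Real.le_log_iff_exp_le (by linarith)]
    linarith [Real.exp_one_lt_d9]
  set A := ∑ p ∈ S with p ≤ K, 1 / (p : ℝ) with hA
  set S' := S.filter (fun p => ¬ p ≤ K) with hS'
  set Bb := ∑ p ∈ S', 1 / (p : ℝ) with hBb
  have hA0 : 0 ≤ A := Finset.sum_nonneg fun _ _ => by positivity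
  have hB0 : 0 ≤ Bb := Finset.sum_nonneg fun _ _ => by positivity
  -- large primes
  have hcard : (S'.card : ℝ) * Real.log K ≤ K * Real.log 2 := by
    have h1 : (∏ p ∈ S', p) ∣ d.natAbs := by
      refine Finset.prod_primes_dvd d.natAbs (fun p hp => ?_) fun p hp => ?_
      · exact (hS p (mem_filter.1 hp).1).1.prime
      · exact Int.natCast_dvd.1 (hS p (mem_filter.1 hp).1).2.1
    have h2 : ((∏ p ∈ S', p : ℕ) : ℝ) ≤ |(d : ℝ)| := by
      have h3 := Nat.le_of_dvd (Int.natAbs_pos.2 hd) h1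
      have h4 : |(d : ℝ)| = (d.natAbs : ℝ) := by
        rw [← Int.cast_abs, Int.abs_eq_natAbs, Int.cast_natCast]
      rw [h4]
      exact_mod_cast h3
    have h3 : (K : ℝ) ^ S'.card ≤ ((∏ p ∈ S', p : ℕ) : ℝ) := by
      rw [← Finset.prod_const]
      push_cast
      refine Finset.prod_le_prod (fun _ _ => by linarith) fun p hp => ?_
      exact_mod_cast (not_le.1 (mem_filter.1 hp).2).le
    have h4 := Real.log_le_log (by positivity) (h3.trans (h2.trans hdK))
    rw [Real.log_pow, Real.log_pow] at h4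
    exact h4
  have hB1 : Bb ≤ 1 / Real.log K := by
    have h1 : Bb ≤ S'.card * (1 / (K : ℝ)) := by
      rw [← nsmul_eq_mul, ← Finset.sum_const]
      refine Finset.sum_le_sum fun p hp => ?_
      refine one_div_le_one_div_of_le (by linarith) ?_
      exact_mod_cast (not_le.1 (mem_filter.1 hp).2).le
    refine h1.trans ?_
    rw [mul_one_div, div_le_div_iff₀ (by linarith) (by linarith)]
    nlinarith
  have hB2 : Bb ≤ 1 := hB1.trans (by rw [div_le_one (by linarith)]; exact hlogK)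
  -- middle primes
  have hA1 : A ≤ Real.log 2 + Cu + Cl := by
    have hsq : √(K : ℝ) * √(K : ℝ) = K := Real.mul_self_sqrt (by linarith)
    have hs3 : (3 : ℝ) ≤ √(K : ℝ) := by
      rw [Real.le_sqrt (by norm_num) (by linarith)]
      linarith
    have h1 := hU K (by linarith)
    have h2 := hL (√(K : ℝ)) hs3
    have h3 : A + ∑ p ∈ PI 0 (√(K : ℝ)), 1 / (p : ℝ) ≤ ∑ p ∈ PI 0 (K : ℝ), 1 / (p : ℝ) := by
      rw [hA, ← Finset.sum_union]
      · refine Finset.sum_le_sum_of_subset_of_nonneg (fun p hp => ?_) fun _ _ _ => by positivity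
        rw [mem_union, mem_filter, MertB.mem_PI (le_refl 0)] at hp
        rw [mem_PI0]
        rcases hp with hp | hp
        · exact ⟨(hS p hp.1).1, hp.2⟩
        · refine ⟨hp.1, ?_⟩
          have : (p : ℝ) ≤ K := hp.2.2.trans (by nlinarith)
          exact_mod_cast this
      · rw [Finset.disjoint_left]
        intro p hp hp2
        rw [mem_filter] at hp
        rw [MertB.mem_PI (le_refl 0)] at hp2
        have h4 : (K : ℝ) < p * p := by exact_mod_cast (hS p hp.1).2.2
        have h5 := hp2.2.2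
        nlinarith
    have h4 : Real.log (√(K : ℝ)) = Real.log K / 2 := Real.log_sqrt (by linarith)
    rw [h4, Real.log_div (by linarith) (by norm_num)] at h2
    linarith
  have hsum : ∑ p ∈ S, 1 / (p : ℝ) = A + Bb := (Finset.sum_filter_add_sum_filter_not _ _ _).symm
  have hprod : ∏ p ∈ S, (1 + 2 / (p : ℝ)) ≤ Real.exp (2 * (A + Bb)) := by
    calc ∏ p ∈ S, (1 + 2 / (p : ℝ)) ≤ ∏ p ∈ S, Real.exp (2 / (p : ℝ)) := by
          refine Finset.prod_le_prod (fun j _ => by positivity) fun j _ => ?_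
          have := Real.add_one_le_exp (2 / (j : ℝ))
          linarith
      _ = Real.exp (2 * (A + Bb)) := by
          rw [← Real.exp_sum, ← hsum, Finset.mul_sum]
          congr 1
          exact Finset.sum_congr rfl fun j _ => by ring
  have hT : 2 * (A + Bb) ≤ T0 := by rw [hT0]; linarith
  have hE : Real.exp (2 * (A + Bb)) ≤ Real.exp T0 := Real.exp_le_exp.2 hT
  constructor
  · linarith
  · have h1 := exp_sub_one_le (t := 2 * (A + Bb))
    have h2 : 2 * (A + Bb) * Real.exp (2 * (A + Bb)) ≤ 2 * (A + 1 / Real.log K) * Real.exp T0 := by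
      gcongr
    linarith

theorem L4 (w : ℕ) (hw : 1 ≤ w) (S : Finset ℕ) (hS : ∀ q ∈ S, w < q) :
    ∑ q ∈ S, 1 / ((q : ℝ) * √(q : ℝ)) ≤ 2 / √(w : ℝ) := by
  have key : ∀ N : ℕ, w ≤ N → ∑ q ∈ Ioc w N, 1 / ((q : ℝ) * √(q : ℝ)) ≤ 2 / √(w : ℝ) - 2 / √(N : ℝ) := by
    intro N hN
    induction N, hN using Nat.le_induction with
    | base => simp
    | succ N hN ih =>
      rw [← Finset.insert_Ioc_right_eq_Ioc_add_one hN, Finset.sum_insert (by simp)]
      have hN0 : (0 : ℝ) < N := by exact_mod_cast (by omega : 0 < N)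
      set a := √(N : ℝ) with ha
      set c := √((N + 1 : ℕ) : ℝ) with hc
      have ha0 : 0 < a := Real.sqrt_pos.2 hN0
      have haa : a * a = N := Real.mul_self_sqrt hN0.le
      have hcc : c * c = ((N + 1 : ℕ) : ℝ) := Real.mul_self_sqrt (by positivity)
      have hac : a ≤ c := Real.sqrt_le_sqrt (by push_cast; linarith)
      have hc0 : 0 < c := lt_of_lt_of_le ha0 hac
      have h1 : c * c - a * a = 1 := by rw [hcc, haa]; push_cast; ring
      have h2 : 1 / (((N + 1 : ℕ) : ℝ) * c) ≤ 2 / a - 2 / c := by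
        rw [← hcc, div_sub_div _ _ ha0.ne' hc0.ne', div_le_div_iff₀ (by positivity) (by positivity)]
        have h3 : 2 * c - a * 2 = 2 * (c - a) := by ring
        have h4 : (c - a) * (c + a) = 1 := by linarith
        have h5 : 0 ≤ c - a := by linarith
        have h6 : 1 ≤ (c - a) * (2 * c) := by nlinarith
        nlinarith [mul_le_mul_of_nonneg_left h6 (by positivity : 0 ≤ c * c),
          mul_le_mul_of_nonneg_left hac hc0.le]
      linarith
  have hsub : S ⊆ Ioc w (max w (S.sup id)) := fun q hq => by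
    rw [mem_Ioc]
    exact ⟨hS q hq, (Finset.le_sup (f := id) hq).trans (le_max_right _ _)⟩
  have h1 := key _ (le_max_left w (S.sup id))
  have h2 : ∑ q ∈ S, 1 / ((q : ℝ) * √(q : ℝ)) ≤
      ∑ q ∈ Ioc w (max w (S.sup id)), 1 / ((q : ℝ) * √(q : ℝ)) :=
    Finset.sum_le_sum_of_subset_of_nonneg hsub fun _ _ _ => by positivity
  have h3 : 0 ≤ 2 / √((max w (S.sup id) : ℕ) : ℝ) := by positivity
  linarith

end Pool.Agent.H78.RS
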