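import Pool.Agent.H78.RS.Avg

set_option autoImplicit false

/-!
# The average of the singular series over pairs of exponents, II
-/

namespace Pool.Agent.H78.RS

open Finset Pool.Agent.H2.WO Pool.Agent.H75.AP

/-- the primes of `P` dividing the difference of two shifts -/
def dv (P : Finset ℕ) (k l : ℕ) : Finset ℕ := P.filter (fun p => (p : ℤ) ∣ b k - b l)

theorem pair_sum (P : Finset ℕ) (hP : ∀ p ∈ P, p.Prime) (f : ℕ → ℝ) (hf : ∀ p ∈ P, 0 ≤ f p) (K : ℕ) :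
    ∑ k ∈ Icc 1 K, ∑ l ∈ Icc 1 K, ∑ p ∈ dv P k l, f p ≤ ∑ p ∈ P, f p * (K * (K / p + p)) := by
  have h1 : ∑ k ∈ Icc 1 K, ∑ l ∈ Icc 1 K, ∑ p ∈ dv P k l, f p =
      ∑ p ∈ P, ∑ l ∈ Icc 1 K, ∑ k ∈ Icc 1 K, (if (p : ℤ) ∣ b k - b l then f p else 0) := by
    unfold dv
    simp only [Finset.sum_filter]
    rw [Finset.sum_comm]
    have h2 : ∀ l ∈ Icc 1 K, ∑ k ∈ Icc 1 K, ∑ p ∈ P, (if (p : ℤ) ∣ b k - b l then f p else 0) =
        ∑ p ∈ P, ∑ k ∈ Icc 1 K, (if (p : ℤ) ∣ b k - b l then f p else 0) := fun l _ => Finset.sum_comm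
    rw [Finset.sum_congr rfl h2, Finset.sum_comm]
  rw [h1]
  refine Finset.sum_le_sum fun p hp => ?_
  have h3 : ∀ l ∈ Icc 1 K, ∑ k ∈ Icc 1 K, (if (p : ℤ) ∣ b k - b l then f p else 0) ≤ f p * (K / p + p) := by
    intro l _
    rw [← Finset.sum_filter, Finset.sum_const, nsmul_eq_mul, mul_comm]
    refine mul_le_mul_of_nonneg_left ?_ (hf p hp)
    refine le_trans (le_of_eq ?_) (pair_count (-b l) (hP p hp) K)
    congr 2
    refine Finset.filter_congr fun k _ => ?_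
    unfold b
    rw [show (2 : ℤ) ^ k - k - (2 ^ l - l) = -(2 ^ l - l) + 2 ^ k - k by ring]
  refine (Finset.sum_le_sum h3).trans (le_of_eq ?_)
  rw [Finset.sum_const, Nat.card_Icc, nsmul_eq_mul]
  simp
  ring

theorem b_lt {k l : ℕ} (hk : 1 ≤ k) (hkl : k < l) : b k < b l := by
  induction l, hkl using Nat.le_induction with
  | base =>
    unfold b
    have h1 : (2 : ℤ) ^ (k + 1) = 2 ^ k + 2 ^ k := by ring
    have h2 : (2 : ℤ) ≤ 2 ^ k := by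
      calc (2 : ℤ) = 2 ^ 1 := by norm_num
        _ ≤ 2 ^ k := pow_le_pow_right₀ (by norm_num) hk
    rw [Nat.succ_eq_add_one, h1]
    push_cast
    linarith
  | succ l hl ih =>
    refine ih.trans ?_
    unfold b
    have h1 : (2 : ℤ) ^ (l + 1) = 2 ^ l + 2 ^ l := by ring
    have h2 : (2 : ℤ) ≤ 2 ^ l := by
      calc (2 : ℤ) = 2 ^ 1 := by norm_num
        _ ≤ 2 ^ l := pow_le_pow_right₀ (by norm_num) (by omega)
    rw [h1]
    push_cast
    linarith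

theorem b_pos {k : ℕ} : 0 < b k := by
  unfold b
  have : (k : ℤ) < 2 ^ k := by exact_mod_cast Nat.lt_two_pow_self
  linarith

theorem b_le {k K : ℕ} (hkK : k ≤ K) : (b k : ℝ) ≤ 2 ^ K := by
  unfold b
  push_cast
  have : (2 : ℝ) ^ k ≤ 2 ^ K := pow_le_pow_right₀ (by norm_num) hkK
  have : (0 : ℝ) ≤ k := Nat.cast_nonneg _
  linarith

theorem b_sub {k l K : ℕ} (hk : 1 ≤ k) (hkK : k ≤ K) (hl : 1 ≤ l) (hlK : l ≤ K) (hkl : l ≠ k) :
    b k - b l ≠ 0 ∧ |((b k - b l : ℤ) : ℝ)| ≤ 2 ^ K := by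
  have h1 : (0 : ℝ) < b k := by exact_mod_cast b_pos
  have h2 : (0 : ℝ) < b l := by exact_mod_cast b_pos
  have h3 := b_le hkK
  have h4 := b_le hlK
  refine ⟨?_, ?_⟩
  · rcases lt_or_gt_of_ne hkl with h | h
    · have := b_lt hl h
      omega
    · have := b_lt hk h
      omega
  · push_cast
    rw [abs_le]
    constructor <;> linarith

theorem one_le_prod (S : Finset ℕ) : 1 ≤ ∏ p ∈ S, (1 + 2 / (p : ℝ)) := by
  refine Finset.prod_induction _ (fun x : ℝ => 1 ≤ x) (fun a b ha hb => by nlinarith) le_rfl fun p _ => ?_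
  have : (0 : ℝ) ≤ 2 / p := by positivity
  linarith

theorem avg_large : ∃ C : ℝ, 0 < C ∧ ∀ w : ℕ, 3 ≤ w → ∃ K₀ : ℕ, ∀ K : ℕ, K₀ ≤ K → ∀ P : Finset ℕ,
    (∀ p ∈ P, p.Prime ∧ w < p) →
      ∑ k ∈ Icc 1 K, ∑ l ∈ (Icc 1 K).erase k, (∏ p ∈ dv P k l, (1 + 2 / (p : ℝ)) - 1) ≤
        C / √(w : ℝ) * (K : ℝ) ^ 2 := by
  obtain ⟨C1, hC1, h1⟩ := L1
  obtain ⟨C2, hC2, h2⟩ := L2
  obtain ⟨C3, hC3, h3⟩ := Pool.Agent.H5.Short.pi_le
  refine ⟨4 * C1 * C2 + 4 * C2, by positivity, fun w hw => ?_⟩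
  have hw0 : (0 : ℝ) < √(w : ℝ) := Real.sqrt_pos.2 (by exact_mod_cast (by omega : 0 < w))
  refine ⟨max 9 ⌈Real.exp ((C3 + 1) * √(w : ℝ))⌉₊, fun K hK P hP => ?_⟩
  have hK9 : 9 ≤ K := (le_max_left _ _).trans hK
  have hK9r : (9 : ℝ) ≤ K := by exact_mod_cast hK9
  have hKe : Real.exp ((C3 + 1) * √(w : ℝ)) ≤ K :=
    (Nat.le_ceil _).trans (by exact_mod_cast (le_max_right _ _).trans hK)
  have hlog : (C3 + 1) * √(w : ℝ) ≤ Real.log K := (Real.le_log_iff_exp_le (by linarith)).2 hKe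
  have hlog0 : 0 < Real.log K := lt_of_lt_of_le (by positivity) hlog
  have hlog1 : 1 / Real.log K ≤ 1 / √(w : ℝ) := by
    refine one_div_le_one_div_of_le hw0 ?_
    nlinarith
  have hlog3 : C3 / Real.log K ≤ 1 / √(w : ℝ) := by
    rw [div_le_div_iff₀ hlog0 hw0]
    nlinarith
  set PA := P.filter (fun p => p * p ≤ K) with hPA
  set PB := (P.filter (fun p => ¬ p * p ≤ K)).filter (fun p => p ≤ K) with hPB
  -- pointwise bound
  have hpt : ∀ k ∈ Icc 1 K, ∀ l ∈ (Icc 1 K).erase k,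
      (∏ p ∈ dv P k l, (1 + 2 / (p : ℝ)) - 1) ≤
        C1 * C2 * ∑ q ∈ dv PA k l, 1 / √(q : ℝ) + C2 * (∑ p ∈ dv PB k l, 1 / (p : ℝ)) + C2 / Real.log K := by
    intro k hk l hl
    rw [mem_erase, mem_Icc] at hl
    rw [mem_Icc] at hk
    obtain ⟨hd, hdK⟩ := b_sub hk.1 hk.2 hl.2.1 hl.2.2 hl.1
    set S1 := (dv P k l).filter (fun p => p * p ≤ K) with hS1
    set S2 := (dv P k l).filter (fun p => ¬ p * p ≤ K) with hS2
    have e1 : S1 = dv PA k l := by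
      rw [hS1, hPA]
      unfold dv
      rw [Finset.filter_comm]
    have e2 : S2.filter (fun p => p ≤ K) = dv PB k l := by
      rw [hS2, hPB]
      unfold dv
      ext p
      simp only [mem_filter]
      tauto
    have hsplit : ∏ p ∈ dv P k l, (1 + 2 / (p : ℝ)) =
        (∏ p ∈ S1, (1 + 2 / (p : ℝ))) * ∏ p ∈ S2, (1 + 2 / (p : ℝ)) :=
      (Finset.prod_filter_mul_prod_filter_not _ _ _).symm
    have hmem : ∀ p ∈ dv P k l, p.Prime ∧ w < p ∧ (p : ℤ) ∣ b k - b l := fun p hp => by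
      unfold dv at hp
      rw [mem_filter] at hp
      exact ⟨(hP p hp.1).1, (hP p hp.1).2, hp.2⟩
    have hb1 := h1 S1 fun p hp => by
      have := hmem p (mem_filter.1 hp).1
      exact ⟨this.1, by omega⟩
    obtain ⟨hb2, hb3⟩ := h2 K hK9 _ hd hdK S2 fun p hp => by
      have := hmem p (mem_filter.1 hp).1
      exact ⟨this.1, this.2.2, not_le.1 (mem_filter.1 hp).2⟩
    rw [e2] at hb3
    rw [← e1, hsplit]
    have hF1 := one_le_prod S1
    set F1 := ∏ p ∈ S1, (1 + 2 / (p : ℝ))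
    set F2 := ∏ p ∈ S2, (1 + 2 / (p : ℝ))
    set A1 := ∑ q ∈ S1, 1 / √(q : ℝ)
    set A2 := ∑ p ∈ dv PB k l, 1 / (p : ℝ)
    have h5 : (F1 - 1) * F2 ≤ (F1 - 1) * C2 := mul_le_mul_of_nonneg_left hb2 (by linarith)
    have h6 : (F1 - 1) * C2 ≤ C1 * A1 * C2 := mul_le_mul_of_nonneg_right hb1 (by linarith)
    have h7 : C2 * (A2 + 1 / Real.log K) = C2 * A2 + C2 / Real.log K := by ring
    rw [h7] at hb3
    nlinarith
  have hnn : ∀ k l, 0 ≤ C1 * C2 * ∑ q ∈ dv PA k l, 1 / √(q : ℝ) + C2 * (∑ p ∈ dv PB k l, 1 / (p : ℝ)) +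
      C2 / Real.log K := by
    intro k l
    have e1 : 0 ≤ ∑ q ∈ dv PA k l, 1 / √(q : ℝ) := Finset.sum_nonneg fun _ _ => by positivity
    have e2 : 0 ≤ ∑ p ∈ dv PB k l, 1 / (p : ℝ) := Finset.sum_nonneg fun _ _ => by positivity
    positivity
  have hsum : ∑ k ∈ Icc 1 K, ∑ l ∈ (Icc 1 K).erase k, (∏ p ∈ dv P k l, (1 + 2 / (p : ℝ)) - 1) ≤
      ∑ k ∈ Icc 1 K, ∑ l ∈ Icc 1 K, (C1 * C2 * ∑ q ∈ dv PA k l, 1 / √(q : ℝ) +
        C2 * (∑ p ∈ dv PB k l, 1 / (p : ℝ)) + C2 / Real.log K) := by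
    refine Finset.sum_le_sum fun k hk => (Finset.sum_le_sum (hpt k hk)).trans ?_
    exact Finset.sum_le_sum_of_subset_of_nonneg (Finset.erase_subset _ _) fun l _ _ => hnn k l
  refine hsum.trans ?_
  simp only [Finset.sum_add_distrib, ← Finset.mul_sum]
  have hPAp : ∀ p ∈ PA, p.Prime := fun p hp => (hP p (mem_filter.1 hp).1).1
  have hPBp : ∀ p ∈ PB, p.Prime := fun p hp => (hP p (mem_filter.1 (mem_filter.1 hp).1).1).1
  have hKr : (0 : ℝ) < K := by linarith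
  -- term 1
  have t1 : ∑ k ∈ Icc 1 K, ∑ l ∈ Icc 1 K, ∑ q ∈ dv PA k l, 1 / √(q : ℝ) ≤ 2 * (K : ℝ) ^ 2 * (2 / √(w : ℝ)) := by
    refine (pair_sum PA hPAp _ (fun _ _ => by positivity) K).trans ?_
    have h5 := L4 w (by omega) PA fun q hq => (hP q (mem_filter.1 hq).1).2
    refine le_trans ?_ (mul_le_mul_of_nonneg_left h5 (by positivity))
    rw [Finset.mul_sum]
    refine Finset.sum_le_sum fun q hq => ?_
    have hq0 : (0 : ℝ) < q := by exact_mod_cast (hPAp q hq).pos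
    have hqs : 0 < √(q : ℝ) := Real.sqrt_pos.2 hq0
    have h6 : (q : ℝ) * q ≤ K := by exact_mod_cast (mem_filter.1 hq).2
    have h7 : (q : ℝ) ≤ K / q := by rw [le_div_iff₀ hq0]; exact h6
    calc 1 / √(q : ℝ) * (K * (K / q + q)) ≤ 1 / √(q : ℝ) * (K * (K / q + K / q)) := by gcongr
      _ = 2 * (K : ℝ) ^ 2 * (1 / (q * √(q : ℝ))) := by field_simp; ring
  -- term 2
  have t2 : ∑ k ∈ Icc 1 K, ∑ l ∈ Icc 1 K, ∑ p ∈ dv PB k l, 1 / (p : ℝ) ≤
      (K : ℝ) ^ 2 * (2 / √(w : ℝ)) + K * (K * (1 / √(w : ℝ))) := by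
    refine (pair_sum PB hPBp _ (fun _ _ => by positivity) K).trans ?_
    have h5 := L4 w (by omega) PB fun q hq => (hP q (mem_filter.1 (mem_filter.1 hq).1).1).2
    have h6 : ∀ p ∈ PB, 1 / (p : ℝ) * (K * (K / p + p)) ≤ (K : ℝ) ^ 2 * (1 / (p * √(p : ℝ))) + K := by
      intro p hp
      have hp1 : (1 : ℝ) ≤ p := by exact_mod_cast (hPBp p hp).pos
      have hp0 : (0 : ℝ) < p := by linarith
      have hps : 0 < √(p : ℝ) := Real.sqrt_pos.2 hp0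
      have h7 : √(p : ℝ) ≤ p := by
        rw [Real.sqrt_le_left hp0.le]
        nlinarith
      have h8 : 1 / ((p : ℝ) * p) ≤ 1 / (p * √(p : ℝ)) := by
        refine one_div_le_one_div_of_le (by positivity) ?_
        gcongr
      calc 1 / (p : ℝ) * (K * (K / p + p)) = (K : ℝ) ^ 2 * (1 / (p * p)) + K := by field_simp
        _ ≤ _ := by gcongr
    refine (Finset.sum_le_sum h6).trans ?_
    rw [Finset.sum_add_distrib, ← Finset.mul_sum, Finset.sum_const, nsmul_eq_mul]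
    have h9 : (PB.card : ℝ) ≤ C3 * K / Real.log K := by
      refine le_trans ?_ (h3 K (by omega))
      norm_cast
      refine card_le_card fun p hp => ?_
      rw [mem_filter, mem_Icc]
      exact ⟨⟨(hPBp p hp).pos, (mem_filter.1 hp).2⟩, hPBp p hp⟩
    have h10 : (PB.card : ℝ) ≤ K * (1 / √(w : ℝ)) := by
      refine h9.trans ?_
      calc C3 * K / Real.log K = K * (C3 / Real.log K) := by ring
        _ ≤ _ := by gcongr
    have h11 : (PB.card : ℝ) * K ≤ K * (K * (1 / √(w : ℝ))) := by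
      rw [mul_comm]
      gcongr
    have h12 := mul_le_mul_of_nonneg_left h5 (by positivity : (0 : ℝ) ≤ (K : ℝ) ^ 2)
    linarith
  have t3 : ∑ _k ∈ Icc 1 K, ∑ _l ∈ Icc 1 K, C2 / Real.log K ≤ (K : ℝ) ^ 2 * (C2 * (1 / √(w : ℝ))) := by
    rw [Finset.sum_const, Finset.sum_const, Nat.card_Icc, nsmul_eq_mul, nsmul_eq_mul]
    have e1 : ((K + 1 - 1 : ℕ) : ℝ) = K := by simp
    rw [e1]
    have e2 : C2 / Real.log K ≤ C2 * (1 / √(w : ℝ)) := by
      calc C2 / Real.log K = C2 * (1 / Real.log K) := by ring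
        _ ≤ _ := by gcongr
    calc (K : ℝ) * (K * (C2 / Real.log K)) = (K : ℝ) ^ 2 * (C2 / Real.log K) := by ring
      _ ≤ _ := by gcongr
  have e1 := mul_le_mul_of_nonneg_left t1 (by positivity : (0 : ℝ) ≤ C1 * C2)
  have e2 := mul_le_mul_of_nonneg_left t2 (by positivity : (0 : ℝ) ≤ C2)
  have e3 : C1 * C2 * (2 * (K : ℝ) ^ 2 * (2 / √(w : ℝ))) +
      C2 * ((K : ℝ) ^ 2 * (2 / √(w : ℝ)) + K * (K * (1 / √(w : ℝ)))) + (K : ℝ) ^ 2 * (C2 * (1 / √(w : ℝ))) =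
      (4 * C1 * C2 + 4 * C2) / √(w : ℝ) * (K : ℝ) ^ 2 := by ring
  linarith

end Pool.Agent.H78.RS
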