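import Pool.Agent.H78.RS.Avg2

set_option autoImplicit false

/-!
# The average of the singular series over pairs of exponents, III
-/

namespace Pool.Agent.H78.RS

open Finset Pool.Agent.H2.WO Pool.Agent.H75.AP

/-- the product of `1 - 1/p` over the primes up to `y` -/
noncomputable def V (y : ℕ) : ℝ := ∏ p ∈ pm y, (1 - 1 / (p : ℝ))

theorem pr_one (y : ℕ) : pr 1 y = pm y := by
  ext p
  rw [mem_pr, mem_pm]
  refine and_congr_right fun _ => ⟨fun h => h.1, fun h => ⟨h, fun h2 => h.one_lt.ne' (Nat.dvd_one.1 h2)⟩⟩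

theorem V_low : ∃ c : ℝ, 0 < c ∧ ∀ y : ℕ, 3 ≤ y → c / Real.log y ≤ V y := by
  obtain ⟨c, hc, h⟩ := prod_lower 1 1 (fun _ => 1) (fun _ => le_rfl) (fun p hp _ => hp.one_lt)
  refine ⟨c, hc, fun y hy => ?_⟩
  have h1 := h y hy
  rw [pr_one, pow_one, mul_one_div] at h1
  unfold V
  simpa using h1

theorem V_upp : ∃ c : ℝ, 0 < c ∧ ∀ y : ℕ, 3 ≤ y → V y ≤ c / Real.log y := by
  obtain ⟨c, hc, h⟩ := prod_upper 1 1 1 (fun _ => 1) one_ne_zero (fun p hp => hp.pos)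
    (fun p hp _ => ⟨fun h => hp.one_lt.ne' (Nat.dvd_one.1 h), rfl⟩)
  refine ⟨c, hc, fun y hy => ?_⟩
  have h1 := h y hy
  rw [pr_one, pow_one, mul_one_div] at h1
  unfold V
  simpa using h1

theorem fac_pos {p : ℕ} (hp : p.Prime) : 0 < 1 - 1 / (p : ℝ) ∧ 1 - 1 / (p : ℝ) ≤ 1 := by
  have hp0 : (2 : ℝ) ≤ p := by exact_mod_cast hp.two_le
  constructor
  · rw [sub_pos, div_lt_one (by linarith)]
    linarith
  · have : (0 : ℝ) ≤ 1 / p := by positivity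
    linarith

theorem fac2 (k l : ℕ) {p : ℕ} (hp : p.Prime) :
    0 ≤ 1 - (nu {b k, b l} p : ℝ) / p ∧ 1 - (nu {b k, b l} p : ℝ) / p ≤ 1 := by
  have hp0 : (2 : ℝ) ≤ p := by exact_mod_cast hp.two_le
  have h1 : (nu {b k, b l} p : ℝ) ≤ 2 := by
    rw [nu_pair]
    split_ifs <;> norm_num
  constructor
  · rw [sub_nonneg, div_le_one (by linarith)]
    linarith
  · have : (0 : ℝ) ≤ (nu {b k, b l} p : ℝ) / p := by positivity
    linarith

/-- the factor at a prime `p ≥ 3` -/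
theorem fac_le (k l : ℕ) {p : ℕ} (hp : 2 < p) :
    1 - (nu {b k, b l} p : ℝ) / p ≤
      (1 - 1 / (p : ℝ)) ^ 2 * (if (p : ℤ) ∣ b k - b l then 1 + 2 / (p : ℝ) else 1) := by
  have hp0 : (2 : ℝ) < p := by exact_mod_cast hp
  rw [nu_pair]
  set t : ℝ := 1 / (p : ℝ) with ht
  have ht0 : 0 < t := by positivity
  have ht1 : t ≤ 1 / 2 := by
    rw [ht]
    exact one_div_le_one_div_of_le (by norm_num) hp0.le
  split_ifs with h
  · have e1 : ((1 : ℕ) : ℝ) / p = t := by rw [ht]; simp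
    have e2 : 2 / (p : ℝ) = 2 * t := by rw [ht]; ring
    rw [e1, e2]
    nlinarith [mul_nonneg ht0.le (by linarith : (0 : ℝ) ≤ 1 - 2 * t), mul_pos ht0 ht0]
  · have e1 : ((2 : ℕ) : ℝ) / p = 2 * t := by rw [ht]; push_cast; ring
    rw [e1]
    nlinarith

theorem avg_one (ε : ℝ) (hε : 0 < ε) (hε1 : ε ≤ 1) : ∃ K₀ : ℕ, ∀ K : ℕ, K₀ ≤ K → ∀ y : ℕ,
    ∑ k ∈ Icc 1 K, ∑ l ∈ (Icc 1 K).erase k, ∏ p ∈ pm y, (1 - (nu {b k, b l} p : ℝ) / p) ≤
      (1 + ε) * (K * V y) ^ 2 := by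
  obtain ⟨C, hC, hA⟩ := avg_large
  obtain ⟨c, hc, hV⟩ := V_low
  -- choice of w
  obtain ⟨w, hw3, hw⟩ : ∃ w : ℕ, 3 ≤ w ∧ C / √(w : ℝ) ≤ ε / 3 * (V w) ^ 2 := by
    set M : ℝ := 3 * C * 64 / (ε * c ^ 2) with hM
    have hM0 : 0 < M := by positivity
    refine ⟨max 3 ⌈M ^ 4⌉₊, le_max_left _ _, ?_⟩
    set w := max 3 ⌈M ^ 4⌉₊ with hwdef
    have hw3 : 3 ≤ w := le_max_left _ _
    have hwr : (3 : ℝ) ≤ w := by exact_mod_cast hw3
    have hwM : M ^ 4 ≤ w := (Nat.le_ceil _).trans (by exact_mod_cast le_max_right _ _)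
    have hlog : 0 < Real.log w := Real.log_pos (by linarith)
    set s := √(√(w : ℝ)) with hs
    have hs0 : 0 < √(w : ℝ) := Real.sqrt_pos.2 (by linarith)
    have hs1 : 0 < s := Real.sqrt_pos.2 hs0
    have hss : s * s = √(w : ℝ) := Real.mul_self_sqrt hs0.le
    have hww : √(w : ℝ) * √(w : ℝ) = w := Real.mul_self_sqrt (by linarith)
    have hMs : M ≤ s := by
      refine le_of_pow_le_pow_left₀ (n := 4) (by norm_num) hs1.le ?_
      have : s ^ 4 = w := by rw [← hww, ← hss]; ring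
      rw [this]
      exact hwM
    -- log w ≤ 8 √s
    have hl : Real.log w ^ 2 ≤ 64 * s := by
      have h1 : 0 < √s := Real.sqrt_pos.2 hs1
      have h2 : Real.log w = 8 * Real.log (√s) := by
        rw [Real.log_sqrt hs1.le, hs, Real.log_sqrt hs0.le, Real.log_sqrt (by linarith)]
        ring
      have h3 : Real.log (√s) ≤ √s := by
        have := Real.log_le_sub_one_of_pos h1
        linarith
      have h4 : Real.log w ≤ 8 * √s := by rw [h2]; linarith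
      calc Real.log w ^ 2 ≤ (8 * √s) ^ 2 := by gcongr
        _ = 64 * (√s * √s) := by ring
        _ = 64 * s := by rw [Real.mul_self_sqrt hs1.le]
    have hVw := hV w hw3
    have h5 : (c / Real.log w) ^ 2 ≤ V w ^ 2 := by gcongr
    refine le_trans ?_ (mul_le_mul_of_nonneg_left h5 (by positivity))
    rw [div_pow, ← hss]
    have h6 : C / (s * s) ≤ ε / 3 * (c ^ 2 / (64 * s)) := by
      rw [div_le_iff₀ (by positivity)]
      have h7 : ε / 3 * (c ^ 2 / (64 * s)) * (s * s) = ε * c ^ 2 / (3 * 64) * s := by field_simp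
      rw [h7]
      have h8 : C = ε * c ^ 2 / (3 * 64) * M := by
        rw [hM]
        field_simp
      rw [h8]
      gcongr
    refine h6.trans ?_
    gcongr
  obtain ⟨K1, hK1⟩ := hA w hw3
  have hVw0 : 0 < V w := Finset.prod_pos fun p hp => (fac_pos (mem_pm.1 hp).2).1
  set Qw : ℕ := ∏ p ∈ pm w, p * (p - 1) with hQw
  refine ⟨max (max 1 K1) ⌈18 * Qw / (ε * V w)⌉₊, fun K hK y => ?_⟩
  have hK1' : K1 ≤ K := (le_max_right _ _).trans ((le_max_left _ _).trans hK)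
  have hK0 : 1 ≤ K := (le_max_left _ _).trans ((le_max_left _ _).trans hK)
  have hKr : (1 : ℝ) ≤ K := by exact_mod_cast hK0
  have hKq : 18 * Qw / (ε * V w) ≤ (K : ℝ) :=
    (Nat.le_ceil _).trans (by exact_mod_cast (le_max_right _ _).trans hK)
  set P0 := (pm y).filter (fun p => p ≤ w) with hP0
  set P1 := (pm y).filter (fun p => ¬ p ≤ w) with hP1
  have hP0p : ∀ p ∈ P0, p.Prime := fun p hp => (mem_pm.1 (mem_filter.1 hp).1).2
  have hP1p : ∀ p ∈ P1, p.Prime ∧ w < p := fun p hp =>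
    ⟨(mem_pm.1 (mem_filter.1 hp).1).2, not_le.1 (mem_filter.1 hp).2⟩
  set V0 := ∏ p ∈ P0, (1 - 1 / (p : ℝ)) with hV0
  set V1 := ∏ p ∈ P1, (1 - 1 / (p : ℝ)) with hV1
  have hVV : V y = V0 * V1 := (Finset.prod_filter_mul_prod_filter_not _ _ _).symm
  have hsub : P0 ⊆ pm w := fun p hp => mem_pm.2 ⟨(mem_filter.1 hp).2, hP0p p hp⟩
  have hV0w : V w ≤ V0 := by
    unfold V
    rw [← Finset.prod_sdiff hsub]
    refine mul_le_of_le_one_left (Finset.prod_nonneg fun p hp => (fac_pos (hP0p p hp)).1.le) ?_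
    exact Finset.prod_le_one (fun p hp => (fac_pos (mem_pm.1 (mem_sdiff.1 hp).1).2).1.le)
      fun p hp => (fac_pos (mem_pm.1 (mem_sdiff.1 hp).1).2).2
  have hV00 : 0 < V0 := lt_of_lt_of_le hVw0 hV0w
  have hV10 : 0 < V1 := Finset.prod_pos fun p hp => (fac_pos (hP1p p hp).1).1
  set Q0 : ℕ := ∏ p ∈ P0, p * (p - 1) with hQ0
  have hQ0w : Q0 ≤ Qw := by
    rw [hQ0, hQw]
    refine Finset.prod_le_prod_of_subset_of_one_le' hsub ?_
    intro p hp _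
    have := (mem_pm.1 hp).2.one_lt
    exact Nat.mul_pos (by omega) (by omega)
  -- pointwise
  have hpt : ∀ k l, ∏ p ∈ pm y, (1 - (nu {b k, b l} p : ℝ) / p) ≤
      V1 ^ 2 * ((∏ p ∈ P0, (1 - (nu {b k, b l} p : ℝ) / p)) * ∏ p ∈ dv P1 k l, (1 + 2 / (p : ℝ))) := by
    intro k l
    have e1 : ∏ p ∈ pm y, (1 - (nu {b k, b l} p : ℝ) / p) =
        (∏ p ∈ P0, (1 - (nu {b k, b l} p : ℝ) / p)) * ∏ p ∈ P1, (1 - (nu {b k, b l} p : ℝ) / p) :=
      (Finset.prod_filter_mul_prod_filter_not _ _ _).symm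
    have e2 : ∏ p ∈ P1, (1 - (nu {b k, b l} p : ℝ) / p) ≤
        ∏ p ∈ P1, ((1 - 1 / (p : ℝ)) ^ 2 * (if (p : ℤ) ∣ b k - b l then 1 + 2 / (p : ℝ) else 1)) :=
      Finset.prod_le_prod (fun p hp => (fac2 k l (hP1p p hp).1).1)
        fun p hp => fac_le k l (by have := (hP1p p hp).2; omega)
    have e3 : ∏ p ∈ P1, ((1 - 1 / (p : ℝ)) ^ 2 * (if (p : ℤ) ∣ b k - b l then 1 + 2 / (p : ℝ) else 1)) =
        V1 ^ 2 * ∏ p ∈ dv P1 k l, (1 + 2 / (p : ℝ)) := by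
      rw [Finset.prod_mul_distrib, Finset.prod_pow]
      congr 1
      unfold dv
      exact (Finset.prod_filter _ _).symm
    rw [e3] at e2
    rw [e1]
    have e4 : 0 ≤ ∏ p ∈ P0, (1 - (nu {b k, b l} p : ℝ) / p) :=
      Finset.prod_nonneg fun p hp => (fac2 k l (hP0p p hp)).1
    calc (∏ p ∈ P0, (1 - (nu {b k, b l} p : ℝ) / p)) * ∏ p ∈ P1, (1 - (nu {b k, b l} p : ℝ) / p)
        ≤ (∏ p ∈ P0, (1 - (nu {b k, b l} p : ℝ) / p)) * (V1 ^ 2 * ∏ p ∈ dv P1 k l, (1 + 2 / (p : ℝ))) :=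
          mul_le_mul_of_nonneg_left e2 e4
      _ = _ := by ring
  have hpt2 : ∀ k l, ∏ p ∈ pm y, (1 - (nu {b k, b l} p : ℝ) / p) ≤
      V1 ^ 2 * (∏ p ∈ P0, (1 - (nu {b k, b l} p : ℝ) / p) + (∏ p ∈ dv P1 k l, (1 + 2 / (p : ℝ)) - 1)) := by
    intro k l
    refine (hpt k l).trans (mul_le_mul_of_nonneg_left ?_ (by positivity))
    have e4 : 0 ≤ ∏ p ∈ P0, (1 - (nu {b k, b l} p : ℝ) / p) :=
      Finset.prod_nonneg fun p hp => (fac2 k l (hP0p p hp)).1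
    have e5 : ∏ p ∈ P0, (1 - (nu {b k, b l} p : ℝ) / p) ≤ 1 :=
      Finset.prod_le_one (fun p hp => (fac2 k l (hP0p p hp)).1) fun p hp => (fac2 k l (hP0p p hp)).2
    have e6 := one_le_prod (dv P1 k l)
    nlinarith
  have hs1 : ∑ k ∈ Icc 1 K, ∑ l ∈ (Icc 1 K).erase k, ∏ p ∈ pm y, (1 - (nu {b k, b l} p : ℝ) / p) ≤
      V1 ^ 2 * (∑ k ∈ Icc 1 K, ∑ l ∈ Icc 1 K, ∏ p ∈ P0, (1 - (nu {b k, b l} p : ℝ) / p) +
        ∑ k ∈ Icc 1 K, ∑ l ∈ (Icc 1 K).erase k, (∏ p ∈ dv P1 k l, (1 + 2 / (p : ℝ)) - 1)) := by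
    calc ∑ k ∈ Icc 1 K, ∑ l ∈ (Icc 1 K).erase k, ∏ p ∈ pm y, (1 - (nu {b k, b l} p : ℝ) / p)
        ≤ ∑ k ∈ Icc 1 K, ∑ l ∈ (Icc 1 K).erase k, V1 ^ 2 * (∏ p ∈ P0, (1 - (nu {b k, b l} p : ℝ) / p) +
            (∏ p ∈ dv P1 k l, (1 + 2 / (p : ℝ)) - 1)) :=
          Finset.sum_le_sum fun k _ => Finset.sum_le_sum fun l _ => hpt2 k l
      _ = V1 ^ 2 * (∑ k ∈ Icc 1 K, ∑ l ∈ (Icc 1 K).erase k, ∏ p ∈ P0, (1 - (nu {b k, b l} p : ℝ) / p) +
        ∑ k ∈ Icc 1 K, ∑ l ∈ (Icc 1 K).erase k, (∏ p ∈ dv P1 k l, (1 + 2 / (p : ℝ)) - 1)) := by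
          simp only [← Finset.mul_sum]
          rw [← Finset.sum_add_distrib]
          simp only [← Finset.sum_add_distrib]
      _ ≤ _ := by
          refine mul_le_mul_of_nonneg_left (add_le_add ?_ le_rfl) (by positivity)
          refine Finset.sum_le_sum fun k _ => ?_
          exact Finset.sum_le_sum_of_subset_of_nonneg (Finset.erase_subset _ _)
            fun l _ _ => Finset.prod_nonneg fun p hp => (fac2 k l (hP0p p hp)).1
  have hs2 := avg_small P0 hP0p K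
  rw [← hV0, ← hQ0] at hs2
  have hs3 := hK1 K hK1' P1 hP1p
  have hbig : (K * V0 + 2 * (Q0 : ℝ)) ^ 2 ≤ (1 + ε / 3) * (K * V0) ^ 2 := by
    have h1 : 2 * (Q0 : ℝ) ≤ ε / 9 * (K * V0) := by
      have h2 : (Q0 : ℝ) ≤ Qw := by exact_mod_cast hQ0w
      rw [div_le_iff₀ (by positivity)] at hKq
      have h3 : (K : ℝ) * (ε * V w) ≤ K * (ε * V0) := by gcongr
      linarith
    have hKV : 0 < K * V0 := by positivity
    have h4 : K * V0 + 2 * (Q0 : ℝ) ≤ (1 + ε / 9) * (K * V0) := by linarith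
    calc (K * V0 + 2 * (Q0 : ℝ)) ^ 2 ≤ ((1 + ε / 9) * (K * V0)) ^ 2 := by gcongr
      _ = (1 + ε / 9) ^ 2 * (K * V0) ^ 2 := by ring
      _ ≤ (1 + ε / 3) * (K * V0) ^ 2 := by
          gcongr
          nlinarith
  have hlast : C / √(w : ℝ) * (K : ℝ) ^ 2 ≤ ε / 3 * (K * V0) ^ 2 := by
    calc C / √(w : ℝ) * (K : ℝ) ^ 2 ≤ ε / 3 * (V w) ^ 2 * (K : ℝ) ^ 2 := by gcongr
      _ ≤ ε / 3 * V0 ^ 2 * (K : ℝ) ^ 2 := by gcongr
      _ = ε / 3 * (K * V0) ^ 2 := by ring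
  have hfin : ∑ k ∈ Icc 1 K, ∑ l ∈ (Icc 1 K).erase k, ∏ p ∈ pm y, (1 - (nu {b k, b l} p : ℝ) / p) ≤
      V1 ^ 2 * ((1 + ε / 3) * (K * V0) ^ 2 + ε / 3 * (K * V0) ^ 2) := by
    refine hs1.trans (mul_le_mul_of_nonneg_left ?_ (by positivity))
    linarith
  refine hfin.trans ?_
  rw [hVV]
  have h0 : 0 ≤ V1 ^ 2 * (K * V0) ^ 2 := by positivity
  calc V1 ^ 2 * ((1 + ε / 3) * (K * V0) ^ 2 + ε / 3 * (K * V0) ^ 2)
      = (1 + 2 * ε / 3) * (V1 ^ 2 * (K * V0) ^ 2) := by ring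
    _ ≤ (1 + ε) * (V1 ^ 2 * (K * V0) ^ 2) := by
        gcongr
        linarith
    _ = (1 + ε) * (K * (V0 * V1)) ^ 2 := by ring

end Pool.Agent.H78.RS
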