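import Pool.Agent.H78.RS.Avg3

set_option autoImplicit false

/-!
# The average of products over primes dividing differences of shifts, general constants
-/

namespace Pool.Agent.H78.RS

open Finset Pool.Agent.H2.WO Pool.Agent.H75.AP

theorem log_pow_le (c : ℕ) (hc : 1 ≤ c) (x : ℝ) (hx : 1 ≤ x) : (Real.log x) ^ c ≤ (2 * c) ^ c * √x := by
  have hcr : (0 : ℝ) < c := by exact_mod_cast hc
  have h1 := Real.log_le_rpow_div (show (0 : ℝ) ≤ x by linarith) (show (0 : ℝ) < 1 / (2 * c) by positivity)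
  have h2 : x ^ (1 / (2 * c : ℝ)) / (1 / (2 * c)) = 2 * c * x ^ (1 / (2 * c : ℝ)) := by field_simp
  rw [h2] at h1
  have h0 : 0 ≤ Real.log x := Real.log_nonneg hx
  calc (Real.log x) ^ c ≤ (2 * c * x ^ (1 / (2 * c : ℝ))) ^ c := by gcongr
    _ = (2 * c) ^ c * (x ^ (1 / (2 * c : ℝ))) ^ c := mul_pow _ _ _
    _ = (2 * c) ^ c * √x := by
        congr 1
        rw [← Real.rpow_natCast, ← Real.rpow_mul (by linarith), Real.sqrt_eq_rpow]
        congr 1
        field_simp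

theorem L1g (c : ℕ) (hc : 1 ≤ c) : ∃ C : ℝ, 0 < C ∧ ∀ S : Finset ℕ, (∀ p ∈ S, p.Prime ∧ 3 ≤ p) →
    ∏ p ∈ S, (1 + c / (p : ℝ)) - 1 ≤ C * ∑ q ∈ S, 1 / √(q : ℝ) := by
  obtain ⟨C, hC, hM⟩ := mertens_upper
  have hcr : (1 : ℝ) ≤ c := by exact_mod_cast hc
  refine ⟨c * Real.exp (c * C) * (2 * c) ^ c, by positivity, fun S hS => ?_⟩
  rw [Finset.prod_one_add_ordered, add_sub_cancel_left, Finset.mul_sum]
  refine Finset.sum_le_sum fun q hq => ?_
  have hq3 : (3 : ℝ) ≤ q := by exact_mod_cast (hS q hq).2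
  have hq0 : (0 : ℝ) < q := by linarith
  have hlog : 0 < Real.log q := Real.log_pos (by linarith)
  have h1 : ∏ j ∈ S with j < q, (1 + c / (j : ℝ)) ≤ Real.exp (c * C) * (Real.log q) ^ c := by
    calc ∏ j ∈ S with j < q, (1 + c / (j : ℝ)) ≤ ∏ j ∈ S with j < q, Real.exp (c / (j : ℝ)) := by
          refine Finset.prod_le_prod (fun j _ => by positivity) fun j _ => ?_
          have := Real.add_one_le_exp (c / (j : ℝ))
          linarith
      _ = Real.exp (∑ j ∈ S with j < q, c / (j : ℝ)) := by rw [Real.exp_sum]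
      _ ≤ Real.exp (c * (Real.log (Real.log q) + C)) := by
          refine Real.exp_le_exp.2 ?_
          have h2 : ∑ j ∈ S with j < q, 1 / (j : ℝ) ≤ ∑ p ∈ PI 0 (q : ℝ), 1 / (p : ℝ) := by
            refine Finset.sum_le_sum_of_subset_of_nonneg (fun j hj => ?_) fun _ _ _ => by positivity
            rw [mem_filter] at hj
            rw [mem_PI0]
            exact ⟨(hS j hj.1).1, hj.2.le⟩
          have h3 := hM q hq3
          have h4 : ∑ j ∈ S with j < q, c / (j : ℝ) = c * ∑ j ∈ S with j < q, 1 / (j : ℝ) := by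
            rw [Finset.mul_sum]
            exact Finset.sum_congr rfl fun j _ => by ring
          rw [h4]
          exact mul_le_mul_of_nonneg_left (h2.trans h3) (by linarith)
      _ = Real.exp (c * C) * (Real.log q) ^ c := by
          rw [mul_add, Real.exp_add, mul_comm]
          congr 1
          rw [Real.exp_nat_mul, Real.exp_log hlog]
  have h2 := log_pow_le c hc q (by linarith)
  have hs : 0 < √(q : ℝ) := Real.sqrt_pos.2 hq0
  have hss : √(q : ℝ) * √(q : ℝ) = q := Real.mul_self_sqrt hq0.le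
  calc c / (q : ℝ) * ∏ j ∈ S with j < q, (1 + c / (j : ℝ))
      ≤ c / (q : ℝ) * (Real.exp (c * C) * ((2 * c) ^ c * √(q : ℝ))) := by
        refine mul_le_mul_of_nonneg_left (h1.trans ?_) (by positivity)
        exact mul_le_mul_of_nonneg_left h2 (Real.exp_pos _).le
    _ = c * Real.exp (c * C) * (2 * c) ^ c * (√(q : ℝ) / q) := by ring
    _ = c * Real.exp (c * C) * (2 * c) ^ c * (1 / √(q : ℝ)) := by
        congr 1
        rw [div_eq_div_iff hq0.ne' hs.ne', hss, one_mul]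

theorem L2g (c : ℕ) (hc : 1 ≤ c) : ∃ C : ℝ, 1 ≤ C ∧ ∀ K : ℕ, 9 ≤ K → ∀ d : ℤ, d ≠ 0 → |(d : ℝ)| ≤ 2 ^ K → ∀ S : Finset ℕ,
    (∀ p ∈ S, p.Prime ∧ (p : ℤ) ∣ d ∧ K < p * p) →
    ∏ p ∈ S, (1 + c / (p : ℝ)) ≤ C ∧
    ∏ p ∈ S, (1 + c / (p : ℝ)) - 1 ≤ C * (∑ p ∈ S with p ≤ K, 1 / (p : ℝ) + 1 / Real.log K) := by
  obtain ⟨Cu, hCu, hU⟩ := mertens_upper
  obtain ⟨Cl, hCl, hL⟩ := mertens_low
  have hcr : (1 : ℝ) ≤ c := by exact_mod_cast hc
  set T0 : ℝ := c * (Real.log 2 + Cu + Cl + 1) with hT0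
  have hlog2 : 0 < Real.log 2 := Real.log_pos (by norm_num)
  have hlog21 : Real.log 2 ≤ 1 := by linarith [Real.log_two_lt_d9]
  have hT00 : 0 ≤ T0 := by rw [hT0]; positivity
  have hexp1 : 1 ≤ Real.exp T0 := Real.one_le_exp hT00
  refine ⟨c * Real.exp T0, by nlinarith, fun K hK d hd hdK S hS => ?_⟩
  have hKr : (9 : ℝ) ≤ K := by exact_mod_cast hK
  have hlogK : 1 ≤ Real.log K := by
    rw [Real.le_log_iff_exp_le (by linarith)]
    linarith [Real.exp_one_lt_d9]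
  set A := ∑ p ∈ S with p ≤ K, 1 / (p : ℝ) with hA
  set S' := S.filter (fun p => ¬ p ≤ K) with hS'
  set Bb := ∑ p ∈ S', 1 / (p : ℝ) with hBb
  have hA0 : 0 ≤ A := Finset.sum_nonneg fun _ _ => by positivity
  have hB0 : 0 ≤ Bb := Finset.sum_nonneg fun _ _ => by positivity
  -- large primes
  have hcard : (S'.card : ℝ) * Real.log K ≤ K * Real.log 2 := by
    have h1 : (∏ p ∈ S', p) ∣ d.natAbs := by
      refine Finset.prod_primes_dvd d.natAbs (fun p hp => ?_) fun p hp => ?_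
      · exact (hS p (mem_filter.1 hp).1).1.prime
      · exact Int.natCast_dvd.1 (hS p (mem_filter.1 hp).1).2.1
    have h2 : ((∏ p ∈ S', p : ℕ) : ℝ) ≤ |(d : ℝ)| := by
      have h3 := Nat.le_of_dvd (Int.natAbs_pos.2 hd) h1
      have h4 : |(d : ℝ)| = (d.natAbs : ℝ) := by
        rw [← Int.cast_abs, Int.abs_eq_natAbs, Int.cast_natCast]
      rw [h4]
      exact_mod_cast h3
    have h3 : (K : ℝ) ^ S'.card ≤ ((∏ p ∈ S', p : ℕ) : ℝ) := by
      rw [← Finset.prod_const]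
      push_cast
      refine Finset.prod_le_prod (fun _ _ => by linarith) fun p hp => ?_
      exact_mod_cast (not_le.1 (mem_filter.1 hp).2).le
    have h4 := Real.log_le_log (by positivity) (h3.trans (h2.trans hdK))
    rw [Real.log_pow, Real.log_pow] at h4
    exact h4
  have hB1 : Bb ≤ 1 / Real.log K := by
    have h1 : Bb ≤ S'.card * (1 / (K : ℝ)) := by
      rw [← nsmul_eq_mul, ← Finset.sum_const]
      refine Finset.sum_le_sum fun p hp => ?_
      refine one_div_le_one_div_of_le (by linarith) ?_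
      exact_mod_cast (not_le.1 (mem_filter.1 hp).2).le
    refine h1.trans ?_
    rw [mul_one_div, div_le_div_iff₀ (by linarith) (by linarith)]
    nlinarith
  have hB2 : Bb ≤ 1 := hB1.trans (by rw [div_le_one (by linarith)]; exact hlogK)
  -- middle primes
  have hA1 : A ≤ Real.log 2 + Cu + Cl := by
    have hsq : √(K : ℝ) * √(K : ℝ) = K := Real.mul_self_sqrt (by linarith)
    have hs3 : (3 : ℝ) ≤ √(K : ℝ) := by
      rw [Real.le_sqrt (by norm_num) (by linarith)]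
      linarith
    have h1 := hU K (by linarith)
    have h2 := hL (√(K : ℝ)) hs3
    have h3 : A + ∑ p ∈ PI 0 (√(K : ℝ)), 1 / (p : ℝ) ≤ ∑ p ∈ PI 0 (K : ℝ), 1 / (p : ℝ) := by
      rw [hA, ← Finset.sum_union]
      · refine Finset.sum_le_sum_of_subset_of_nonneg (fun p hp => ?_) fun _ _ _ => by positivity
        rw [mem_union, mem_filter, MertB.mem_PI (le_refl 0)] at hp
        rw [mem_PI0]
        rcases hp with hp | hp
        · exact ⟨(hS p hp.1).1, hp.2⟩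
        · refine ⟨hp.1, ?_⟩
          have : (p : ℝ) ≤ K := hp.2.2.trans (by nlinarith)
          exact_mod_cast this
      · rw [Finset.disjoint_left]
        intro p hp hp2
        rw [mem_filter] at hp
        rw [MertB.mem_PI (le_refl 0)] at hp2
        have h4 : (K : ℝ) < p * p := by exact_mod_cast (hS p hp.1).2.2
        have h5 := hp2.2.2
        nlinarith
    have h4 : Real.log (√(K : ℝ)) = Real.log K / 2 := Real.log_sqrt (by linarith)
    rw [h4, Real.log_div (by linarith) (by norm_num)] at h2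
    linarith
  have hsum : ∑ p ∈ S, 1 / (p : ℝ) = A + Bb := (Finset.sum_filter_add_sum_filter_not _ _ _).symm
  have hprod : ∏ p ∈ S, (1 + c / (p : ℝ)) ≤ Real.exp (c * (A + Bb)) := by
    calc ∏ p ∈ S, (1 + c / (p : ℝ)) ≤ ∏ p ∈ S, Real.exp (c / (p : ℝ)) := by
          refine Finset.prod_le_prod (fun j _ => by positivity) fun j _ => ?_
          have := Real.add_one_le_exp (c / (j : ℝ))
          linarith
      _ = Real.exp (c * (A + Bb)) := by
          rw [← Real.exp_sum, ← hsum, Finset.mul_sum]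
          congr 1
          exact Finset.sum_congr rfl fun j _ => by ring
  have hT : c * (A + Bb) ≤ T0 := by
    rw [hT0]
    exact mul_le_mul_of_nonneg_left (by linarith) (by linarith)
  have hE : Real.exp (c * (A + Bb)) ≤ Real.exp T0 := Real.exp_le_exp.2 hT
  constructor
  · have : Real.exp T0 ≤ c * Real.exp T0 := le_mul_of_one_le_left (Real.exp_pos _).le hcr
    linarith
  · have h1 := exp_sub_one_le (t := c * (A + Bb))
    have h2 : c * (A + Bb) * Real.exp (c * (A + Bb)) ≤ c * (A + 1 / Real.log K) * Real.exp T0 := by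
      gcongr
    linarith

theorem one_le_prodg (c : ℕ) (S : Finset ℕ) : 1 ≤ ∏ p ∈ S, (1 + c / (p : ℝ)) := by
  refine Finset.prod_induction _ (fun x : ℝ => 1 ≤ x) (fun a b ha hb => by nlinarith) le_rfl fun p _ => ?_
  have : (0 : ℝ) ≤ c / p := by positivity
  linarith

theorem avg_largeg (c : ℕ) (hc : 1 ≤ c) : ∃ C : ℝ, 0 < C ∧ ∀ w : ℕ, 3 ≤ w → ∃ K₀ : ℕ, ∀ K : ℕ, K₀ ≤ K → ∀ P : Finset ℕ,
    (∀ p ∈ P, p.Prime ∧ w < p) →
      ∑ k ∈ Icc 1 K, ∑ l ∈ (Icc 1 K).erase k, (∏ p ∈ dv P k l, (1 + c / (p : ℝ)) - 1) ≤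
        C / √(w : ℝ) * (K : ℝ) ^ 2 := by
  obtain ⟨C1, hC1, h1⟩ := L1g c hc
  obtain ⟨C2, hC2, h2⟩ := L2g c hc
  obtain ⟨C3, hC3, h3⟩ := Pool.Agent.H5.Short.pi_le
  refine ⟨4 * C1 * C2 + 4 * C2, by positivity, fun w hw => ?_⟩
  have hw0 : (0 : ℝ) < √(w : ℝ) := Real.sqrt_pos.2 (by exact_mod_cast (by omega : 0 < w))
  refine ⟨max 9 ⌈Real.exp ((C3 + 1) * √(w : ℝ))⌉₊, fun K hK P hP => ?_⟩
  have hK9 : 9 ≤ K := (le_max_left _ _).trans hK
  have hK9r : (9 : ℝ) ≤ K := by exact_mod_cast hK9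
  have hKe : Real.exp ((C3 + 1) * √(w : ℝ)) ≤ K :=
    (Nat.le_ceil _).trans (by exact_mod_cast (le_max_right _ _).trans hK)
  have hlog : (C3 + 1) * √(w : ℝ) ≤ Real.log K := (Real.le_log_iff_exp_le (by linarith)).2 hKe
  have hlog0 : 0 < Real.log K := lt_of_lt_of_le (by positivity) hlog
  have hlog1 : 1 / Real.log K ≤ 1 / √(w : ℝ) := by
    refine one_div_le_one_div_of_le hw0 ?_
    nlinarith
  have hlog3 : C3 / Real.log K ≤ 1 / √(w : ℝ) := by
    rw [div_le_div_iff₀ hlog0 hw0]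
    nlinarith
  set PA := P.filter (fun p => p * p ≤ K) with hPA
  set PB := (P.filter (fun p => ¬ p * p ≤ K)).filter (fun p => p ≤ K) with hPB
  -- pointwise bound
  have hpt : ∀ k ∈ Icc 1 K, ∀ l ∈ (Icc 1 K).erase k,
      (∏ p ∈ dv P k l, (1 + c / (p : ℝ)) - 1) ≤
        C1 * C2 * ∑ q ∈ dv PA k l, 1 / √(q : ℝ) + C2 * (∑ p ∈ dv PB k l, 1 / (p : ℝ)) + C2 / Real.log K := by
    intro k hk l hl
    rw [mem_erase, mem_Icc] at hl
    rw [mem_Icc] at hk
    obtain ⟨hd, hdK⟩ := b_sub hk.1 hk.2 hl.2.1 hl.2.2 hl.1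
    set S1 := (dv P k l).filter (fun p => p * p ≤ K) with hS1
    set S2 := (dv P k l).filter (fun p => ¬ p * p ≤ K) with hS2
    have e1 : S1 = dv PA k l := by
      rw [hS1, hPA]
      unfold dv
      rw [Finset.filter_comm]
    have e2 : S2.filter (fun p => p ≤ K) = dv PB k l := by
      rw [hS2, hPB]
      unfold dv
      ext p
      simp only [mem_filter]
      tauto
    have hsplit : ∏ p ∈ dv P k l, (1 + c / (p : ℝ)) =
        (∏ p ∈ S1, (1 + c / (p : ℝ))) * ∏ p ∈ S2, (1 + c / (p : ℝ)) :=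
      (Finset.prod_filter_mul_prod_filter_not _ _ _).symm
    have hmem : ∀ p ∈ dv P k l, p.Prime ∧ w < p ∧ (p : ℤ) ∣ b k - b l := fun p hp => by
      unfold dv at hp
      rw [mem_filter] at hp
      exact ⟨(hP p hp.1).1, (hP p hp.1).2, hp.2⟩
    have hb1 := h1 S1 fun p hp => by
      have := hmem p (mem_filter.1 hp).1
      exact ⟨this.1, by omega⟩
    obtain ⟨hb2, hb3⟩ := h2 K hK9 _ hd hdK S2 fun p hp => by
      have := hmem p (mem_filter.1 hp).1
      exact ⟨this.1, this.2.2, not_le.1 (mem_filter.1 hp).2⟩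
    rw [e2] at hb3
    rw [← e1, hsplit]
    have hF1 := one_le_prodg c S1
    set F1 := ∏ p ∈ S1, (1 + c / (p : ℝ))
    set F2 := ∏ p ∈ S2, (1 + c / (p : ℝ))
    set A1 := ∑ q ∈ S1, 1 / √(q : ℝ)
    set A2 := ∑ p ∈ dv PB k l, 1 / (p : ℝ)
    have h5 : (F1 - 1) * F2 ≤ (F1 - 1) * C2 := mul_le_mul_of_nonneg_left hb2 (by linarith)
    have h6 : (F1 - 1) * C2 ≤ C1 * A1 * C2 := mul_le_mul_of_nonneg_right hb1 (by linarith)
    have h7 : C2 * (A2 + 1 / Real.log K) = C2 * A2 + C2 / Real.log K := by ring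
    rw [h7] at hb3
    nlinarith
  have hnn : ∀ k l, 0 ≤ C1 * C2 * ∑ q ∈ dv PA k l, 1 / √(q : ℝ) + C2 * (∑ p ∈ dv PB k l, 1 / (p : ℝ)) +
      C2 / Real.log K := by
    intro k l
    have e1 : 0 ≤ ∑ q ∈ dv PA k l, 1 / √(q : ℝ) := Finset.sum_nonneg fun _ _ => by positivity
    have e2 : 0 ≤ ∑ p ∈ dv PB k l, 1 / (p : ℝ) := Finset.sum_nonneg fun _ _ => by positivity
    positivity
  have hsum : ∑ k ∈ Icc 1 K, ∑ l ∈ (Icc 1 K).erase k, (∏ p ∈ dv P k l, (1 + c / (p : ℝ)) - 1) ≤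
      ∑ k ∈ Icc 1 K, ∑ l ∈ Icc 1 K, (C1 * C2 * ∑ q ∈ dv PA k l, 1 / √(q : ℝ) +
        C2 * (∑ p ∈ dv PB k l, 1 / (p : ℝ)) + C2 / Real.log K) := by
    refine Finset.sum_le_sum fun k hk => (Finset.sum_le_sum (hpt k hk)).trans ?_
    exact Finset.sum_le_sum_of_subset_of_nonneg (Finset.erase_subset _ _) fun l _ _ => hnn k l
  refine hsum.trans ?_
  simp only [Finset.sum_add_distrib, ← Finset.mul_sum]
  have hPAp : ∀ p ∈ PA, p.Prime := fun p hp => (hP p (mem_filter.1 hp).1).1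
  have hPBp : ∀ p ∈ PB, p.Prime := fun p hp => (hP p (mem_filter.1 (mem_filter.1 hp).1).1).1
  have hKr : (0 : ℝ) < K := by linarith
  -- term 1
  have t1 : ∑ k ∈ Icc 1 K, ∑ l ∈ Icc 1 K, ∑ q ∈ dv PA k l, 1 / √(q : ℝ) ≤ 2 * (K : ℝ) ^ 2 * (2 / √(w : ℝ)) := by
    refine (pair_sum PA hPAp _ (fun _ _ => by positivity) K).trans ?_
    have h5 := L4 w (by omega) PA fun q hq => (hP q (mem_filter.1 hq).1).2
    refine le_trans ?_ (mul_le_mul_of_nonneg_left h5 (by positivity))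
    rw [Finset.mul_sum]
    refine Finset.sum_le_sum fun q hq => ?_
    have hq0 : (0 : ℝ) < q := by exact_mod_cast (hPAp q hq).pos
    have hqs : 0 < √(q : ℝ) := Real.sqrt_pos.2 hq0
    have h6 : (q : ℝ) * q ≤ K := by exact_mod_cast (mem_filter.1 hq).2
    have h7 : (q : ℝ) ≤ K / q := by rw [le_div_iff₀ hq0]; exact h6
    calc 1 / √(q : ℝ) * (K * (K / q + q)) ≤ 1 / √(q : ℝ) * (K * (K / q + K / q)) := by gcongr
      _ = 2 * (K : ℝ) ^ 2 * (1 / (q * √(q : ℝ))) := by field_simp; ring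
  -- term 2
  have t2 : ∑ k ∈ Icc 1 K, ∑ l ∈ Icc 1 K, ∑ p ∈ dv PB k l, 1 / (p : ℝ) ≤
      (K : ℝ) ^ 2 * (2 / √(w : ℝ)) + K * (K * (1 / √(w : ℝ))) := by
    refine (pair_sum PB hPBp _ (fun _ _ => by positivity) K).trans ?_
    have h5 := L4 w (by omega) PB fun q hq => (hP q (mem_filter.1 (mem_filter.1 hq).1).1).2
    have h6 : ∀ p ∈ PB, 1 / (p : ℝ) * (K * (K / p + p)) ≤ (K : ℝ) ^ 2 * (1 / (p * √(p : ℝ))) + K := by
      intro p hp
      have hp1 : (1 : ℝ) ≤ p := by exact_mod_cast (hPBp p hp).pos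
      have hp0 : (0 : ℝ) < p := by linarith
      have hps : 0 < √(p : ℝ) := Real.sqrt_pos.2 hp0
      have h7 : √(p : ℝ) ≤ p := by
        rw [Real.sqrt_le_left hp0.le]
        nlinarith
      have h8 : 1 / ((p : ℝ) * p) ≤ 1 / (p * √(p : ℝ)) := by
        refine one_div_le_one_div_of_le (by positivity) ?_
        gcongr
      calc 1 / (p : ℝ) * (K * (K / p + p)) = (K : ℝ) ^ 2 * (1 / (p * p)) + K := by field_simp
        _ ≤ _ := by gcongr
    refine (Finset.sum_le_sum h6).trans ?_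
    rw [Finset.sum_add_distrib, ← Finset.mul_sum, Finset.sum_const, nsmul_eq_mul]
    have h9 : (PB.card : ℝ) ≤ C3 * K / Real.log K := by
      refine le_trans ?_ (h3 K (by omega))
      norm_cast
      refine card_le_card fun p hp => ?_
      rw [mem_filter, mem_Icc]
      exact ⟨⟨(hPBp p hp).pos, (mem_filter.1 hp).2⟩, hPBp p hp⟩
    have h10 : (PB.card : ℝ) ≤ K * (1 / √(w : ℝ)) := by
      refine h9.trans ?_
      calc C3 * K / Real.log K = K * (C3 / Real.log K) := by ring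
        _ ≤ _ := by gcongr
    have h11 : (PB.card : ℝ) * K ≤ K * (K * (1 / √(w : ℝ))) := by
      rw [mul_comm]
      gcongr
    have h12 := mul_le_mul_of_nonneg_left h5 (by positivity : (0 : ℝ) ≤ (K : ℝ) ^ 2)
    linarith
  have t3 : ∑ _k ∈ Icc 1 K, ∑ _l ∈ Icc 1 K, C2 / Real.log K ≤ (K : ℝ) ^ 2 * (C2 * (1 / √(w : ℝ))) := by
    rw [Finset.sum_const, Finset.sum_const, Nat.card_Icc, nsmul_eq_mul, nsmul_eq_mul]
    have e1 : ((K + 1 - 1 : ℕ) : ℝ) = K := by simp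
    rw [e1]
    have e2 : C2 / Real.log K ≤ C2 * (1 / √(w : ℝ)) := by
      calc C2 / Real.log K = C2 * (1 / Real.log K) := by ring
        _ ≤ _ := by gcongr
    calc (K : ℝ) * (K * (C2 / Real.log K)) = (K : ℝ) ^ 2 * (C2 / Real.log K) := by ring
      _ ≤ _ := by gcongr
  have e1 := mul_le_mul_of_nonneg_left t1 (by positivity : (0 : ℝ) ≤ C1 * C2)
  have e2 := mul_le_mul_of_nonneg_left t2 (by positivity : (0 : ℝ) ≤ C2)
  have e3 : C1 * C2 * (2 * (K : ℝ) ^ 2 * (2 / √(w : ℝ))) +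
      C2 * ((K : ℝ) ^ 2 * (2 / √(w : ℝ)) + K * (K * (1 / √(w : ℝ)))) + (K : ℝ) ^ 2 * (C2 * (1 / √(w : ℝ))) =
      (4 * C1 * C2 + 4 * C2) / √(w : ℝ) * (K : ℝ) ^ 2 := by ring
  linarith


end Pool.Agent.H78.RS
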