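import Pool.Agent.H78.RS.Seq

set_option autoImplicit false

/-!
# Counting pairs of exponents
-/

namespace Pool.Agent.H78.RS

open Finset Pool.Agent.H2.WO

/-- the shift -/
def b (k : ℕ) : ℤ := 2 ^ k - k

theorem num_tk_le (x : ℤ) {p : ℕ} (hp : p.Prime) (X : ℕ) : (num (Tk x p) X : ℝ) ≤ X / p + (p - 1) := by
  have h1 := hp.one_lt
  have hc := (sys_tk x).cond p hp
  have hQ : 0 < p * (p - 1) := Nat.mul_pos hp.pos (by omega)
  have h := countN (fun p k => Tk x p k) (fun _ => 1) (R := fun _ => True) (Q := 1) one_pos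
    (fun _ => Iff.rfl) {p} (fun q hq => by
      rw [mem_singleton] at hq
      subst hq
      exact ⟨hp, fun h => hp.one_lt.ne' (Nat.dvd_one.1 h), hc⟩)
  have h3 : num (fun _ => True) 1 = 1 := by
    classical
    rw [← num_eq]
    simp
  rw [one_mul, h3, one_mul, prod_singleton, prod_singleton, mul_one] at h
  simp only [true_and, mem_singleton, forall_eq] at h
  have h5 := intervalN (R := Tk x p) hQ hc.per X
  rw [h] at h5
  have h6 := (abs_le.1 h5).2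
  have hp0 : (p : ℝ) ≠ 0 := by exact_mod_cast hp.pos.ne'
  have h7 : ((p - 1 : ℕ) : ℝ) ≠ 0 := by exact_mod_cast (by omega : p - 1 ≠ 0)
  have h8 : (X : ℝ) * (((p - 1 : ℕ) : ℝ) / ((p * (p - 1) : ℕ) : ℝ)) = X / p := by
    push_cast
    field_simp
  rw [h8] at h6
  rw [Nat.cast_sub h1.le, Nat.cast_one] at h6
  linarith

theorem pair_count (x : ℤ) {p : ℕ} (hp : p.Prime) (K : ℕ) :
    (((Icc 1 K).filter (fun k : ℕ => (p : ℤ) ∣ x + 2 ^ k - k)).card : ℝ) ≤ K / p + p := by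
  classical
  have h1 : ((Icc 1 K).filter (fun k : ℕ => (p : ℤ) ∣ x + 2 ^ k - k)).card ≤ num (Tk x p) (K + 1) := by
    rw [← num_eq]
    refine card_le_card fun k hk => ?_
    rw [mem_filter, mem_Icc] at hk
    rw [mem_filter, mem_range]
    exact ⟨by omega, (tk_iff x hk.1.1).2 hk.2⟩
  have h2 := num_tk_le x hp (K + 1)
  have h3 : (((Icc 1 K).filter (fun k : ℕ => (p : ℤ) ∣ x + 2 ^ k - k)).card : ℝ) ≤ num (Tk x p) (K + 1) := by
    exact_mod_cast h1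
  have hp0 : (1 : ℝ) ≤ p := by exact_mod_cast hp.pos
  have h4 : (((K + 1 : ℕ) : ℝ)) / p = K / p + 1 / p := by push_cast; ring
  have h5 : (1 : ℝ) / p ≤ 1 := by rw [div_le_one (by linarith)]; exact hp0
  linarith

/-- indicator: `x + b k` is prime to the primes of `P0` -/
noncomputable def ind (P0 : Finset ℕ) (x : ℤ) (k : ℕ) : ℝ :=
  by classical exact if ∀ p ∈ P0, ¬ (p : ℤ) ∣ x + b k then 1 else 0

theorem ind_sum (P0 : Finset ℕ) (hP0 : ∀ p ∈ P0, p.Prime) (K : ℕ) (x : ℤ) :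
    ∑ k ∈ Icc 1 K, ind P0 x k ≤ K * ∏ p ∈ P0, (1 - 1 / (p : ℝ)) + 2 * (∏ p ∈ P0, p * (p - 1) : ℕ) := by
  classical
  set Q := ∏ p ∈ P0, p * (p - 1) with hQ
  have hQ0 : 0 < Q := Finset.prod_pos fun p hp => by
    have := (hP0 p hp).one_lt
    exact Nat.mul_pos (by omega) (by omega)
  set V0 := ∏ p ∈ P0, (1 - 1 / (p : ℝ)) with hV0
  have hf : ∀ p ∈ P0, 0 ≤ 1 - 1 / (p : ℝ) ∧ 1 - 1 / (p : ℝ) ≤ 1 := fun p hp => by
    have hp0 : (1 : ℝ) ≤ p := by exact_mod_cast (hP0 p hp).pos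
    constructor
    · rw [sub_nonneg, div_le_one (by linarith)]
      exact hp0
    · have : (0 : ℝ) ≤ 1 / p := by positivity
      linarith
  have hV1 : V0 ≤ 1 := Finset.prod_le_one (fun p hp => (hf p hp).1) fun p hp => (hf p hp).2
  have hV00 : 0 ≤ V0 := Finset.prod_nonneg fun p hp => (hf p hp).1
  have hper : ∀ k, (∀ p ∈ P0, ¬ Tk x p (k + Q)) ↔ (∀ p ∈ P0, ¬ Tk x p k) := by
    intro k
    refine forall₂_congr fun p hp => ?_
    have h1 : Q = p * (p - 1) * ∏ x ∈ P0.erase p, x * (x - 1) := by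
      rw [hQ, ← Finset.mul_prod_erase P0 _ hp]
    rw [h1]
    exact per_mul (R := fun k => ¬ Tk x p k) (cond_not ((sys_tk x).cond p (hP0 p hp))).per k _
  have hint := intervalN (R := fun k => ∀ p ∈ P0, ¬ Tk x p k) hQ0 hper (K + 1)
  have hsm := small (sys_tk x) P0 hP0
  rw [← hQ] at hsm
  simp only [Nat.cast_one] at hsm
  rw [← hV0] at hsm
  rw [hsm] at hint
  have hQr : (1 : ℝ) ≤ Q := by exact_mod_cast hQ0
  have e1 : (((K + 1 : ℕ) : ℝ)) * ((Q : ℝ) * V0 / Q) = (K + 1) * V0 := by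
    push_cast
    field_simp
  rw [e1] at hint
  have h2 := (abs_le.1 hint).2
  have h3 : ∑ k ∈ Icc 1 K, ind P0 x k ≤ (num (fun k => ∀ p ∈ P0, ¬ Tk x p k) (K + 1) : ℝ) := by
    have : ∑ k ∈ Icc 1 K, ind P0 x k =
        (((Icc 1 K).filter (fun k => ∀ p ∈ P0, ¬ (p : ℤ) ∣ x + b k)).card : ℝ) := by
      rw [Finset.card_filter]
      push_cast
      rfl
    rw [this, ← num_eq]
    norm_cast
    refine card_le_card fun k hk => ?_
    rw [mem_filter, mem_Icc] at hk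
    rw [mem_filter, mem_range]
    refine ⟨by omega, fun p hp h => hk.2 p hp ?_⟩
    have := (tk_iff x hk.1.1).1 h
    unfold b
    rwa [← add_sub_assoc]
  have h4 : (Q : ℝ) * V0 ≤ Q := by nlinarith
  nlinarith

theorem avg_small (P0 : Finset ℕ) (hP0 : ∀ p ∈ P0, p.Prime) (K : ℕ) :
    ∑ k ∈ Icc 1 K, ∑ l ∈ Icc 1 K, ∏ p ∈ P0, (1 - (nu {b k, b l} p : ℝ) / p) ≤
      (K * ∏ p ∈ P0, (1 - 1 / (p : ℝ)) + 2 * (∏ p ∈ P0, p * (p - 1) : ℕ)) ^ 2 := by
  classical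
  set Q := ∏ p ∈ P0, p * (p - 1) with hQ
  have hQ0 : 0 < Q := Finset.prod_pos fun p hp => by
    have := (hP0 p hp).one_lt
    exact Nat.mul_pos (by omega) (by omega)
  have hQr : (0 : ℝ) < Q := by exact_mod_cast hQ0
  have h1 : ∀ k l, (Q : ℝ) * ∏ p ∈ P0, (1 - (nu {b k, b l} p : ℝ) / p) =
      ∑ x ∈ range Q, ind P0 x k * ind P0 x l := by
    intro k l
    rw [← small (sys_lin {b k, b l}) P0 hP0, ← hQ, ← num_eq, Finset.card_filter]
    push_cast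
    refine Finset.sum_congr rfl fun x _ => ?_
    have h2 : (∀ p ∈ P0, ¬ Hit 1 {b k, b l} p x) ↔
        (∀ p ∈ P0, ¬ (p : ℤ) ∣ x + b k) ∧ (∀ p ∈ P0, ¬ (p : ℤ) ∣ x + b l) := by
      rw [← forall₂_and]
      refine forall₂_congr fun p _ => ?_
      rw [hit_one]
      simp only [mem_insert, mem_singleton, exists_eq_or_imp, exists_eq_left, not_or]
    unfold ind
    by_cases h3 : ∀ p ∈ P0, ¬ (p : ℤ) ∣ (x : ℤ) + b k <;> by_cases h4 : ∀ p ∈ P0, ¬ (p : ℤ) ∣ (x : ℤ) + b l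
    · rw [if_pos (h2.2 ⟨h3, h4⟩), if_pos h3, if_pos h4, one_mul]
    · rw [if_neg (fun h => h4 (h2.1 h).2), if_neg h4, mul_zero]
    · rw [if_neg (fun h => h3 (h2.1 h).1), if_neg h3, zero_mul]
    · rw [if_neg (fun h => h3 (h2.1 h).1), if_neg h3, zero_mul]
  have h5 : (Q : ℝ) * ∑ k ∈ Icc 1 K, ∑ l ∈ Icc 1 K, ∏ p ∈ P0, (1 - (nu {b k, b l} p : ℝ) / p) =
      ∑ x ∈ range Q, (∑ k ∈ Icc 1 K, ind P0 x k) ^ 2 := by
    rw [Finset.mul_sum]
    simp only [Finset.mul_sum, h1]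
    have : ∀ k ∈ Icc 1 K, ∑ l ∈ Icc 1 K, ∑ x ∈ range Q, ind P0 x k * ind P0 x l =
        ∑ x ∈ range Q, ∑ l ∈ Icc 1 K, ind P0 x k * ind P0 x l := fun k _ => Finset.sum_comm
    rw [Finset.sum_congr rfl this, Finset.sum_comm]
    refine Finset.sum_congr rfl fun x _ => ?_
    rw [sq, Finset.sum_mul_sum]
  have h6 : ∀ x ∈ range Q, (∑ k ∈ Icc 1 K, ind P0 x k) ^ 2 ≤
      (K * ∏ p ∈ P0, (1 - 1 / (p : ℝ)) + 2 * (Q : ℝ)) ^ 2 := by
    intro x _
    refine pow_le_pow_left₀ (Finset.sum_nonneg fun k _ => ?_) (ind_sum P0 hP0 K x) 2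
    unfold ind
    split_ifs <;> norm_num
  have h7 := Finset.sum_le_sum h6
  rw [Finset.sum_const, card_range, nsmul_eq_mul, ← h5] at h7
  exact le_of_mul_le_mul_left h7 hQr

end Pool.Agent.H78.RS
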