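import Pool.Agent.H78.RS.Poi

set_option autoImplicit false

/-!
# Almost primes `2 ^ k + m`, `k + m = n`: all but `C exp (- c r) N` of the `n ≤ N`
-/

namespace Pool.Agent.H78.RS

open Finset Pool.Agent.H2.WO

theorem partE : ∃ κ : ℝ, 0 < κ ∧ ∀ m : ℕ, 1 ≤ m → ∃ X₁ : ℕ, ∀ X : ℕ, X₁ ≤ X →
    (num (fun n => 1 < n ∧ ¬ AlmostGood (960 * m + 96) n) X : ℝ) ≤ 11 * Real.exp (-(κ * m)) * X := by
  classical
  obtain ⟨c, hc, hV⟩ := V_low
  obtain ⟨c', hc', hV'⟩ := V_upp
  set κ : ℝ := min (1 / 8) (100 * c) with hκ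
  have hκ0 : 0 < κ := lt_min (by norm_num) (by positivity)
  have hκ1 : κ ≤ 1 / 8 := min_le_left _ _
  have hκc : κ ≤ 100 * c := min_le_right _ _
  refine ⟨κ, hκ0, fun m hm => ?_⟩
  have hmr : (1 : ℝ) ≤ m := by exact_mod_cast hm
  have hm0 : (0 : ℝ) < m := by linarith
  obtain ⟨X₀, K₀, hX₀, hcount⟩ := none_count m hm
  have hδ := dlt_pos (20 * m)
  have hδe : dlt (20 * m) = 1 / (480 * m + 48) := by
    unfold dlt
    push_cast
    congr 1
    ring
  -- eventually
  have hev1 : ∀ᶠ X : ℕ in Filter.atTop, 4 + Real.exp ((K₀ + 1) * c' / (κ * m)) ≤ (X : ℝ) ^ dlt (20 * m) := by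
    have h2 : Filter.Tendsto (fun X : ℕ => (X : ℝ) ^ dlt (20 * m)) Filter.atTop Filter.atTop :=
      (tendsto_rpow_atTop hδ).comp tendsto_natCast_atTop_atTop
    exact h2.eventually_ge_atTop _
  have hev2 : ∀ᶠ X : ℕ in Filter.atTop, 3 * Real.exp (κ * m) ≤ √(X : ℝ) :=
    (Real.tendsto_sqrt_atTop.comp tendsto_natCast_atTop_atTop).eventually_ge_atTop _
  obtain ⟨X₂, hX₂⟩ := Filter.eventually_atTop.1 (hev1.and hev2)
  refine ⟨max (max X₀ X₂) 2, fun X hX => ?_⟩
  have hXX₀ : X₀ ≤ X := (le_max_left _ _).trans ((le_max_left _ _).trans hX)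
  have hXX₂ : X₂ ≤ X := (le_max_right _ _).trans ((le_max_left _ _).trans hX)
  have hX2 : 2 ≤ X := (le_max_right _ _).trans hX
  have hXr : (2 : ℝ) ≤ X := by exact_mod_cast hX2
  obtain ⟨hE1, hE2⟩ := hX₂ X hXX₂
  set y := ⌊(X : ℝ) ^ dlt (20 * m)⌋₊ with hy
  have hyle : (y : ℝ) ≤ (X : ℝ) ^ dlt (20 * m) := Nat.floor_le (by positivity)
  have hylt : (X : ℝ) ^ dlt (20 * m) < y + 1 := Nat.lt_floor_add_one _
  have hexp0 := Real.exp_pos ((K₀ + 1) * c' / (κ * m))
  have hy3 : 3 ≤ y := Nat.le_floor (by push_cast; linarith)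
  have hyr : (3 : ℝ) ≤ y := by exact_mod_cast hy3
  have hlogX : 0 < Real.log X := Real.log_pos (by linarith)
  have hlogy : 0 < Real.log y := Real.log_pos (by linarith)
  have hlogy2 : Real.log y ≤ dlt (20 * m) * Real.log X := by
    rw [← Real.log_rpow (by linarith)]
    exact Real.log_le_log (by linarith) hyle
  have hVy := hV y hy3
  have hVy' := hV' y hy3
  have hV0 : 0 < V y := lt_of_lt_of_le (by positivity) hVy
  have hV1 : V y ≤ 1 := Finset.prod_le_one (fun p hp => (fac_pos (mem_pm.1 hp).2).1.le)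
    fun p hp => (fac_pos (mem_pm.1 hp).2).2
  set K := ⌊κ * m / V y⌋₊ with hK
  have hKle : (K : ℝ) ≤ κ * m / V y := Nat.floor_le (by positivity)
  have hKlt : κ * m / V y < K + 1 := Nat.lt_floor_add_one _
  have hKK₀ : K₀ ≤ K := by
    have h1 : (K₀ + 1) * c' / (κ * m) ≤ Real.log y := by
      rw [Real.le_log_iff_exp_le (by linarith)]
      linarith
    rw [div_le_iff₀ (by positivity)] at h1
    have h2 : (K₀ : ℝ) + 1 ≤ κ * m / V y := by
      have h3 : κ * m * Real.log y / c' ≤ κ * m / V y := by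
        rw [div_le_div_iff₀ hc' hV0]
        have h4 : V y * Real.log y ≤ c' := by
          rwa [le_div_iff₀ hlogy] at hVy'
        calc κ * m * Real.log y * V y = κ * m * (V y * Real.log y) := by ring
          _ ≤ κ * m * c' := by gcongr
      refine le_trans ?_ h3
      rw [le_div_iff₀ hc']
      linarith
    have h3 : (K₀ : ℝ) < K := by linarith
    exact_mod_cast h3.le
  have hKlog : (K : ℝ) ≤ Real.log X := by
    refine hKle.trans ?_
    rw [div_le_iff₀ hV0]
    have h1 : c / (dlt (20 * m) * Real.log X) ≤ V y :=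
      (div_le_div_of_nonneg_left hc.le hlogy hlogy2).trans hVy
    have h2 : Real.log X * (c / (dlt (20 * m) * Real.log X)) ≤ Real.log X * V y := by gcongr
    have h3 : Real.log X * (c / (dlt (20 * m) * Real.log X)) = c * (480 * m + 48) := by
      rw [hδe]
      field_simp
    rw [h3] at h2
    nlinarith
  have hμ1 : K * V y ≤ κ * m := by
    rwa [le_div_iff₀ hV0] at hKle
  have hμ2 : κ * m - 1 ≤ K * V y := by
    rw [div_lt_iff₀ hV0] at hKlt
    nlinarith
  have hcnt := hcount X hXX₀ y hyle K hKK₀ (hμ1.trans (by nlinarith))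
  have hK2 : (2 : ℝ) ^ K ≤ X := by
    rw [← Real.rpow_natCast, Real.rpow_def_of_pos (by norm_num)]
    rw [← Real.le_log_iff_exp_le (by linarith)]
    have : Real.log 2 ≤ 1 := by linarith [Real.log_two_lt_d9]
    have hl0 : 0 < Real.log 2 := Real.log_pos (by norm_num)
    have hK0 : (0 : ℝ) ≤ K := Nat.cast_nonneg _
    nlinarith
  have hsub : num (fun n => 1 < n ∧ ¬ AlmostGood (960 * m + 96) n) X ≤
      num (fun n : ℕ => gd (pm y) K n = 0) X + (K + 1) := by
    have h5 : {n | n < X ∧ 1 < n ∧ ¬ AlmostGood (960 * m + 96) n} ⊆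
        {n : ℕ | n < X ∧ gd (pm y) K n = 0} ∪ ↑(range (K + 1)) := by
      intro n hn
      rw [Set.mem_union, Finset.mem_coe, mem_range]
      have hnX : n < X := hn.1
      by_cases hnK : n < K + 1
      · exact Or.inr hnK
      left
      refine ⟨hn.1, ?_⟩
      by_contra h6
      obtain ⟨k, hk⟩ := Finset.card_pos.1 (Nat.pos_of_ne_zero h6)
      obtain ⟨hk1, hk2⟩ := mem_filter.1 hk
      rw [mem_Icc] at hk1
      refine hn.2.2 ⟨k, n - k, hk1.1, by omega, by omega, ?_⟩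
      set M := 2 ^ k + (n - k) with hM
      have hMc : (M : ℤ) = n + b k := b_cast (by omega)
      have hM0 : 0 < M := by positivity
      have h7 := omega_le hM0.ne' fun p hp h8 => hk2 p hp (by
        rw [← hMc]
        exact_mod_cast h8)
      set L := M.primeFactorsList.length with hL
      have h9 : (M : ℝ) ≤ (X : ℝ) ^ (2 : ℝ) := by
        have h10 : (2 : ℝ) ^ k ≤ X := (pow_le_pow_right₀ (by norm_num) hk1.2).trans hK2
        have h11 : ((n - k : ℕ) : ℝ) ≤ X := by exact_mod_cast (by omega : n - k ≤ X)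
        have h12 : (M : ℝ) = 2 ^ k + ((n - k : ℕ) : ℝ) := by rw [hM]; push_cast; ring
        rw [h12, show (2 : ℝ) = ((2 : ℕ) : ℝ) by norm_num, Real.rpow_natCast]
        push_cast
        nlinarith
      have h13 : (X : ℝ) ^ (dlt (20 * m) * L) ≤ (X : ℝ) ^ (2 : ℝ) := by
        calc (X : ℝ) ^ (dlt (20 * m) * L) = ((X : ℝ) ^ dlt (20 * m)) ^ L := by
              rw [Real.rpow_mul (by linarith), Real.rpow_natCast]
          _ ≤ ((y : ℝ) + 1) ^ L := by gcongr
          _ ≤ M := by exact_mod_cast h7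
          _ ≤ _ := h9
      have h14 : dlt (20 * m) * L ≤ 2 := (Real.rpow_le_rpow_left_iff (by linarith)).1 h13
      have h15 : (L : ℝ) ≤ 960 * m + 96 := by
        rw [hδe, div_mul_eq_mul_div, one_mul, div_le_iff₀ (by positivity)] at h14
        linarith
      exact_mod_cast h15
    have h6 : ({n : ℕ | n < X ∧ gd (pm y) K n = 0} ∪ ↑(range (K + 1)) : Set ℕ).Finite :=
      ((Set.finite_lt_nat X).subset fun n hn => hn.1).union (Finset.finite_toSet _)
    refine (Set.ncard_le_ncard h5 h6).trans ((Set.ncard_union_le _ _).trans ?_)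
    rw [Set.ncard_coe_finset, card_range]
    exact le_rfl
  have hsubr : (num (fun n => 1 < n ∧ ¬ AlmostGood (960 * m + 96) n) X : ℝ) ≤
      (num (fun n : ℕ => gd (pm y) K n = 0) X : ℝ) + (K + 1) := by exact_mod_cast hsub
  have hKX : (K : ℝ) + 1 ≤ Real.exp (-(κ * m)) * X := by
    have h6 : √(X : ℝ) * √(X : ℝ) = X := Real.mul_self_sqrt (by linarith)
    have h7 : 1 ≤ √(X : ℝ) := Real.one_le_sqrt.2 (by linarith)
    have h8 := log_le_two_sqrt (x := X) (by linarith)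
    have h9 : (K : ℝ) + 1 ≤ 3 * √(X : ℝ) := by linarith
    have h10 : Real.exp (-(κ * m)) * (3 * Real.exp (κ * m)) = 3 := by
      rw [mul_left_comm, ← Real.exp_add, neg_add_cancel, Real.exp_zero, mul_one]
    have h11 : 0 < Real.exp (-(κ * m)) := Real.exp_pos _
    have h12 : 3 ≤ Real.exp (-(κ * m)) * √(X : ℝ) := by
      rw [← h10]
      gcongr
    calc (K : ℝ) + 1 ≤ 3 * √(X : ℝ) := h9
      _ ≤ Real.exp (-(κ * m)) * √(X : ℝ) * √(X : ℝ) := by gcongr
      _ = Real.exp (-(κ * m)) * X := by rw [mul_assoc, h6]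
  have he1 : Real.exp (-(K * V y)) ≤ 3 * Real.exp (-(κ * m)) := by
    calc Real.exp (-(K * V y)) ≤ Real.exp (1 + -(κ * m)) := Real.exp_le_exp.2 (by linarith)
      _ = Real.exp 1 * Real.exp (-(κ * m)) := Real.exp_add _ _
      _ ≤ 3 * Real.exp (-(κ * m)) := by
          have := Real.exp_one_lt_d9
          gcongr
          linarith
  have he2 : Real.exp (-(m : ℝ)) ≤ Real.exp (-(κ * m)) := Real.exp_le_exp.2 (by nlinarith)
  have hX0 : (0 : ℝ) ≤ X := by linarith
  have h20 : (X : ℝ) * (Real.exp (-(K * V y)) + 7 * Real.exp (-(m : ℝ))) ≤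
      X * (3 * Real.exp (-(κ * m)) + 7 * Real.exp (-(κ * m))) := by gcongr
  linarith

/-- all but `C exp (- c r) N` of the `n ≤ N` are `k + m` with `2 ^ k + m` a product of at most `r` primes -/
theorem part2E : ∃ C c : ℝ, 0 < C ∧ 0 < c ∧ ∀ r : ℕ, ∃ N₀ : ℕ, ∀ N : ℕ, N₀ ≤ N →
    ({n : ℕ | 1 < n ∧ n ≤ N ∧ ¬ AlmostGood r n}.ncard : ℝ) ≤ C * Real.exp (-c * r) * N := by
  obtain ⟨κ, hκ, h⟩ := partE
  refine ⟨22 * Real.exp (2 * κ), κ / 960, by positivity, by positivity, fun r => ?_⟩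
  have hr0 : (0 : ℝ) ≤ r := Nat.cast_nonneg _
  by_cases hr2 : r < 1056
  · refine ⟨0, fun N _ => ?_⟩
    have h1 : {n : ℕ | 1 < n ∧ n ≤ N ∧ ¬ AlmostGood r n} ⊆ ↑(Icc 1 N) := by
      intro n hn
      rw [Finset.mem_coe, mem_Icc]
      exact ⟨hn.1.le, hn.2.1⟩
    have h2 := Set.ncard_le_ncard h1 (Finset.finite_toSet _)
    rw [Set.ncard_coe_finset, Nat.card_Icc, Nat.add_sub_cancel] at h2
    have h3 : (({n : ℕ | 1 < n ∧ n ≤ N ∧ ¬ AlmostGood r n}.ncard : ℕ) : ℝ) ≤ N := by exact_mod_cast h2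
    refine h3.trans ?_
    have h4 : 1 ≤ 22 * Real.exp (2 * κ) * Real.exp (-(κ / 960) * r) := by
      rw [mul_assoc, ← Real.exp_add]
      have h5 : (r : ℝ) ≤ 1056 := by exact_mod_cast hr2.le
      have h6 : 0 ≤ 2 * κ + -(κ / 960) * r := by nlinarith
      have := Real.one_le_exp h6
      linarith
    have : (0 : ℝ) ≤ N := Nat.cast_nonneg _
    nlinarith
  · set m := (r - 96) / 960 with hm
    have hm1 : 1 ≤ m := by omega
    have hmr : 960 * m + 96 ≤ r := by omega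
    have hm2 : r ≤ 960 * (m + 2) := by omega
    obtain ⟨X₁, hX₁⟩ := h m hm1
    refine ⟨max X₁ 1, fun N hN => ?_⟩
    have h1 := hX₁ (N + 1) (by have := (le_max_left X₁ 1).trans hN; omega)
    have hN1 : (1 : ℝ) ≤ N := by exact_mod_cast (le_max_right X₁ 1).trans hN
    have h2 : {n : ℕ | 1 < n ∧ n ≤ N ∧ ¬ AlmostGood r n}.ncard ≤
        num (fun n => 1 < n ∧ ¬ AlmostGood (960 * m + 96) n) (N + 1) := by
      unfold num
      refine Set.ncard_le_ncard (fun n hn => ?_) ((Set.finite_lt_nat (N + 1)).subset fun n hn => hn.1)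
      exact ⟨by have := hn.2.1; omega, hn.1, fun h3 => hn.2.2 (h3.mono hmr)⟩
    have h3 : (({n : ℕ | 1 < n ∧ n ≤ N ∧ ¬ AlmostGood r n}.ncard : ℕ) : ℝ) ≤
        num (fun n => 1 < n ∧ ¬ AlmostGood (960 * m + 96) n) (N + 1) := by exact_mod_cast h2
    have hmr2 : (r : ℝ) ≤ 960 * (m + 2) := by exact_mod_cast hm2
    have h4 : Real.exp (-(κ * m)) ≤ Real.exp (2 * κ) * Real.exp (-(κ / 960) * r) := by
      rw [← Real.exp_add]
      refine Real.exp_le_exp.2 ?_
      have h5 : κ / 960 * r ≤ κ / 960 * (960 * (m + 2)) := by gcongr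
      have h6 : κ / 960 * (960 * ((m : ℝ) + 2)) = κ * m + 2 * κ := by ring
      linarith
    calc (({n : ℕ | 1 < n ∧ n ≤ N ∧ ¬ AlmostGood r n}.ncard : ℕ) : ℝ)
        ≤ 11 * Real.exp (-(κ * m)) * ((N + 1 : ℕ) : ℝ) := h3.trans h1
      _ ≤ 11 * Real.exp (-(κ * m)) * (2 * N) := by
          push_cast
          gcongr
          linarith
      _ ≤ 11 * (Real.exp (2 * κ) * Real.exp (-(κ / 960) * r)) * (2 * N) := by gcongr
      _ = 22 * Real.exp (2 * κ) * Real.exp (-(κ / 960) * r) * N := by ring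

end Pool.Agent.H78.RS
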