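import Pool.Agent.H78.RS.Avg3

set_option autoImplicit false

/-!
# First and second moments of the number of exponents `k` with `n + 2 ^ k - k` free of small primes
-/

namespace Pool.Agent.H78.RS

open Finset Pool.Agent.H2.WO Pool.Agent.H75.AP

theorem Sys.mono {T : ℕ → ℕ → Prop} {ν : ℕ → ℕ} {K K' : ℕ} (h : Sys T ν K) (hK : K ≤ K') : Sys T ν K' :=
  ⟨h.cond, fun p => (h.leK p).trans hK, h.leP⟩

theorem N1_eq (P : Finset ℕ) (k X : ℕ) :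
    ∑ n ∈ range X, ind P n k = (num (fun n => ∀ p ∈ P, ¬ Hit 1 {b k} p n) X : ℝ) := by
  classical
  rw [← num_eq, Finset.card_filter]
  push_cast
  refine Finset.sum_congr rfl fun n _ => ?_
  unfold ind
  have h2 : (∀ p ∈ P, ¬ Hit 1 {b k} p n) ↔ (∀ p ∈ P, ¬ (p : ℤ) ∣ n + b k) := by
    refine forall₂_congr fun p _ => ?_
    rw [hit_one]
    simp only [mem_singleton, exists_eq_left]
  by_cases h3 : ∀ p ∈ P, ¬ (p : ℤ) ∣ (n : ℤ) + b k
  · rw [if_pos h3, if_pos (h2.2 h3)]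
  · rw [if_neg h3, if_neg fun h => h3 (h2.1 h)]

theorem N2_eq (P : Finset ℕ) (k l X : ℕ) :
    ∑ n ∈ range X, ind P n k * ind P n l = (num (fun n => ∀ p ∈ P, ¬ Hit 1 {b k, b l} p n) X : ℝ) := by
  classical
  rw [← num_eq, Finset.card_filter]
  push_cast
  refine Finset.sum_congr rfl fun n _ => ?_
  have h2 : (∀ p ∈ P, ¬ Hit 1 {b k, b l} p n) ↔
      (∀ p ∈ P, ¬ (p : ℤ) ∣ n + b k) ∧ (∀ p ∈ P, ¬ (p : ℤ) ∣ n + b l) := by
    rw [← forall₂_and]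
    refine forall₂_congr fun p _ => ?_
    rw [hit_one]
    simp only [mem_insert, mem_singleton, exists_eq_or_imp, exists_eq_left, not_or]
  unfold ind
  by_cases h3 : ∀ p ∈ P, ¬ (p : ℤ) ∣ (n : ℤ) + b k <;> by_cases h4 : ∀ p ∈ P, ¬ (p : ℤ) ∣ (n : ℤ) + b l
  · rw [if_pos (h2.2 ⟨h3, h4⟩), if_pos h3, if_pos h4, one_mul]
  · rw [if_neg (fun h => h4 (h2.1 h).2), if_neg h4, mul_zero]
  · rw [if_neg (fun h => h3 (h2.1 h).1), if_neg h3, zero_mul]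
  · rw [if_neg (fun h => h3 (h2.1 h).1), if_neg h3, zero_mul]

/-- the exponent -/
noncomputable def dlt (B : ℕ) : ℝ := 1 / (4 * (6 * B + 12))

theorem dlt_pos (B : ℕ) : 0 < dlt B := by
  unfold dlt
  positivity

theorem moments (B : ℕ) (hB : 20 ≤ B) (ε : ℝ) (hε : 0 < ε) (hε1 : ε ≤ 1) : ∃ X₀ K₀ : ℕ, 1 ≤ X₀ ∧ ∀ X : ℕ, X₀ ≤ X →
    ∀ y : ℕ, (y : ℝ) ≤ (X : ℝ) ^ dlt B →
      (∀ k, (1 - 2 * (1 / 2 : ℝ) ^ B) * (X * V y) ≤ ∑ n ∈ range X, ind (pm y) n k ∧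
        ∑ n ∈ range X, ind (pm y) n k ≤ (1 + 2 * (1 / 2 : ℝ) ^ B) * (X * V y)) ∧
      ∀ K : ℕ, K₀ ≤ K → ∑ k ∈ Icc 1 K, ∑ l ∈ (Icc 1 K).erase k, ∑ n ∈ range X, ind (pm y) n k * ind (pm y) n l ≤
        (1 + 2 * (1 / 2 : ℝ) ^ B) * (1 + ε) * (X * (K * V y) ^ 2) := by
  obtain ⟨X₀, hX₀, h⟩ := gmain 2 (by norm_num) B (by omega)
  obtain ⟨K₀, hK₀⟩ := avg_one ε hε hε1
  refine ⟨X₀, K₀, hX₀, fun X hX y hy => ⟨fun k => ?_, fun K hK => ?_⟩⟩
  · rw [N1_eq]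
    have h1 := h _ _ ((sys_lin {b k}).mono (by simp)) X hX y hy
    have e1 : ∏ p ∈ pm y, (1 - (nu {b k} p : ℝ) / p) = V y := by
      unfold V
      refine Finset.prod_congr rfl fun p _ => ?_
      rw [nu_single]
      simp
    rw [e1] at h1
    rw [abs_le] at h1
    constructor <;> linarith [h1.1, h1.2]
  · have h1 : ∀ k ∈ Icc 1 K, ∀ l ∈ (Icc 1 K).erase k, ∑ n ∈ range X, ind (pm y) n k * ind (pm y) n l ≤
        (1 + 2 * (1 / 2 : ℝ) ^ B) * X * ∏ p ∈ pm y, (1 - (nu {b k, b l} p : ℝ) / p) := by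
      intro k _ l _
      rw [N2_eq]
      have h1 := h _ _ ((sys_lin {b k, b l}).mono (card_le_two)) X hX y hy
      have h2 := (abs_le.1 h1).2
      linarith
    have h2 : ∑ k ∈ Icc 1 K, ∑ l ∈ (Icc 1 K).erase k, ∑ n ∈ range X, ind (pm y) n k * ind (pm y) n l ≤
        ∑ k ∈ Icc 1 K, ∑ l ∈ (Icc 1 K).erase k,
          (1 + 2 * (1 / 2 : ℝ) ^ B) * X * ∏ p ∈ pm y, (1 - (nu {b k, b l} p : ℝ) / p) :=
      Finset.sum_le_sum fun k hk => Finset.sum_le_sum (h1 k hk)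
    refine h2.trans ?_
    simp only [← Finset.mul_sum]
    have h3 := mul_le_mul_of_nonneg_left (hK₀ K hK y) (by positivity : (0 : ℝ) ≤ (1 + 2 * (1 / 2 : ℝ) ^ B) * X)
    refine h3.trans (le_of_eq ?_)
    ring

theorem ind_mul_self (P : Finset ℕ) (x : ℤ) (k : ℕ) : ind P x k * ind P x k = ind P x k := by
  unfold ind
  split_ifs <;> norm_num

theorem ind_nonneg (P : Finset ℕ) (x : ℤ) (k : ℕ) : 0 ≤ ind P x k := by
  unfold ind
  split_ifs <;> norm_num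

/-- Chebyshev's inequality -/
theorem cheb (X K : ℕ) (P : Finset ℕ) (W η ε : ℝ) (hW : 0 < K * W) (hη : 0 ≤ η) (hη1 : η ≤ 1) (hε : 0 ≤ ε)
    (hε1 : ε ≤ 1)
    (h1 : ∀ k, (1 - η) * (X * W) ≤ ∑ n ∈ range X, ind P n k ∧
        ∑ n ∈ range X, ind P n k ≤ (1 + η) * (X * W))
    (h2 : ∑ k ∈ Icc 1 K, ∑ l ∈ (Icc 1 K).erase k, ∑ n ∈ range X, ind P n k * ind P n l ≤
        (1 + η) * (1 + ε) * (X * (K * W) ^ 2)) :
    (num (fun n : ℕ => ∀ k ∈ Icc 1 K, ind P n k = 0) X : ℝ) ≤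
      X * (2 / (K * W) + 4 * η + ε) := by
  classical
  set μ := K * W with hμ
  set G : ℕ → ℝ := fun n => ∑ k ∈ Icc 1 K, ind P n k with hG
  have hS1 : (1 - η) * (X * μ) ≤ ∑ n ∈ range X, G n := by
    rw [hG, Finset.sum_comm]
    have h3 := Finset.sum_le_sum fun k (_ : k ∈ Icc 1 K) => (h1 k).1
    rw [Finset.sum_const, Nat.card_Icc, nsmul_eq_mul, Nat.add_sub_cancel] at h3
    refine le_trans (le_of_eq ?_) h3
    rw [hμ]
    ring
  have hS2 : ∑ n ∈ range X, (G n) ^ 2 ≤ (1 + η) * (X * μ) + (1 + η) * (1 + ε) * (X * μ ^ 2) := by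
    have e1 : ∑ n ∈ range X, (G n) ^ 2 =
        ∑ k ∈ Icc 1 K, ∑ l ∈ Icc 1 K, ∑ n ∈ range X, ind P n k * ind P n l := by
      have e2 : ∀ k ∈ Icc 1 K, ∑ l ∈ Icc 1 K, ∑ n ∈ range X, ind P n k * ind P n l =
          ∑ n ∈ range X, ∑ l ∈ Icc 1 K, ind P n k * ind P n l := fun k _ => Finset.sum_comm
      rw [Finset.sum_congr rfl e2, Finset.sum_comm]
      refine Finset.sum_congr rfl fun n _ => ?_
      rw [hG, sq, Finset.sum_mul_sum]
    have e3 : ∀ k ∈ Icc 1 K, ∑ l ∈ Icc 1 K, ∑ n ∈ range X, ind P n k * ind P n l =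
        ∑ n ∈ range X, ind P n k + ∑ l ∈ (Icc 1 K).erase k, ∑ n ∈ range X, ind P n k * ind P n l := by
      intro k hk
      rw [← Finset.add_sum_erase _ _ hk]
      congr 1
      exact Finset.sum_congr rfl fun n _ => ind_mul_self P n k
    rw [e1, Finset.sum_congr rfl e3, Finset.sum_add_distrib]
    refine add_le_add ?_ h2
    have h3 := Finset.sum_le_sum fun k (_ : k ∈ Icc 1 K) => (h1 k).2
    rw [Finset.sum_const, Nat.card_Icc, nsmul_eq_mul, Nat.add_sub_cancel] at h3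
    refine h3.trans (le_of_eq ?_)
    rw [hμ]
    ring
  have hvar : ∑ n ∈ range X, (G n - μ) ^ 2 ≤ X * μ ^ 2 * (2 / μ + 4 * η + ε) := by
    have e1 : ∑ n ∈ range X, (G n - μ) ^ 2 =
        ∑ n ∈ range X, (G n) ^ 2 - 2 * μ * ∑ n ∈ range X, G n + X * μ ^ 2 := by
      rw [Finset.mul_sum, ← Finset.sum_sub_distrib]
      have : (X : ℝ) * μ ^ 2 = ∑ n ∈ range X, μ ^ 2 := by
        rw [Finset.sum_const, card_range, nsmul_eq_mul]
      rw [this, ← Finset.sum_add_distrib]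
      exact Finset.sum_congr rfl fun n _ => by ring
    rw [e1]
    have h3 : 2 * μ * ((1 - η) * (X * μ)) ≤ 2 * μ * ∑ n ∈ range X, G n :=
      mul_le_mul_of_nonneg_left hS1 (by positivity)
    have e2 : X * μ ^ 2 * (2 / μ + 4 * η + ε) = 2 * (X * μ) + X * μ ^ 2 * (4 * η + ε) := by
      field_simp
      ring
    rw [e2]
    have hXμ : 0 ≤ (X : ℝ) * μ := by positivity
    have hXμ2 : 0 ≤ (X : ℝ) * μ ^ 2 := by positivity
    have h4 : (1 + η) * (X * μ) ≤ 2 * (X * μ) := by nlinarith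
    have h5 : (1 + η) * (1 + ε) ≤ 1 + 2 * η + ε := by nlinarith
    have h6 := mul_le_mul_of_nonneg_right h5 hXμ2
    have h7 : 2 * μ * ((1 - η) * (X * μ)) = 2 * (1 - η) * (X * μ ^ 2) := by ring
    rw [h7] at h3
    nlinarith
  have hlow : (num (fun n : ℕ => ∀ k ∈ Icc 1 K, ind P n k = 0) X : ℝ) * μ ^ 2 ≤
      ∑ n ∈ range X, (G n - μ) ^ 2 := by
    rw [← num_eq, ← nsmul_eq_mul, ← Finset.sum_const]
    refine le_trans (Finset.sum_le_sum (g := fun n => (G n - μ) ^ 2) fun n hn => ?_)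
      (Finset.sum_le_sum_of_subset_of_nonneg (Finset.filter_subset _ _) fun n _ _ => sq_nonneg _)
    have : G n = 0 := Finset.sum_eq_zero (mem_filter.1 hn).2
    rw [this]
    simp
  have hμ2 : 0 < μ ^ 2 := by positivity
  have h8 := hlow.trans hvar
  have h9 : (X : ℝ) * μ ^ 2 * (2 / μ + 4 * η + ε) = X * (2 / μ + 4 * η + ε) * μ ^ 2 := by ring
  rw [h9] at h8
  exact le_of_mul_le_mul_right h8 hμ2

end Pool.Agent.H78.RS
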