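import Pool.Agent.H78.RS.Tup3
import Pool.Agent.H78.RS.Alm

set_option autoImplicit false

/-!
# Almost primes `2 ^ k + m`, `k + m = n`: an exponential bound for the exceptions
-/

namespace Pool.Agent.H78.RS

open Finset Pool.Agent.H2.WO

theorem bonf (m G : ℕ) : (if G = 0 then (1 : ℝ) else 0) ≤ ∑ j ∈ range (2 * m + 1), (-1 : ℝ) ^ j * (G.choose j : ℝ) := by
  rcases G with _ | G
  · rw [if_pos rfl, Finset.sum_range_succ']
    simp
  · rw [if_neg (by omega)]
    have h := Int.alternating_sum_range_choose_eq_choose (n := G) (m := 2 * m)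
    have h2 : ∑ j ∈ range (2 * m + 1), (-1 : ℝ) ^ j * ((G + 1).choose j : ℝ) = (-1 : ℝ) ^ (2 * m) * (G.choose (2 * m) : ℝ) := by
      exact_mod_cast h
    rw [h2, pow_mul]
    simp

theorem choose_sum (P : Finset ℕ) (K j X : ℕ) :
    ∑ n ∈ range X, ((gd P K n).choose j : ℝ) =
      ∑ S ∈ powersetCard j (Icc 1 K), (num (fun n => ∀ p ∈ P, ¬ Hit 1 (S.image b) p n) X : ℝ) := by
  have h1 : ∀ n ∈ range X, ((gd P K n).choose j : ℝ) = ∑ S ∈ powersetCard j (Icc 1 K), ∏ k ∈ S, ind P n k :=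
    fun n _ => (choose_gd P K j n).symm
  rw [Finset.sum_congr rfl h1, Finset.sum_comm]
  exact Finset.sum_congr rfl fun S _ => ind_prod_sum P S X

theorem fact_moment (m : ℕ) (hm : 1 ≤ m) (ε : ℝ) (hε : 0 < ε) (hε1 : ε ≤ 1) : ∃ X₀ K₀ : ℕ, 1 ≤ X₀ ∧
    ∀ X : ℕ, X₀ ≤ X → ∀ y : ℕ, (y : ℝ) ≤ (X : ℝ) ^ dlt (20 * m) → ∀ K, K₀ ≤ K → ∀ j ≤ 2 * m,
      |∑ n ∈ range X, ((gd (pm y) K n).choose j : ℝ) - X * ((K * V y) ^ j / j.factorial)| ≤
        X * (3 * ε * (K * V y) ^ j + 2 * (1 / 2 : ℝ) ^ (20 * m) * ((K * V y) ^ j / j.factorial)) := by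
  obtain ⟨X₀, hX₀, h⟩ := gmain (2 * m) (by omega) (20 * m) (by omega)
  choose K0 hK0 using fun j => tup_avg j ε hε hε1
  refine ⟨X₀, (range (2 * m + 1)).sup K0, hX₀, fun X hX y hy K hK j hj => ?_⟩
  have hKj : K0 j ≤ K := (Finset.le_sup (f := K0) (mem_range.2 (by omega))).trans hK
  have h1 := hK0 j K hKj y
  set T := (K * V y) ^ j with hT
  have hV0 : 0 ≤ V y := Finset.prod_nonneg fun p hp => (fac_pos (mem_pm.1 hp).2).1.le
  have hT0 : 0 ≤ T := by positivity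
  set SW := ∑ S ∈ powersetCard j (Icc 1 K), W (pm y) S with hSW
  set η : ℝ := 2 * (1 / 2 : ℝ) ^ (20 * m) with hη
  have hη0 : 0 ≤ η := by positivity
  have hη1 : η ≤ 1 := by
    rw [hη]
    have : (1 / 2 : ℝ) ^ (20 * m) ≤ (1 / 2 : ℝ) ^ 1 := pow_le_pow_of_le_one (by norm_num) (by norm_num) (by omega)
    linarith
  have h2 : |∑ n ∈ range X, ((gd (pm y) K n).choose j : ℝ) - X * SW| ≤ η * (X * SW) := by
    rw [choose_sum, hSW, Finset.mul_sum, ← Finset.sum_sub_distrib, Finset.mul_sum]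
    refine (Finset.abs_sum_le_sum_abs _ _).trans (Finset.sum_le_sum fun S hS => ?_)
    have hc : (S.image b).card ≤ 2 * m := by
      refine card_image_le.trans ?_
      rw [(mem_powersetCard.1 hS).2]
      exact hj
    exact h _ _ ((sys_lin (S.image b)).mono hc) X hX y hy
  have hXr : (0 : ℝ) ≤ X := Nat.cast_nonneg _
  have h3 := abs_le.1 h1
  have h4 : SW ≤ T / j.factorial + ε * T := by linarith [h3.2]
  have h5 : |(X : ℝ) * SW - X * (T / j.factorial)| ≤ X * (ε * T) := by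
    rw [← mul_sub, abs_mul, abs_of_nonneg hXr]
    exact mul_le_mul_of_nonneg_left h1 hXr
  have h6 : η * (X * SW) ≤ η * (X * (T / j.factorial + ε * T)) := by gcongr
  have h7 : η * (X * (ε * T)) ≤ 1 * (X * (ε * T)) := by gcongr
  calc |∑ n ∈ range X, ((gd (pm y) K n).choose j : ℝ) - X * (T / j.factorial)|
      ≤ |∑ n ∈ range X, ((gd (pm y) K n).choose j : ℝ) - X * SW| + |(X : ℝ) * SW - X * (T / j.factorial)| :=
        abs_sub_le _ _ _
    _ ≤ X * (3 * ε * T + η * (T / j.factorial)) := by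
        have h8 : 0 ≤ (X : ℝ) * (ε * T) := by positivity
        nlinarith

theorem exp_trunc (m : ℕ) (μ : ℝ) (hμ0 : 0 ≤ μ) (hμ : μ ≤ m / 8) :
    ∑ j ∈ range (2 * m + 1), (-1 : ℝ) ^ j * (μ ^ j / j.factorial) ≤ Real.exp (-μ) + 2 * Real.exp (-(m : ℝ)) := by
  have h1 := Complex.exp_bound' (x := ((-μ : ℝ) : ℂ)) (n := 2 * m + 1) (by
    rw [Complex.norm_real, norm_neg, Real.norm_of_nonneg hμ0, div_le_iff₀ (by positivity)]
    push_cast
    linarith)
  have h2 : Complex.exp ((-μ : ℝ) : ℂ) - ∑ j ∈ range (2 * m + 1), ((-μ : ℝ) : ℂ) ^ j / j.factorial =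
      ((Real.exp (-μ) - ∑ j ∈ range (2 * m + 1), (-μ) ^ j / j.factorial : ℝ) : ℂ) := by
    push_cast
    rfl
  rw [h2, Complex.norm_real, Complex.norm_real, norm_neg, Real.norm_of_nonneg hμ0, Real.norm_eq_abs] at h1
  have h3 := (abs_le.1 h1).1
  have h4 : ∑ j ∈ range (2 * m + 1), (-1 : ℝ) ^ j * (μ ^ j / j.factorial) =
      ∑ j ∈ range (2 * m + 1), (-μ) ^ j / j.factorial := by
    refine Finset.sum_congr rfl fun j _ => ?_
    rw [neg_pow μ j]
    ring
  rw [h4]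
  -- the tail
  have h5 : μ ^ (2 * m + 1) / (2 * m + 1).factorial ≤ Real.exp (-(m : ℝ)) := by
    set n := 2 * m + 1 with hn
    have hn0 : (0 : ℝ) ≤ n := Nat.cast_nonneg _
    have hμn : μ ≤ 1 / 16 * (n : ℝ) := by
      rw [hn]
      push_cast
      linarith
    have hf : (0 : ℝ) < n.factorial := by exact_mod_cast Nat.factorial_pos n
    calc μ ^ n / n.factorial ≤ (1 / 16 * (n : ℝ)) ^ n / n.factorial := by gcongr
      _ = (1 / 16 : ℝ) ^ n * ((n : ℝ) ^ n / n.factorial) := by rw [mul_pow]; ring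
      _ ≤ (1 / 16 : ℝ) ^ n * Real.exp n := by
          gcongr
          exact Real.pow_div_factorial_le_exp (n : ℝ) hn0 n
      _ ≤ Real.exp (-2 * (n : ℝ)) * Real.exp n := by
          gcongr
          have h6 : (1 / 16 : ℝ) ≤ Real.exp (-2) := by
            rw [Real.exp_neg, ← one_div]
            refine one_div_le_one_div_of_le (Real.exp_pos _) ?_
            have : Real.exp 2 = Real.exp 1 * Real.exp 1 := by rw [← Real.exp_add]; norm_num
            rw [this]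
            nlinarith [Real.exp_one_lt_d9, Real.exp_pos 1]
          calc (1 / 16 : ℝ) ^ n ≤ Real.exp (-2) ^ n := by gcongr
            _ = Real.exp (-2 * (n : ℝ)) := by rw [← Real.exp_nat_mul]; ring_nf
      _ = Real.exp (-(n : ℝ)) := by
          rw [← Real.exp_add]
          congr 1
          ring
      _ ≤ Real.exp (-(m : ℝ)) := by
          refine Real.exp_le_exp.2 ?_
          rw [hn]
          push_cast
          have : (0 : ℝ) ≤ m := Nat.cast_nonneg _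
          linarith
  linarith

theorem none_count (m : ℕ) (hm : 1 ≤ m) : ∃ X₀ K₀ : ℕ, 1 ≤ X₀ ∧
    ∀ X : ℕ, X₀ ≤ X → ∀ y : ℕ, (y : ℝ) ≤ (X : ℝ) ^ dlt (20 * m) → ∀ K, K₀ ≤ K → K * V y ≤ m / 8 →
      (num (fun n : ℕ => gd (pm y) K n = 0) X : ℝ) ≤ X * (Real.exp (-(K * V y)) + 7 * Real.exp (-(m : ℝ))) := by
  classical
  have hmr : (1 : ℝ) ≤ m := by exact_mod_cast hm
  set A : ℝ := ∑ j ∈ range (2 * m + 1), (m : ℝ) ^ j with hA
  have hA0 : 0 ≤ A := Finset.sum_nonneg fun _ _ => by positivity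
  set ε : ℝ := Real.exp (-(m : ℝ)) / (A + 1) with hε
  have hε0 : 0 < ε := by positivity
  have hε1 : ε ≤ 1 := by
    rw [hε, div_le_one (by positivity)]
    have : Real.exp (-(m : ℝ)) ≤ 1 := Real.exp_le_one_iff.2 (by linarith)
    linarith
  have hεA : ε * A ≤ Real.exp (-(m : ℝ)) := by
    rw [hε, div_mul_eq_mul_div, div_le_iff₀ (by positivity)]
    have := Real.exp_pos (-(m : ℝ))
    nlinarith
  obtain ⟨X₀, K₀, hX₀, h⟩ := fact_moment m hm ε hε0 hε1
  refine ⟨X₀, K₀, hX₀, fun X hX y hy K hK hμ => ?_⟩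
  set μ := K * V y with hμd
  have hV0 : 0 ≤ V y := Finset.prod_nonneg fun p hp => (fac_pos (mem_pm.1 hp).2).1.le
  have hμ0 : 0 ≤ μ := by positivity
  have hμm : μ ≤ m := by linarith
  set η : ℝ := 2 * (1 / 2 : ℝ) ^ (20 * m) with hη
  have hXr : (0 : ℝ) ≤ X := Nat.cast_nonneg _
  have h1 : (num (fun n : ℕ => gd (pm y) K n = 0) X : ℝ) ≤
      ∑ j ∈ range (2 * m + 1), (-1 : ℝ) ^ j * ∑ n ∈ range X, ((gd (pm y) K n).choose j : ℝ) := by
    rw [← num_eq, Finset.card_filter]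
    push_cast
    have h2 : ∑ j ∈ range (2 * m + 1), (-1 : ℝ) ^ j * ∑ n ∈ range X, ((gd (pm y) K n).choose j : ℝ) =
        ∑ n ∈ range X, ∑ j ∈ range (2 * m + 1), (-1 : ℝ) ^ j * ((gd (pm y) K n).choose j : ℝ) := by
      simp only [Finset.mul_sum]
      exact Finset.sum_comm
    rw [h2]
    exact Finset.sum_le_sum fun n _ => bonf m _
  have h2 : ∀ j ∈ range (2 * m + 1), (-1 : ℝ) ^ j * ∑ n ∈ range X, ((gd (pm y) K n).choose j : ℝ) ≤
      X * ((-1 : ℝ) ^ j * (μ ^ j / j.factorial)) + X * (3 * ε * μ ^ j + η * (μ ^ j / j.factorial)) := by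
    intro j hj
    have h3 := h X hX y hy K hK j (by rw [mem_range] at hj; omega)
    have h4 : |(-1 : ℝ) ^ j * (∑ n ∈ range X, ((gd (pm y) K n).choose j : ℝ) - X * (μ ^ j / j.factorial))| ≤
        X * (3 * ε * μ ^ j + η * (μ ^ j / j.factorial)) := by
      rw [abs_mul, abs_pow, abs_neg, abs_one, one_pow, one_mul]
      exact h3
    have h5 := (abs_le.1 h4).2
    rw [mul_sub] at h5
    linarith
  have h3 := h1.trans (Finset.sum_le_sum h2)
  rw [Finset.sum_add_distrib, ← Finset.mul_sum, ← Finset.mul_sum, Finset.sum_add_distrib, ← mul_add] at h3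
  refine h3.trans (mul_le_mul_of_nonneg_left ?_ hXr)
  have h4 := exp_trunc m μ hμ0 hμ
  have h5 : ∑ j ∈ range (2 * m + 1), 3 * ε * μ ^ j ≤ 3 * Real.exp (-(m : ℝ)) := by
    rw [← Finset.mul_sum]
    have h6 : ∑ j ∈ range (2 * m + 1), μ ^ j ≤ A := Finset.sum_le_sum fun j _ => by gcongr
    calc 3 * ε * ∑ j ∈ range (2 * m + 1), μ ^ j ≤ 3 * ε * A := by gcongr
      _ = 3 * (ε * A) := by ring
      _ ≤ _ := by linarith
  have h6 : ∑ j ∈ range (2 * m + 1), η * (μ ^ j / j.factorial) ≤ 2 * Real.exp (-(m : ℝ)) := by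
    rw [← Finset.mul_sum]
    have h7 : ∑ j ∈ range (2 * m + 1), μ ^ j / j.factorial ≤ Real.exp m :=
      (Real.sum_le_exp_of_nonneg hμ0 _).trans (Real.exp_le_exp.2 hμm)
    have h8 : (1 / 2 : ℝ) ^ (20 * m) ≤ Real.exp (-2 * (m : ℝ)) := by
      have h9 : (1 / 2 : ℝ) ^ 20 ≤ Real.exp (-2) := by
        rw [Real.exp_neg, ← one_div]
        have : Real.exp 2 = Real.exp 1 * Real.exp 1 := by rw [← Real.exp_add]; norm_num
        have h10 : Real.exp 2 ≤ 16 := by
          rw [this]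
          nlinarith [Real.exp_one_lt_d9, Real.exp_pos 1]
        refine le_trans ?_ (one_div_le_one_div_of_le (Real.exp_pos _) h10)
        norm_num
      calc (1 / 2 : ℝ) ^ (20 * m) = ((1 / 2 : ℝ) ^ 20) ^ m := by rw [pow_mul]
        _ ≤ Real.exp (-2) ^ m := by gcongr
        _ = Real.exp (-2 * (m : ℝ)) := by rw [← Real.exp_nat_mul]; ring_nf
    calc η * ∑ j ∈ range (2 * m + 1), μ ^ j / j.factorial ≤ (2 * Real.exp (-2 * (m : ℝ))) * Real.exp m := by
          rw [hη]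
          gcongr
      _ = 2 * Real.exp (-(m : ℝ)) := by
          rw [mul_assoc, ← Real.exp_add]
          congr 2
          ring
  linarith

end Pool.Agent.H78.RS
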