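import Pool.Agent.H78.RS.Alm

set_option autoImplicit false

/-!
# Primes `2 ^ k + m`, `k + m = n`, for a positive proportion of the `n`
-/

namespace Pool.Agent.H78.RS

open Finset Pool.Agent.H2.WO Pool.Agent.H75.AP

/-- `n = k + m` with positive `k`, `m` and `2 ^ k + m` prime -/
def Good (n : ℕ) : Prop := ∃ k m : ℕ, 0 < k ∧ 0 < m ∧ k + m = n ∧ (2 ^ k + m).Prime

/-- indicator of `n + 2 ^ k - k` prime -/
def prm (n k : ℕ) : ℝ := if (n + (2 ^ k - k)).Prime then 1 else 0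

theorem bn_cast (n k : ℕ) : ((n + (2 ^ k - k) : ℕ) : ℤ) = n + b k := by
  unfold b
  have : k ≤ 2 ^ k := Nat.lt_two_pow_self.le
  push_cast [Nat.cast_sub this]
  ring

theorem prm_nonneg (n k : ℕ) : 0 ≤ prm n k := by
  unfold prm
  split_ifs <;> norm_num

theorem prm_le (n k y : ℕ) (hn : y < n) : prm n k ≤ ind (pm y) n k := by
  unfold prm
  split_ifs with h
  · unfold ind
    rw [if_pos]
    intro p hp hd
    rw [mem_pm] at hp
    rw [← bn_cast] at hd
    have h1 : p ∣ n + (2 ^ k - k) := by exact_mod_cast hd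
    have h2 := (Nat.prime_dvd_prime_iff_eq hp.2 h).1 h1
    omega
  · exact ind_nonneg _ _ _

theorem prm_le_one (n k : ℕ) : prm n k ≤ 1 := by
  unfold prm
  split_ifs <;> norm_num

theorem prm_mul_self (n k : ℕ) : prm n k * prm n k = prm n k := by
  unfold prm
  split_ifs <;> norm_num

theorem prm_sum_le (X k y : ℕ) : ∑ n ∈ range X, prm n k ≤ ∑ n ∈ range X, ind (pm y) n k + (y + 1) := by
  have h1 : ∀ n ∈ range X, prm n k ≤ ind (pm y) n k + (if n < y + 1 then 1 else 0) := by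
    intro n _
    split_ifs with h
    · linarith [prm_le_one n k, ind_nonneg (pm y) n k]
    · linarith [prm_le n k y (by omega)]
  refine (Finset.sum_le_sum h1).trans ?_
  rw [Finset.sum_add_distrib]
  gcongr
  rw [← Finset.sum_filter, Finset.sum_const, nsmul_eq_mul, mul_one]
  have : ((range X).filter (fun n => n < y + 1)).card ≤ (range (y + 1)).card :=
    card_le_card fun n hn => mem_range.2 (mem_filter.1 hn).2
  rw [card_range] at this
  exact_mod_cast this

theorem prm_sum2_le (X k l y : ℕ) : ∑ n ∈ range X, prm n k * prm n l ≤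
    ∑ n ∈ range X, ind (pm y) n k * ind (pm y) n l + (y + 1) := by
  have h1 : ∀ n ∈ range X, prm n k * prm n l ≤
      ind (pm y) n k * ind (pm y) n l + (if n < y + 1 then 1 else 0) := by
    intro n _
    split_ifs with h
    · have h2 := mul_le_mul (prm_le_one n k) (prm_le_one n l) (prm_nonneg _ _) zero_le_one
      linarith [mul_nonneg (ind_nonneg (pm y) n k) (ind_nonneg (pm y) n l)]
    · have h2 := mul_le_mul (prm_le n k y (by omega)) (prm_le n l y (by omega)) (prm_nonneg _ _)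
        (ind_nonneg _ _ _)
      linarith
  refine (Finset.sum_le_sum h1).trans ?_
  rw [Finset.sum_add_distrib]
  gcongr
  rw [← Finset.sum_filter, Finset.sum_const, nsmul_eq_mul, mul_one]
  have : ((range X).filter (fun n => n < y + 1)).card ≤ (range (y + 1)).card :=
    card_le_card fun n hn => mem_range.2 (mem_filter.1 hn).2
  rw [card_range] at this
  exact_mod_cast this

/-- lower bound for the number of primes -/
theorem prm_sum_ge (N k : ℕ) : (Nat.primeCounting N : ℝ) - 2 ^ k ≤ ∑ n ∈ range (N + 1), prm n k := by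
  have h1 : ∑ n ∈ range (N + 1), prm n k =
      (((range (N + 1)).filter (fun n => (n + (2 ^ k - k)).Prime)).card : ℝ) := by
    rw [Finset.card_filter]
    push_cast
    rfl
  have h2 : Nat.primeCounting N ≤ 2 ^ k + ((range (N + 1)).filter (fun n => (n + (2 ^ k - k)).Prime)).card := by
    rw [Nat.primeCounting, Nat.primeCounting', Nat.count_eq_card_filter_range]
    have h3 : (range (N + 1)).filter Nat.Prime ⊆ range (2 ^ k - k) ∪
        ((range (N + 1)).filter (fun n => (n + (2 ^ k - k)).Prime)).image (fun n => n + (2 ^ k - k)) := by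
      intro q hq
      rw [mem_filter, mem_range] at hq
      rw [mem_union, mem_range, mem_image]
      by_cases h4 : q < 2 ^ k - k
      · exact Or.inl h4
      right
      refine ⟨q - (2 ^ k - k), ?_, by omega⟩
      rw [mem_filter, mem_range]
      refine ⟨by omega, ?_⟩
      rw [Nat.sub_add_cancel (by omega)]
      exact hq.2
    refine (card_le_card h3).trans ((card_union_le _ _).trans ?_)
    rw [card_range]
    exact add_le_add (Nat.sub_le _ _) card_image_le
  rw [h1, sub_le_iff_le_add']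
  exact_mod_cast h2

/-- second moment -/
theorem second_prm : ∃ D2 : ℝ, 0 < D2 ∧ ∃ X₁ : ℕ, ∀ X : ℕ, X₁ ≤ X →
    ∑ n ∈ range X, (∑ k ∈ Icc 1 (Nat.log 2 X / 2), prm n k) ^ 2 ≤ D2 * X := by
  obtain ⟨c2, hc2, hV⟩ := V_upp
  obtain ⟨X₀, K₀, hX₀, hmom⟩ := moments 20 le_rfl 1 one_pos le_rfl
  set δ := dlt 20 with hδ
  have hδ0 : 0 < δ := dlt_pos 20
  have hδ1 : δ ≤ 1 / 4 := by rw [hδ]; unfold dlt; norm_num
  set D : ℝ := 2 * c2 / δ with hD
  have hD0 : 0 < D := by positivity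
  set D2 : ℝ := 2 * D + 4 * D ^ 2 + 2 with hD2
  have hD20 : 0 < D2 := by positivity
  refine ⟨D2, hD20, ?_⟩
  have hev : ∀ᶠ X : ℕ in Filter.atTop, (X : ℝ) ^ (δ / 2) ≥ 4 ∧ X₀ ≤ X ∧ 4 ^ (K₀ + 1) ≤ X ∧
      2 ^ 20 ≤ X ∧ (4 : ℝ) ≤ Real.log X := by
    have h1 : ∀ᶠ X : ℕ in Filter.atTop, (X : ℝ) ^ (δ / 2) ≥ 4 :=
      ((tendsto_rpow_atTop (by positivity : (0 : ℝ) < δ / 2)).comp tendsto_natCast_atTop_atTop).eventually_ge_atTop 4
    have h3 : ∀ᶠ X : ℕ in Filter.atTop, (4 : ℝ) ≤ Real.log X :=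
      (Real.tendsto_log_atTop.comp tendsto_natCast_atTop_atTop).eventually_ge_atTop 4
    filter_upwards [h1, Filter.eventually_ge_atTop X₀, Filter.eventually_ge_atTop (4 ^ (K₀ + 1)),
      Filter.eventually_ge_atTop (2 ^ 20), h3] with N h1 h2 h3 h4 h5
    exact ⟨h1, h2, h3, h4, h5⟩
  obtain ⟨N₀, hN₀⟩ := Filter.eventually_atTop.1 hev
  refine ⟨N₀, fun X hN => ?_⟩
  obtain ⟨a1, a2, a3, a4, a6⟩ := hN₀ X hN
  have hX2 : 2 ≤ X := by omega
  have hXr : (2 : ℝ) ≤ X := by exact_mod_cast hX2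
  have hX0 : (0 : ℝ) < X := by linarith
  set y := ⌊(X : ℝ) ^ δ⌋₊ with hy
  have hyle : (y : ℝ) ≤ (X : ℝ) ^ δ := Nat.floor_le (by positivity)
  have hylt : (X : ℝ) ^ δ < y + 1 := Nat.lt_floor_add_one _
  have hXδ : (X : ℝ) ^ δ = (X : ℝ) ^ (δ / 2) * (X : ℝ) ^ (δ / 2) := by
    rw [← Real.rpow_add hX0]
    congr 1
    ring
  have hy3 : 3 ≤ y := Nat.le_floor (by push_cast; rw [hXδ]; nlinarith)
  have hyr : (3 : ℝ) ≤ y := by exact_mod_cast hy3
  have hlogX : 0 < Real.log X := by linarith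
  have hlogy2 : δ / 2 * Real.log X ≤ Real.log y := by
    rw [← Real.log_rpow hX0]
    refine Real.log_le_log (by positivity) ?_
    nlinarith
  have hVy := hV y hy3
  have hVX : V y ≤ c2 / (δ / 2 * Real.log X) := hVy.trans (div_le_div_of_nonneg_left hc2.le (by positivity) hlogy2)
  have hVy0 : 0 ≤ V y := Finset.prod_nonneg fun p hp => (fac_pos (mem_pm.1 hp).2).1.le
  -- the number of exponents
  set L := Nat.log 2 X with hL
  set K := L / 2 with hK
  obtain ⟨hL2, hLlog, hLs, hL1⟩ := natlog X hX2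
  rw [← hL] at hL2 hLlog hLs hL1
  have hLK : K₀ ≤ K := by
    have : 2 * (K₀ + 1) ≤ L := by
      rw [hL]
      refine (Nat.le_log_iff_pow_le (by norm_num) (by omega)).2 ?_
      rw [pow_mul]
      norm_num
      omega
    omega
  have hKL : (K : ℝ) ≤ L / 2 := by
    rw [hK]
    exact Nat.cast_div_le
  have hKL2 : ((L : ℝ) - 1) / 2 ≤ K := by
    have : L ≤ 2 * K + 1 := by omega
    have : (L : ℝ) ≤ 2 * K + 1 := by exact_mod_cast this
    linarith
  have hLX : (L : ℝ) * 0.69 ≤ Real.log X := by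
    have e1 := Real.log_le_log (by positivity) hL2
    rw [Real.log_pow] at e1
    have : (0.69 : ℝ) ≤ Real.log 2 := by linarith [Real.log_two_gt_d9]
    have : (0 : ℝ) ≤ L := Nat.cast_nonneg _
    nlinarith
  have hKX : (K : ℝ) ≤ Real.log X := by
    have : (0 : ℝ) ≤ L := Nat.cast_nonneg _
    linarith
  have hK8 : Real.log X / 8 ≤ K := by linarith
  have hK0 : (0 : ℝ) < K := by linarith
  have h2K : (2 : ℝ) ^ K ≤ √(X : ℝ) := by
    rw [Real.le_sqrt (by positivity) hX0.le]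
    calc ((2 : ℝ) ^ K) ^ 2 = 2 ^ (K * 2) := by rw [← pow_mul]
      _ ≤ 2 ^ L := pow_le_pow_right₀ (by norm_num) (by omega)
      _ ≤ X := hL2
  have hKV : K * V y ≤ D := by
    calc K * V y ≤ Real.log X * (c2 / (δ / 2 * Real.log X)) := by gcongr
      _ = D := by rw [hD]; field_simp
  obtain ⟨hm1, hm2⟩ := hmom X a2 y hyle
  have hη : 2 * (1 / 2 : ℝ) ^ 20 ≤ 1 := by norm_num
  set g : ℕ → ℝ := fun n => ∑ k ∈ Icc 1 K, prm n k with hg
  have hylog : (K : ℝ) * K * (y + 1) ≤ X := by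
    have e1 : (X : ℝ) ^ δ ≤ (X : ℝ) ^ (1 / 4 : ℝ) := Real.rpow_le_rpow_of_exponent_le (by linarith) hδ1
    have e2 : (y : ℝ) + 1 ≤ 2 * (X : ℝ) ^ (1 / 4 : ℝ) := by
      have : (1 : ℝ) ≤ (X : ℝ) ^ (1 / 4 : ℝ) := Real.one_le_rpow (by linarith) (by norm_num)
      linarith
    have e3 := log_sq_le X (by linarith)
    set s := (X : ℝ) ^ (1 / 4 : ℝ) with hs
    have hs4 : s ^ 4 = X := by
      rw [hs, ← Real.rpow_natCast, ← Real.rpow_mul hX0.le]
      norm_num
    have hsx : √(X : ℝ) = s ^ 2 := by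
      rw [← hs4, show s ^ 4 = (s ^ 2) ^ 2 by ring, Real.sqrt_sq (by positivity)]
    have hs32 : 32 ≤ s := by
      have : (32 : ℝ) ^ 4 ≤ X := by
        have : 2 ^ 20 ≤ X := by omega
        have : ((2 ^ 20 : ℕ) : ℝ) ≤ X := by exact_mod_cast this
        norm_num at this ⊢
        exact this
      rw [← hs4] at this
      exact le_of_pow_le_pow_left₀ (n := 4) (by norm_num) (by positivity) this
    calc (K : ℝ) * K * (y + 1) ≤ Real.log X * Real.log X * (2 * s) := by gcongr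
      _ = (Real.log X) ^ 2 * (2 * s) := by ring
      _ ≤ 16 * s ^ 2 * (2 * s) := by rw [hsx] at e3; gcongr
      _ = 32 * s ^ 3 := by ring
      _ ≤ s * s ^ 3 := by gcongr
      _ = X := by rw [← hs4]; ring
  have hK1 : (1 : ℝ) ≤ K := by
    have : K ≠ 0 := by rintro h; rw [h] at hK0; simp at hK0
    exact_mod_cast Nat.one_le_iff_ne_zero.2 this
  show ∑ n ∈ range X, (g n) ^ 2 ≤ D2 * X
  have e1 : ∑ n ∈ range X, (g n) ^ 2 =
      ∑ k ∈ Icc 1 K, ∑ l ∈ Icc 1 K, ∑ n ∈ range X, prm n k * prm n l := by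
    have e2 : ∀ k ∈ Icc 1 K, ∑ l ∈ Icc 1 K, ∑ n ∈ range X, prm n k * prm n l =
        ∑ n ∈ range X, ∑ l ∈ Icc 1 K, prm n k * prm n l := fun k _ => Finset.sum_comm
    rw [Finset.sum_congr rfl e2, Finset.sum_comm]
    refine Finset.sum_congr rfl fun n _ => ?_
    rw [hg, sq, Finset.sum_mul_sum]
  have e3 : ∀ k ∈ Icc 1 K, ∑ l ∈ Icc 1 K, ∑ n ∈ range X, prm n k * prm n l ≤
      (2 * (X * V y) + (y + 1)) + (∑ l ∈ (Icc 1 K).erase k, ∑ n ∈ range X, ind (pm y) n k * ind (pm y) n l +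
        K * (y + 1)) := by
    intro k hk
    rw [← Finset.add_sum_erase _ _ hk]
    refine add_le_add ?_ ?_
    · have h1 : ∑ n ∈ range X, prm n k * prm n k = ∑ n ∈ range X, prm n k :=
        Finset.sum_congr rfl fun n _ => prm_mul_self n k
      rw [h1]
      refine (prm_sum_le X k y).trans ?_
      have h2 := (hm1 k).2
      have h3 : (1 + 2 * (1 / 2 : ℝ) ^ 20) * (X * V y) ≤ 2 * (X * V y) := by
        refine mul_le_mul_of_nonneg_right (by linarith) (by positivity)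
      linarith
    · refine (Finset.sum_le_sum fun l _ => prm_sum2_le X k l y).trans ?_
      rw [Finset.sum_add_distrib]
      gcongr
      rw [Finset.sum_const, nsmul_eq_mul]
      gcongr
      have := Finset.card_le_card (Finset.erase_subset k (Icc 1 K))
      rw [Nat.card_Icc, Nat.add_sub_cancel] at this
      exact this
  rw [e1]
  refine (Finset.sum_le_sum e3).trans ?_
  rw [Finset.sum_add_distrib, Finset.sum_const, Finset.sum_add_distrib, Finset.sum_const, Nat.card_Icc,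
    Nat.add_sub_cancel, nsmul_eq_mul, nsmul_eq_mul]
  have h4 := hm2 K hLK
  have h5 : (1 + 2 * (1 / 2 : ℝ) ^ 20) * (1 + 1) * (X * (K * V y) ^ 2) ≤ 4 * (X * D ^ 2) := by
    have h6 : X * (K * V y) ^ 2 ≤ X * D ^ 2 := by gcongr
    have h7 : (1 + 2 * (1 / 2 : ℝ) ^ 20) * (1 + 1) ≤ 4 := by linarith
    calc (1 + 2 * (1 / 2 : ℝ) ^ 20) * (1 + 1) * (X * (K * V y) ^ 2) ≤ 4 * (X * (K * V y) ^ 2) := by gcongr
      _ ≤ _ := by gcongr
  have h8 : (K : ℝ) * (2 * (X * V y) + (y + 1)) = 2 * X * (K * V y) + K * (y + 1) := by ring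
  have h9 : 2 * X * (K * V y) ≤ 2 * X * D := by gcongr
  have h10 : (K : ℝ) * (y + 1) ≤ K * K * (y + 1) := by
    have : (0 : ℝ) ≤ (y : ℝ) + 1 := by positivity
    nlinarith [mul_le_mul_of_nonneg_right hK1 (by positivity : (0 : ℝ) ≤ K * ((y : ℝ) + 1))]
  rw [h8]
  have h11 : (K : ℝ) * (K * (y + 1)) = K * K * (y + 1) := by ring
  rw [h11, hD2]
  nlinarith

end Pool.Agent.H78.RS
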