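import Pool.Agent.H78.RS.Prm
import Pool.Agent.H5.PNT.PNT

set_option autoImplicit false

/-!
# Primes `2 ^ k + m`, `k + m = n`, for a positive proportion of the `n` in each residue class
-/

namespace Pool.Agent.H78.RS

open Finset Pool.Agent.H2.WO Pool.Agent.H75.AP Pool.Agent.H5.PNT

theorem ind_sum_ge (P0 : Finset ℕ) (hP0 : ∀ p ∈ P0, p.Prime) (K : ℕ) (x : ℤ) :
    K * ∏ p ∈ P0, (1 - 1 / (p : ℝ)) - (∏ p ∈ P0, p * (p - 1) : ℕ) - 1 ≤ ∑ k ∈ Icc 1 K, ind P0 x k := by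
  classical
  set Q := ∏ p ∈ P0, p * (p - 1) with hQ
  have hQ0 : 0 < Q := Finset.prod_pos fun p hp => by
    have := (hP0 p hp).one_lt
    exact Nat.mul_pos (by omega) (by omega)
  set V0 := ∏ p ∈ P0, (1 - 1 / (p : ℝ)) with hV0
  have hV1 : V0 ≤ 1 := Finset.prod_le_one (fun p hp => (fac_pos (hP0 p hp)).1.le) fun p hp => (fac_pos (hP0 p hp)).2
  have hV00 : 0 ≤ V0 := Finset.prod_nonneg fun p hp => (fac_pos (hP0 p hp)).1.le
  have hper : ∀ k, (∀ p ∈ P0, ¬ Tk x p (k + Q)) ↔ (∀ p ∈ P0, ¬ Tk x p k) := by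
    intro k
    refine forall₂_congr fun p hp => ?_
    have h1 : Q = p * (p - 1) * ∏ x ∈ P0.erase p, x * (x - 1) := by
      rw [hQ, ← Finset.mul_prod_erase P0 _ hp]
    rw [h1]
    exact per_mul (R := fun k => ¬ Tk x p k) (cond_not ((sys_tk x).cond p (hP0 p hp))).per k _
  have hint := intervalN (R := fun k => ∀ p ∈ P0, ¬ Tk x p k) hQ0 hper (K + 1)
  have hsm := small (sys_tk x) P0 hP0
  rw [← hQ] at hsm
  simp only [Nat.cast_one] at hsm
  rw [← hV0] at hsm
  rw [hsm] at hint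
  have hQr : (1 : ℝ) ≤ Q := by exact_mod_cast hQ0
  have e1 : (((K + 1 : ℕ) : ℝ)) * ((Q : ℝ) * V0 / Q) = (K + 1) * V0 := by
    push_cast
    field_simp
  rw [e1] at hint
  have h2 := (abs_le.1 hint).1
  have h3 : (num (fun k => ∀ p ∈ P0, ¬ Tk x p k) (K + 1) : ℝ) ≤ ∑ k ∈ Icc 1 K, ind P0 x k + 1 := by
    have : ∑ k ∈ Icc 1 K, ind P0 x k =
        (((Icc 1 K).filter (fun k => ∀ p ∈ P0, ¬ (p : ℤ) ∣ x + b k)).card : ℝ) := by
      rw [Finset.card_filter]
      push_cast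
      rfl
    rw [this, ← num_eq]
    have h4 : (range (K + 1)).filter (fun k => ∀ p ∈ P0, ¬ Tk x p k) ⊆
        insert 0 ((Icc 1 K).filter (fun k => ∀ p ∈ P0, ¬ (p : ℤ) ∣ x + b k)) := by
      intro k hk
      rw [mem_filter, mem_range] at hk
      rw [mem_insert, mem_filter, mem_Icc]
      rcases Nat.eq_zero_or_pos k with h0 | h0
      · exact Or.inl h0
      · refine Or.inr ⟨⟨h0, by omega⟩, fun p hp h => hk.2 p hp ((tk_iff x h0).2 ?_)⟩
        unfold b at h
        rwa [← add_sub_assoc] at h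
    exact_mod_cast (card_le_card h4).trans (card_insert_le _ _)
  have h4 : (Q : ℝ) * V0 ≤ Q := by nlinarith
  nlinarith

theorem unit_of (q : ℕ) (hq : q ≠ 0) (m : ℤ) (h : ∀ p ∈ q.primeFactors, ¬ (p : ℤ) ∣ m) : IsUnit (m : ZMod q) := by
  rw [ZMod.coe_int_isUnit_iff_isCoprime, Int.isCoprime_iff_gcd_eq_one]
  by_contra h1
  obtain ⟨p, hp, hd⟩ := Nat.exists_prime_and_dvd h1
  have h2 : (p : ℤ) ∣ (q : ℤ) ∧ (p : ℤ) ∣ m := by
    have h3 : (p : ℤ) ∣ (Int.gcd (q : ℤ) m : ℤ) := Int.natCast_dvd_natCast.2 hd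
    exact ⟨h3.trans (Int.gcd_dvd_left _ _), h3.trans (Int.gcd_dvd_right _ _)⟩
  exact h p (Nat.mem_primeFactors.2 ⟨hp, Int.natCast_dvd_natCast.1 h2.1, hq⟩) h2.2

theorem prm_ap_ge (q : ℕ) (a : ZMod q) (N k : ℕ) :
    ((primesIn q (a + (b k : ZMod q)) (N : ℝ)).card : ℝ) - 2 ^ k ≤
      ∑ n ∈ (range (N + 1)).filter (fun n : ℕ => (n : ZMod q) = a), prm n k := by
  classical
  have h1 : ∑ n ∈ (range (N + 1)).filter (fun n : ℕ => (n : ZMod q) = a), prm n k =
      ((((range (N + 1)).filter (fun n : ℕ => (n : ZMod q) = a)).filter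
        (fun n => (n + (2 ^ k - k)).Prime)).card : ℝ) := by
    rw [Finset.card_filter]
    push_cast
    rfl
  have h2 : (primesIn q (a + (b k : ZMod q)) (N : ℝ)).card ≤ 2 ^ k +
      (((range (N + 1)).filter (fun n : ℕ => (n : ZMod q) = a)).filter (fun n => (n + (2 ^ k - k)).Prime)).card := by
    have h3 : primesIn q (a + (b k : ZMod q)) (N : ℝ) ⊆ range (2 ^ k - k) ∪
        (((range (N + 1)).filter (fun n : ℕ => (n : ZMod q) = a)).filter
          (fun n => (n + (2 ^ k - k)).Prime)).image (fun n => n + (2 ^ k - k)) := by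
      intro r hr
      unfold primesIn at hr
      rw [mem_filter, mem_Icc, Nat.floor_natCast] at hr
      rw [mem_union, mem_range, mem_image]
      by_cases h4 : r < 2 ^ k - k
      · exact Or.inl h4
      right
      refine ⟨r - (2 ^ k - k), ?_, by omega⟩
      rw [mem_filter, mem_filter, mem_range]
      refine ⟨⟨by omega, ?_⟩, ?_⟩
      · have h5 : ((r - (2 ^ k - k) : ℕ) : ZMod q) + (b k : ZMod q) = (r : ZMod q) := by
          have h6 := bn_cast (r - (2 ^ k - k)) k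
          rw [Nat.sub_add_cancel (by omega)] at h6
          have h7 := congrArg (Int.cast : ℤ → ZMod q) h6
          push_cast at h7
          rw [h7]
        rw [hr.2.2] at h5
        exact add_right_cancel h5
      · rw [Nat.sub_add_cancel (by omega)]
        exact hr.2.1
    refine (card_le_card h3).trans ((card_union_le _ _).trans ?_)
    rw [card_range]
    exact add_le_add (Nat.sub_le _ _) card_image_le
  rw [h1, sub_le_iff_le_add']
  exact_mod_cast h2

theorem first_ap (q : ℕ) [NeZero q] (a : ℤ) : ∃ c : ℝ, 0 < c ∧ ∃ N₁ : ℕ, ∀ N : ℕ, N₁ ≤ N →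
    c * N ≤ ∑ n ∈ (range (N + 1)).filter (fun n : ℕ => (n : ZMod q) = a),
      ∑ k ∈ Icc 1 (Nat.log 2 (N + 1) / 2), prm n k := by
  classical
  have hq0 : q ≠ 0 := NeZero.ne q
  set φ : ℝ := (q.totient : ℝ) with hφ
  have hφ0 : 0 < φ := by rw [hφ]; exact_mod_cast Nat.totient_pos.2 (Nat.pos_of_ne_zero hq0)
  set P0 := q.primeFactors with hP0
  have hP0p : ∀ p ∈ P0, p.Prime := fun p hp => Nat.prime_of_mem_primeFactors hp
  set V0 := ∏ p ∈ P0, (1 - 1 / (p : ℝ)) with hV0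
  have hV00 : 0 < V0 := Finset.prod_pos fun p hp => (fac_pos (hP0p p hp)).1
  set Q0 : ℕ := ∏ p ∈ P0, p * (p - 1) with hQ0
  refine ⟨V0 / (64 * φ), by positivity, ?_⟩
  -- eventually
  have hpi : ∀ᶠ N : ℕ in Filter.atTop, ∀ c : ZMod q, IsUnit c →
      (N : ℝ) / (2 * φ * Real.log N) ≤ ((primesIn q c (N : ℝ)).card : ℝ) := by
    rw [Filter.eventually_all]
    intro c
    by_cases hc : IsUnit c
    swap
    · exact Filter.Eventually.of_forall fun N h => absurd h hc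
    have h1 := (pi_ap q c hc).comp tendsto_natCast_atTop_atTop
    have h2 : (2 * φ)⁻¹ < (q.totient : ℝ)⁻¹ := by
      rw [← hφ]
      exact inv_strictAnti₀ hφ0 (by linarith)
    filter_upwards [h1.eventually_const_lt h2, Filter.eventually_ge_atTop 3] with N h3 h4 _
    have hN3 : (3 : ℝ) ≤ N := by exact_mod_cast h4
    have hlog : 0 < Real.log N := Real.log_pos (by linarith)
    rw [Function.comp_apply, lt_div_iff₀ (by linarith)] at h3
    rw [div_le_iff₀ (by positivity)]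
    have h5 : (2 * φ)⁻¹ * N * (2 * φ) = N := by field_simp
    nlinarith [mul_le_mul_of_nonneg_right h3.le (by positivity : (0 : ℝ) ≤ 2 * φ)]
  have hev : ∀ᶠ N : ℕ in Filter.atTop, 3 ≤ N ∧ (4 : ℝ) ≤ Real.log ((N + 1 : ℕ) : ℝ) ∧
      16 * ((Q0 : ℝ) + 1) / V0 ≤ Real.log ((N + 1 : ℕ) : ℝ) ∧ 8 * φ * (16 * 4) ≤ ((N + 1 : ℕ) : ℝ) ^ (1 / 4 : ℝ) := by
    have t1 : Filter.Tendsto (fun N : ℕ => ((N + 1 : ℕ) : ℝ)) Filter.atTop Filter.atTop :=
      tendsto_natCast_atTop_atTop.comp (Filter.tendsto_add_atTop_nat 1)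
    have t2 := Real.tendsto_log_atTop.comp t1
    have t3 := (tendsto_rpow_atTop (by norm_num : (0 : ℝ) < 1 / 4)).comp t1
    filter_upwards [Filter.eventually_ge_atTop 3, t2.eventually_ge_atTop 4,
      t2.eventually_ge_atTop (16 * ((Q0 : ℝ) + 1) / V0), t3.eventually_ge_atTop (8 * φ * (16 * 4))] with N h1 h2 h3 h4
    exact ⟨h1, h2, h3, h4⟩
  obtain ⟨N₁, hN₁⟩ := Filter.eventually_atTop.1 (hpi.and hev)
  refine ⟨N₁, fun N hN => ?_⟩
  obtain ⟨hpi', hN3, h4, hQ, hx4⟩ := hN₁ N hN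
  set X : ℕ := N + 1 with hX
  set K := Nat.log 2 X / 2 with hK
  have hX2 : 2 ≤ X := by omega
  have hXr : (4 : ℝ) ≤ X := by exact_mod_cast (by omega : 4 ≤ X)
  have hX0 : (0 : ℝ) < X := by linarith
  have hNr : (N : ℝ) = X - 1 := by rw [hX]; push_cast; ring
  obtain ⟨hL2, hLlog, hLs, hL1⟩ := natlog X hX2
  set L := Nat.log 2 X with hL
  have hKL2 : ((L : ℝ) - 1) / 2 ≤ K := by
    have : L ≤ 2 * K + 1 := by omega
    have : (L : ℝ) ≤ 2 * K + 1 := by exact_mod_cast this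
    linarith
  have hK8 : Real.log X / 8 ≤ K := by linarith
  have hK0 : (0 : ℝ) < K := by linarith
  have h2K : (2 : ℝ) ^ K ≤ √(X : ℝ) := by
    rw [Real.le_sqrt (by positivity) hX0.le]
    calc ((2 : ℝ) ^ K) ^ 2 = 2 ^ (K * 2) := by rw [← pow_mul]
      _ ≤ 2 ^ L := pow_le_pow_right₀ (by norm_num) (by omega)
      _ ≤ X := hL2
  have hlogX : 0 < Real.log X := by linarith
  -- the bound for one exponent
  have hone : ∀ k ∈ Icc 1 K, ind P0 a k * ((N : ℝ) / (4 * φ * Real.log X)) ≤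
      ∑ n ∈ (range X).filter (fun n : ℕ => (n : ZMod q) = a), prm n k := by
    intro k hk
    rw [mem_Icc] at hk
    by_cases h5 : ∀ p ∈ P0, ¬ (p : ℤ) ∣ a + b k
    · have h6 : ind P0 a k = 1 := by unfold ind; rw [if_pos h5]
      rw [h6, one_mul]
      refine le_trans ?_ (prm_ap_ge q (a : ZMod q) N k)
      have h7 : IsUnit ((a : ZMod q) + (b k : ZMod q)) := by
        have := unit_of q hq0 (a + b k) h5
        push_cast at this
        exact this
      have h8 := hpi' _ h7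
      have h9 : (2 : ℝ) ^ k ≤ √(X : ℝ) := (pow_le_pow_right₀ (by norm_num) hk.2).trans h2K
      have hlogN : 0 < Real.log N := Real.log_pos (by rw [hNr]; linarith)
      have hlogNX : Real.log N ≤ Real.log X := Real.log_le_log (by rw [hNr]; linarith) (by rw [hNr]; linarith)
      have h10 : (N : ℝ) / (2 * φ * Real.log X) ≤ (N : ℝ) / (2 * φ * Real.log N) := by gcongr
      have h11 : √(X : ℝ) ≤ (N : ℝ) / (4 * φ * Real.log X) := by
        rw [le_div_iff₀ (by positivity)]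
        set s := (X : ℝ) ^ (1 / 4 : ℝ) with hs
        have hs0 : 0 < s := by positivity
        have hs4 : s ^ 4 = X := by
          rw [hs, ← Real.rpow_natCast, ← Real.rpow_mul hX0.le]
          norm_num
        have hsx : √(X : ℝ) = s ^ 2 := by
          rw [← hs4, show s ^ 4 = (s ^ 2) ^ 2 by ring, Real.sqrt_sq (by positivity)]
        have hl : Real.log X ≤ 4 * s := by
          rw [← hs4, Real.log_pow]
          have := Real.log_le_sub_one_of_pos hs0
          push_cast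
          linarith
        have hN2 : (X : ℝ) / 2 ≤ N := by rw [hNr]; linarith
        rw [hsx]
        calc s ^ 2 * (4 * φ * Real.log X) ≤ s ^ 2 * (4 * φ * (4 * s)) := by gcongr
          _ = (16 * φ) * s ^ 3 := by ring
          _ ≤ (s / 2) * s ^ 3 := by
              gcongr
              nlinarith
          _ = X / 2 := by rw [← hs4]; ring
          _ ≤ N := hN2
      have h12 : (N : ℝ) / (2 * φ * Real.log X) = 2 * ((N : ℝ) / (4 * φ * Real.log X)) := by field_simp; norm_num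
      linarith
    · have h6 : ind P0 a k = 0 := by unfold ind; rw [if_neg h5]
      rw [h6, zero_mul]
      exact Finset.sum_nonneg fun n _ => prm_nonneg n k
  rw [Finset.sum_comm]
  refine le_trans ?_ (Finset.sum_le_sum hone)
  rw [← Finset.sum_mul]
  have h5 := ind_sum_ge P0 hP0p K a
  rw [← hV0, ← hQ0] at h5
  have h6 : K * V0 / 2 ≤ ∑ k ∈ Icc 1 K, ind P0 a k := by
    have h7 : 2 * ((Q0 : ℝ) + 1) ≤ K * V0 := by
      rw [div_le_iff₀ hV00] at hQ
      nlinarith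
    linarith
  have h7 : 0 ≤ (N : ℝ) / (4 * φ * Real.log X) := by positivity
  refine le_trans ?_ (mul_le_mul_of_nonneg_right h6 h7)
  have h8 : Real.log X / 8 * V0 / 2 * ((N : ℝ) / (4 * φ * Real.log X)) ≤
      K * V0 / 2 * ((N : ℝ) / (4 * φ * Real.log X)) := by gcongr
  refine le_trans (le_of_eq ?_) (h8)
  field_simp
  ring

/-- a positive proportion of the `n` in each residue class has a good representation -/
theorem part1 (q : ℕ) (hq : 1 ≤ q) (a : ℤ) : ∃ c : ℝ, 0 < c ∧ ∃ N₀ : ℕ, ∀ N : ℕ, N₀ ≤ N →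
    c * N ≤ ({n : ℕ | 1 < n ∧ n ≤ N ∧ (n : ℤ) ≡ a [ZMOD q] ∧ Good n}.ncard : ℝ) := by
  classical
  have : NeZero q := ⟨by omega⟩
  obtain ⟨D2, hD20, X₁, hsec⟩ := second_prm
  obtain ⟨c, hc, N₁, hfir⟩ := first_ap q a
  refine ⟨c ^ 2 / (4 * D2), by positivity, ?_⟩
  have hev : ∀ᶠ N : ℕ in Filter.atTop, X₁ ≤ N ∧ N₁ ≤ N ∧ 3 ≤ N ∧ (32 * D2 / c ^ 2) ^ 2 ≤ (N : ℝ) := by
    filter_upwards [Filter.eventually_ge_atTop X₁, Filter.eventually_ge_atTop N₁, Filter.eventually_ge_atTop 3,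
      tendsto_natCast_atTop_atTop.eventually_ge_atTop ((32 * D2 / c ^ 2) ^ 2)] with N h1 h2 h3 h4
    exact ⟨h1, h2, h3, h4⟩
  obtain ⟨N₀, hN₀⟩ := Filter.eventually_atTop.1 hev
  refine ⟨N₀, fun N hN => ?_⟩
  obtain ⟨a1, a2, a3, a5⟩ := hN₀ N hN
  set X : ℕ := N + 1 with hX
  set L := Nat.log 2 X with hL
  set K := L / 2 with hK
  have hX2 : 2 ≤ X := by omega
  obtain ⟨hL2, hLlog, hLs, hL1⟩ := natlog X hX2
  rw [← hL] at hL2 hLlog hLs hL1
  set g : ℕ → ℝ := fun n => ∑ k ∈ Icc 1 K, prm n k with hg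
  have hsecond : ∑ n ∈ range X, (g n) ^ 2 ≤ D2 * X := hsec X (by omega)
  have hfirst : c * N ≤ ∑ n ∈ (range X).filter (fun n : ℕ => (n : ZMod q) = (a : ZMod q)), g n := hfir N a2
  have hN0 : (0 : ℝ) < N := by exact_mod_cast (by omega : 0 < N)
  have hN3 : (3 : ℝ) ≤ N := by exact_mod_cast a3
  have hXN : (X : ℝ) = N + 1 := by rw [hX]; push_cast; ring
  have hX2N : (X : ℝ) ≤ 2 * N := by rw [hXN]; linarith
  have hX0 : (0 : ℝ) < X := by linarith
  set R := (range X).filter (fun n : ℕ => (n : ZMod q) = (a : ZMod q)) with hR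
  set S := R.filter (fun n => g n ≠ 0) with hS
  have hCS : (∑ n ∈ R, g n) ^ 2 ≤ S.card * (D2 * X) := by
    have e1 : ∑ n ∈ R, g n = ∑ n ∈ S, g n * 1 := by
      simp only [mul_one]
      rw [hS]
      exact (Finset.sum_filter_ne_zero R).symm
    rw [e1]
    have h1 := Finset.sum_mul_sq_le_sq_mul_sq S g (fun _ => (1 : ℝ))
    refine h1.trans ?_
    rw [Finset.sum_const, one_pow, nsmul_eq_mul, mul_one, mul_comm]
    gcongr
    refine (Finset.sum_le_sum_of_subset_of_nonneg ?_ fun n _ _ => sq_nonneg _).trans hsecond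
    exact (Finset.filter_subset _ _).trans (Finset.filter_subset _ _)
  have hSlow : c ^ 2 * N / (2 * D2) ≤ S.card := by
    have h1 : (c * N) ^ 2 ≤ S.card * (D2 * X) := by
      refine le_trans ?_ hCS
      gcongr
    have h3 : (c * N) ^ 2 ≤ S.card * (D2 * (2 * N)) := h1.trans (by gcongr)
    rw [div_le_iff₀ (by positivity)]
    have h4 : (N : ℝ) * (c ^ 2 * N) ≤ N * (S.card * (2 * D2)) := by nlinarith
    exact le_of_mul_le_mul_left h4 hN0
  have hfinal : S.card ≤ {n : ℕ | 1 < n ∧ n ≤ N ∧ (n : ℤ) ≡ a [ZMOD q] ∧ Good n}.ncard + (L + 1) := by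
    have hfin : ({n : ℕ | 1 < n ∧ n ≤ N ∧ (n : ℤ) ≡ a [ZMOD q] ∧ Good n} ∪ ↑(range (L + 1)) : Set ℕ).Finite :=
      ((Set.finite_le_nat N).subset fun n hn => hn.2.1).union (Finset.finite_toSet _)
    have h1 : (S : Set ℕ) ⊆ {n : ℕ | 1 < n ∧ n ≤ N ∧ (n : ℤ) ≡ a [ZMOD q] ∧ Good n} ∪ ↑(range (L + 1)) := by
      intro n hn
      rw [Finset.mem_coe, hS, mem_filter, hR, mem_filter, mem_range] at hn
      rw [Set.mem_union, Finset.mem_coe, mem_range]
      by_cases hnL : n < L + 1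
      · exact Or.inr hnL
      left
      obtain ⟨k, hk, hkn⟩ := Finset.exists_ne_zero_of_sum_ne_zero hn.2
      rw [mem_Icc] at hk
      unfold prm at hkn
      split_ifs at hkn with h2
      · have hmod : (n : ℤ) ≡ a [ZMOD q] := by
          rw [← ZMod.intCast_eq_intCast_iff]
          push_cast
          exact hn.1.2
        refine ⟨by omega, by omega, hmod, k, n - k, hk.1, by omega, by omega, ?_⟩
        have h3 : k ≤ 2 ^ k := Nat.lt_two_pow_self.le
        have h4 : 2 ^ k + (n - k) = n + (2 ^ k - k) := by omega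
        rw [h4]
        exact h2
      · exact absurd rfl hkn
    have h2 := Set.ncard_le_ncard h1 hfin
    rw [Set.ncard_coe_finset] at h2
    refine h2.trans ((Set.ncard_union_le _ _).trans ?_)
    rw [Set.ncard_coe_finset, card_range]
  have hfr : (S.card : ℝ) ≤ ({n : ℕ | 1 < n ∧ n ≤ N ∧ (n : ℤ) ≡ a [ZMOD q] ∧ Good n}.ncard : ℝ) + (L + 1) := by
    exact_mod_cast hfinal
  have hLsmall : (L : ℝ) + 1 ≤ c ^ 2 / (4 * D2) * N := by
    refine hLs.trans ?_
    have h1 : √(X : ℝ) * √(X : ℝ) = X := Real.mul_self_sqrt hX0.le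
    have h3 : 32 * D2 / c ^ 2 ≤ √(X : ℝ) := by
      rw [Real.le_sqrt (by positivity) hX0.le]
      linarith
    rw [div_le_iff₀ (by positivity)] at h3
    have h4 : √(X : ℝ) * (32 * D2) ≤ 2 * N * c ^ 2 := by
      calc √(X : ℝ) * (32 * D2) ≤ √(X : ℝ) * (√(X : ℝ) * c ^ 2) := by gcongr
        _ = √(X : ℝ) * √(X : ℝ) * c ^ 2 := by ring
        _ = X * c ^ 2 := by rw [h1]
        _ ≤ 2 * N * c ^ 2 := by gcongr
    rw [div_mul_eq_mul_div, le_div_iff₀ (by positivity)]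
    nlinarith
  have h12 : c ^ 2 * N / (2 * D2) = c ^ 2 / (4 * D2) * N + c ^ 2 / (4 * D2) * N := by field_simp; norm_num
  linarith

end Pool.Agent.H78.RS
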