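import Pool.Agent.H78.RS.Alm

set_option autoImplicit false

/-!
# Every `n`: values `2 ^ k + m`, `k + m = n`, without small prime factors
-/

namespace Pool.Agent.H78.RS

open Finset Pool.Agent.H2.WO Pool.Agent.H75.AP

theorem V_anti {y z : ℕ} (h : y ≤ z) : V z ≤ V y := by
  have hsub : pm y ⊆ pm z := fun p hp => mem_pm.2 ⟨(mem_pm.1 hp).1.trans h, (mem_pm.1 hp).2⟩
  unfold V
  rw [← Finset.prod_sdiff hsub]
  refine mul_le_of_le_one_left (Finset.prod_nonneg fun p hp => (fac_pos (mem_pm.1 hp).2).1.le) ?_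
  exact Finset.prod_le_one (fun p hp => (fac_pos (mem_pm.1 (mem_sdiff.1 hp).1).2).1.le)
    fun p hp => (fac_pos (mem_pm.1 (mem_sdiff.1 hp).1).2).2

theorem part3 (ε : ℝ) (hε : 0 < ε) : ∃ δ : ℝ, 0 < δ ∧ ∃ X₀ : ℕ, ∀ X n : ℕ, X₀ ≤ X → X ≤ n → ∀ y : ℕ,
    (y : ℝ) ≤ (X : ℝ) ^ δ →
      |({k : ℕ | 0 < k ∧ k < X ∧ ∀ p : ℕ, p.Prime → p ≤ y → ¬ p ∣ 2 ^ k + (n - k)}.ncard : ℝ) -
        X * ∏ p ∈ (range (y + 1)).filter Nat.Prime, (1 - 1 / (p : ℝ))| ≤
      ε * (X * ∏ p ∈ (range (y + 1)).filter Nat.Prime, (1 - 1 / (p : ℝ))) := by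
  obtain ⟨B0, hB0⟩ := exists_pow_lt_of_lt_one (by positivity : 0 < ε / 4) (by norm_num : (1 / 2 : ℝ) < 1)
  set B := max 10 B0 with hB
  have hBε : (1 / 2 : ℝ) ^ B ≤ ε / 4 :=
    (pow_le_pow_of_le_one (by norm_num) (by norm_num) (le_max_right _ _)).trans hB0.le
  obtain ⟨X₀, hX₀, h⟩ := gmain 1 le_rfl B (by rw [hB]; omega)
  obtain ⟨c, hc, hV⟩ := V_low
  have hδ0 := dlt_pos B
  have hδ1 : dlt B ≤ 1 := by
    unfold dlt
    rw [div_le_one (by positivity)]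
    have : (0 : ℝ) ≤ B := Nat.cast_nonneg _
    linarith
  have hev : ∀ᶠ X : ℕ in Filter.atTop, 3 ≤ X ∧ 4 / (ε * c) ≤ √(X : ℝ) := by
    have h1 : Filter.Tendsto (fun X : ℕ => √(X : ℝ)) Filter.atTop Filter.atTop :=
      Real.tendsto_sqrt_atTop.comp tendsto_natCast_atTop_atTop
    filter_upwards [Filter.eventually_ge_atTop 3, h1.eventually_ge_atTop (4 / (ε * c))] with X h2 h3
    exact ⟨h2, h3⟩
  obtain ⟨X₁, hX₁⟩ := Filter.eventually_atTop.1 hev
  refine ⟨dlt B, hδ0, max X₀ X₁, fun X n hX hXn y hy => ?_⟩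
  obtain ⟨hX3, hXs⟩ := hX₁ X ((le_max_right _ _).trans hX)
  have hXr : (3 : ℝ) ≤ X := by exact_mod_cast hX3
  have h1 := h _ _ (sys_tk n) X ((le_max_left _ _).trans hX) y hy
  simp only [Nat.cast_one] at h1
  have e0 : ∏ p ∈ (range (y + 1)).filter Nat.Prime, (1 - 1 / (p : ℝ)) = V y := rfl
  have e1 : ∏ p ∈ pm y, (1 - 1 / (p : ℝ)) = V y := rfl
  rw [e0]
  rw [e1] at h1
  -- lower bound for the main term
  have hyX : y ≤ X := by
    have : (y : ℝ) ≤ X := hy.trans (by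
      calc (X : ℝ) ^ dlt B ≤ (X : ℝ) ^ (1 : ℝ) := Real.rpow_le_rpow_of_exponent_le (by linarith) hδ1
        _ = X := Real.rpow_one _)
    exact_mod_cast this
  have hlogX : 0 < Real.log X := Real.log_pos (by linarith)
  have hVX : c / Real.log X ≤ V y := (hV X hX3).trans (V_anti hyX)
  have hmain : 1 ≤ ε / 2 * (X * V y) := by
    have h2 : Real.log X ≤ 2 * √(X : ℝ) := log_le_two_sqrt (by linarith)
    have hs : 0 < √(X : ℝ) := Real.sqrt_pos.2 (by linarith)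
    have hss : √(X : ℝ) * √(X : ℝ) = X := Real.mul_self_sqrt (by linarith)
    have h3 : c / (2 * √(X : ℝ)) ≤ V y := (div_le_div_of_nonneg_left hc.le hlogX h2).trans hVX
    have h4 : √(X : ℝ) * (c / 2) ≤ X * V y := by
      calc √(X : ℝ) * (c / 2) = X * (c / (2 * √(X : ℝ))) := by
            have : (X : ℝ) * (c / (2 * √(X : ℝ))) = √(X : ℝ) * √(X : ℝ) * (c / (2 * √(X : ℝ))) := by rw [hss]
            rw [this]
            field_simp
        _ ≤ X * V y := by gcongr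
    rw [div_le_iff₀ (by positivity)] at hXs
    nlinarith
  -- comparison of the counts
  set A := {k : ℕ | 0 < k ∧ k < X ∧ ∀ p : ℕ, p.Prime → p ≤ y → ¬ p ∣ 2 ^ k + (n - k)} with hA
  set A' := {k : ℕ | k < X ∧ ∀ p ∈ pm y, ¬ Tk n p k} with hA'
  have hfinA' : A'.Finite := (Set.finite_lt_nat X).subset fun k hk => hk.1
  have hiff : ∀ k, 0 < k → k < X → ((∀ p : ℕ, p.Prime → p ≤ y → ¬ p ∣ 2 ^ k + (n - k)) ↔
      ∀ p ∈ pm y, ¬ Tk n p k) := by
    intro k hk hkX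
    have hc : (((2 ^ k + (n - k) : ℕ)) : ℤ) = n + 2 ^ k - k := by
      push_cast [Nat.cast_sub (show k ≤ n by omega)]
      ring
    constructor
    · intro h2 p hp h3
      rw [mem_pm] at hp
      refine h2 p hp.2 hp.1 ?_
      have := (tk_iff n hk).1 h3
      rw [← hc] at this
      exact_mod_cast this
    · intro h2 p hp hpy h3
      refine h2 p (mem_pm.2 ⟨hpy, hp⟩) ((tk_iff n hk).2 ?_)
      rw [← hc]
      exact_mod_cast h3
  have hsub1 : A ⊆ A' := fun k hk => ⟨hk.2.1, (hiff k hk.1 hk.2.1).1 hk.2.2⟩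
  have hsub2 : A' ⊆ A ∪ {0} := by
    intro k hk
    rcases Nat.eq_zero_or_pos k with h0 | h0
    · exact Or.inr h0
    · exact Or.inl ⟨h0, hk.1, (hiff k h0 hk.1).2 hk.2⟩
  have hc1 : A.ncard ≤ A'.ncard := Set.ncard_le_ncard hsub1 hfinA'
  have hc2 : A'.ncard ≤ A.ncard + 1 := by
    refine (Set.ncard_le_ncard hsub2 ((hfinA'.subset hsub1).union (Set.finite_singleton _))).trans ?_
    refine (Set.ncard_union_le _ _).trans ?_
    rw [Set.ncard_singleton]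
  have hc1r : (A.ncard : ℝ) ≤ A'.ncard := by exact_mod_cast hc1
  have hc2r : (A'.ncard : ℝ) ≤ A.ncard + 1 := by exact_mod_cast hc2
  have hnum : (num (fun k => ∀ p ∈ pm y, ¬ Tk n p k) X : ℝ) = A'.ncard := rfl
  rw [hnum, abs_le] at h1
  have hXV : 0 ≤ X * V y := by nlinarith
  have h5 : 2 * (1 / 2 : ℝ) ^ B * (X * V y) ≤ ε / 2 * (X * V y) := by
    refine mul_le_mul_of_nonneg_right (by linarith) hXV
  rw [abs_le]
  constructor <;> linarith [h1.1, h1.2]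

end Pool.Agent.H78.RS
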