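import Pool.Agent.H2.WO.Main
import Pool.Agent.H78.RS.Gen

set_option autoImplicit false

/-!
# The conditions for the shifts `2 ^ k - k`
-/

namespace Pool.Agent.H78.RS

open Finset Pool.Agent.H2.WO

/-- the conditions `p ∣ n + c` for some `c ∈ C`, as conditions on `n` -/
theorem sys_lin (C : Finset ℤ) : Sys (Hit 1 C) (nu C) C.card :=
  ⟨fun _ hp => cond_hit C hp fun h => hp.one_lt.ne' (Nat.dvd_one.1 h), nu_le C,
    fun _ hp => nu_le_self C hp.pos⟩

theorem hit_one (C : Finset ℤ) (p n : ℕ) : Hit 1 C p n ↔ ∃ c ∈ C, (p : ℤ) ∣ (n : ℤ) + c := by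
  unfold Hit
  simp

theorem nu_single (c : ℤ) (p : ℕ) : nu {c} p = 1 := by
  unfold nu
  simp

theorem nu_pair (c d : ℤ) (p : ℕ) : nu {c, d} p = if (p : ℤ) ∣ c - d then 1 else 2 := by
  unfold nu
  rw [coe_insert, coe_singleton, Set.image_pair]
  split_ifs with h
  · have : (c : ZMod p) = d := by
      rw [← sub_eq_zero]
      exact_mod_cast (ZMod.intCast_zmod_eq_zero_iff_dvd (c - d) p).2 h
    rw [this, Set.pair_eq_singleton, Set.ncard_singleton]
  · rw [Set.ncard_pair]
    intro h2
    apply h
    rw [← ZMod.intCast_zmod_eq_zero_iff_dvd]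
    push_cast
    rw [h2, sub_self]

/-- for `k ≥ 1`: `p ∣ x + 2 ^ k - k`, as a condition on `k` -/
def Tk (x : ℤ) (p k : ℕ) : Prop :=
  (x : ZMod p) + (if p = 2 then 0 else (2 : ZMod p) ^ k) - k = 0

theorem tk_iff (x : ℤ) {p k : ℕ} (hk : 1 ≤ k) : Tk x p k ↔ (p : ℤ) ∣ x + 2 ^ k - k := by
  unfold Tk
  rw [← ZMod.intCast_zmod_eq_zero_iff_dvd]
  push_cast
  split_ifs with h
  · subst h
    have : (2 : ZMod 2) = 0 := rfl
    rw [this, zero_pow (by omega)]
  · rfl

theorem lin {p : ℕ} [Fact p.Prime] (m c : ZMod p) (hm : m ≠ 0) :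
    ({j ∈ range p | c + m * (j : ZMod p) = 0} : Set ℕ).ncard = 1 := by
  have h : ({j ∈ range p | c + m * (j : ZMod p) = 0} : Set ℕ) = {((-c) * m⁻¹ : ZMod p).val} := by
    ext j
    simp only [Set.mem_ofPred_eq, Finset.mem_range, Set.mem_singleton_iff]
    constructor
    · rintro ⟨hj, h⟩
      have h1 : (-c) * m⁻¹ = (j : ZMod p) := by
        have : -c = m * (j : ZMod p) := by linear_combination -h
        rw [this]
        field_simp
      rw [h1]
      exact (ZMod.val_natCast_of_lt hj).symm
    · rintro rfl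
      refine ⟨ZMod.val_lt _, ?_⟩
      rw [ZMod.natCast_val, ZMod.cast_id]
      field_simp
      ring
  rw [h, Set.ncard_singleton]

theorem sys_tk (x : ℤ) : Sys (Tk x) (fun _ => 1) 1 := by
  refine ⟨fun p hp => ?_, fun _ => le_rfl, fun p hp => hp.pos⟩
  have := Fact.mk hp
  have hp0 : ((p : ℕ) : ZMod p) = 0 := by simp
  refine ⟨fun k => ?_, fun M u hM hc => ?_⟩
  · unfold Tk
    split_ifs with h
    · push_cast
      rw [hp0]
      simp
    · have h1 := pow_shift (b := 2) hp (fun h2 => h ((Nat.prime_dvd_prime_iff_eq hp Nat.prime_two).1 h2))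
        (M := p * (p - 1)) (dvd_mul_left _ _) k 1
      push_cast at h1
      rw [mul_one] at h1
      push_cast
      rw [h1, hp0]
      simp
  · have hM0 : (M : ZMod p) ≠ 0 := fun h => by
      have h1 := (ZMod.natCast_eq_zero_iff M p).1 h
      have h2 := Nat.dvd_gcd h1 (dvd_refl p)
      rw [hc] at h2
      exact hp.one_lt.ne' (Nat.dvd_one.1 h2)
    unfold Tk
    by_cases h : p = 2
    · simp only [h, if_true]
      subst h
      rw [← lin (-(M : ZMod 2)) ((x : ZMod 2) - u) (neg_ne_zero.2 hM0)]
      congr 1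
      ext j
      simp only [Set.mem_ofPred_eq]
      refine and_congr_right fun _ => ?_
      push_cast
      constructor
      · intro h
        linear_combination h
      · intro h
        linear_combination h
    · simp only [h, if_false]
      rw [← lin (-(M : ZMod p)) ((x : ZMod p) + 2 ^ u - u) (neg_ne_zero.2 hM0)]
      congr 1
      ext j
      simp only [Set.mem_ofPred_eq]
      refine and_congr_right fun _ => ?_
      have h1 := pow_shift (b := 2) hp (fun h2 => h ((Nat.prime_dvd_prime_iff_eq hp Nat.prime_two).1 h2)) hM u j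
      push_cast at h1
      rw [h1]
      push_cast
      constructor
      · intro h
        linear_combination h
      · intro h
        linear_combination h

end Pool.Agent.H78.RS
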