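import Pool.Agent.H78.RS.AvgG
import Pool.Agent.H78.RS.Prm2

set_option autoImplicit false

/-!
# Tuples of exponents
-/

namespace Pool.Agent.H78.RS

open Finset Pool.Agent.H2.WO

/-- local densities of a set of exponents -/
noncomputable def W (P S : Finset ℕ) : ℝ := ∏ p ∈ P, (1 - (nu (S.image b) p : ℝ) / p)

/-- number of good exponents -/
noncomputable def gd (P : Finset ℕ) (K : ℕ) (x : ℤ) : ℕ := by
  classical exact ((Icc 1 K).filter (fun k => ∀ p ∈ P, ¬ (p : ℤ) ∣ x + b k)).card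

theorem ind_prod (P S : Finset ℕ) (x : ℤ) :
    ∏ k ∈ S, ind P x k = by classical exact if ∀ k ∈ S, ∀ p ∈ P, ¬ (p : ℤ) ∣ x + b k then 1 else 0 := by
  classical
  unfold ind
  exact Finset.prod_boole

theorem ind_prod_sum (P S : Finset ℕ) (X : ℕ) :
    ∑ n ∈ range X, ∏ k ∈ S, ind P n k = (num (fun n => ∀ p ∈ P, ¬ Hit 1 (S.image b) p n) X : ℝ) := by
  classical
  rw [← num_eq, Finset.card_filter]
  push_cast
  refine Finset.sum_congr rfl fun n _ => ?_
  rw [ind_prod]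
  have h2 : (∀ p ∈ P, ¬ Hit 1 (S.image b) p n) ↔ (∀ k ∈ S, ∀ p ∈ P, ¬ (p : ℤ) ∣ n + b k) := by
    constructor
    · intro h k hk p hp h3
      exact h p hp ((hit_one _ _ _).2 ⟨b k, mem_image_of_mem b hk, h3⟩)
    · intro h p hp h3
      obtain ⟨c, hc, h4⟩ := (hit_one _ _ _).1 h3
      obtain ⟨k, hk, rfl⟩ := mem_image.1 hc
      exact h k hk p hp h4
  by_cases h3 : ∀ k ∈ S, ∀ p ∈ P, ¬ (p : ℤ) ∣ (n : ℤ) + b k
  · rw [if_pos h3, if_pos (h2.2 h3)]
  · rw [if_neg h3, if_neg fun h => h3 (h2.1 h)]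

theorem choose_gd (P : Finset ℕ) (K j : ℕ) (x : ℤ) :
    ∑ S ∈ powersetCard j (Icc 1 K), ∏ k ∈ S, ind P x k = ((gd P K x).choose j : ℝ) := by
  classical
  have h1 : ∑ S ∈ powersetCard j (Icc 1 K), ∏ k ∈ S, ind P x k =
      (((powersetCard j (Icc 1 K)).filter (fun S => ∀ k ∈ S, ∀ p ∈ P, ¬ (p : ℤ) ∣ x + b k)).card : ℝ) := by
    rw [Finset.card_filter]
    push_cast
    refine Finset.sum_congr rfl fun S _ => ?_
    rw [ind_prod]
  have h2 : (powersetCard j (Icc 1 K)).filter (fun S => ∀ k ∈ S, ∀ p ∈ P, ¬ (p : ℤ) ∣ x + b k) =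
      powersetCard j ((Icc 1 K).filter (fun k => ∀ p ∈ P, ¬ (p : ℤ) ∣ x + b k)) := by
    ext S
    rw [mem_filter, mem_powersetCard, mem_powersetCard]
    constructor
    · rintro ⟨⟨h3, h4⟩, h5⟩
      exact ⟨fun k hk => mem_filter.2 ⟨h3 hk, h5 k hk⟩, h4⟩
    · rintro ⟨h3, h4⟩
      exact ⟨⟨fun k hk => (mem_filter.1 (h3 hk)).1, h4⟩, fun k hk => (mem_filter.1 (h3 hk)).2⟩
  rw [h1, h2, card_powersetCard]
  rfl

theorem ind_sum_gd (P : Finset ℕ) (K : ℕ) (x : ℤ) : ∑ k ∈ Icc 1 K, ind P x k = (gd P K x : ℝ) := by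
  classical
  unfold gd
  rw [Finset.card_filter]
  push_cast
  rfl

theorem W_nonneg (P S : Finset ℕ) (hP : ∀ p ∈ P, p.Prime) : 0 ≤ W P S := by
  refine Finset.prod_nonneg fun p hp => ?_
  have hp0 : (0 : ℝ) < p := by exact_mod_cast (hP p hp).pos
  rw [sub_nonneg, div_le_one hp0]
  exact_mod_cast nu_le_self (S.image b) (hP p hp).pos

theorem W_le_one (P S : Finset ℕ) (hP : ∀ p ∈ P, p.Prime) : W P S ≤ 1 := by
  refine Finset.prod_le_one (fun p hp => ?_) fun p hp => ?_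
  · have hp0 : (0 : ℝ) < p := by exact_mod_cast (hP p hp).pos
    rw [sub_nonneg, div_le_one hp0]
    exact_mod_cast nu_le_self (S.image b) (hP p hp).pos
  · have : (0 : ℝ) ≤ (nu (S.image b) p : ℝ) / p := by positivity
    linarith

/-- the average over the small primes -/
theorem small_tup (P0 : Finset ℕ) (hP0 : ∀ p ∈ P0, p.Prime) (K j : ℕ) :
    ∑ S ∈ powersetCard j (Icc 1 K), W P0 S ≤
      (K * ∏ p ∈ P0, (1 - 1 / (p : ℝ)) + 2 * (∏ p ∈ P0, p * (p - 1) : ℕ)) ^ j / j.factorial ∧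
    ((∏ p ∈ P0, p * (p - 1) : ℕ) + (j : ℝ) ≤ K * ∏ p ∈ P0, (1 - 1 / (p : ℝ)) →
      (K * ∏ p ∈ P0, (1 - 1 / (p : ℝ)) - (∏ p ∈ P0, p * (p - 1) : ℕ) - j) ^ j / j.factorial ≤
        ∑ S ∈ powersetCard j (Icc 1 K), W P0 S) := by
  classical
  set Q := ∏ p ∈ P0, p * (p - 1) with hQ
  have hQ0 : 0 < Q := Finset.prod_pos fun p hp => by
    have := (hP0 p hp).one_lt
    exact Nat.mul_pos (by omega) (by omega)
  have hQr : (0 : ℝ) < Q := by exact_mod_cast hQ0
  have h1 : (Q : ℝ) * ∑ S ∈ powersetCard j (Icc 1 K), W P0 S = ∑ x ∈ range Q, ((gd P0 K x).choose j : ℝ) := by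
    simp only [← choose_gd]
    rw [Finset.sum_comm, Finset.mul_sum]
    refine Finset.sum_congr rfl fun S _ => ?_
    rw [ind_prod_sum]
    exact (small (sys_lin (S.image b)) P0 hP0).symm
  have hfac : (0 : ℝ) < j.factorial := by exact_mod_cast Nat.factorial_pos j
  constructor
  · have h2 : ∀ x ∈ range Q, ((gd P0 K x).choose j : ℝ) ≤
        (K * ∏ p ∈ P0, (1 - 1 / (p : ℝ)) + 2 * (Q : ℝ)) ^ j / j.factorial := by
      intro x _
      refine (Nat.choose_le_pow_div j (gd P0 K x)).trans ?_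
      have h3 := ind_sum P0 hP0 K x
      rw [ind_sum_gd] at h3
      gcongr
    have h3 := Finset.sum_le_sum h2
    rw [Finset.sum_const, card_range, nsmul_eq_mul, ← h1] at h3
    exact le_of_mul_le_mul_left h3 hQr
  · intro hK
    have h2 : ∀ x ∈ range Q, (K * ∏ p ∈ P0, (1 - 1 / (p : ℝ)) - (Q : ℝ) - j) ^ j / j.factorial ≤
        ((gd P0 K x).choose j : ℝ) := by
      intro x _
      refine le_trans ?_ (Nat.pow_le_choose j (gd P0 K x))
      have h3 := ind_sum_ge P0 hP0 K x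
      rw [ind_sum_gd, ← hQ] at h3
      have h4 : K * ∏ p ∈ P0, (1 - 1 / (p : ℝ)) - (Q : ℝ) - j ≤ ((gd P0 K x + 1 - j : ℕ) : ℝ) := by
        have h5 : ((gd P0 K x + 1 : ℕ) : ℝ) - (j : ℝ) ≤ ((gd P0 K x + 1 - j : ℕ) : ℝ) := by
          rw [sub_le_iff_le_add]
          norm_cast
          omega
        push_cast at h5 ⊢
        linarith
      gcongr
      linarith
    have h3 := Finset.sum_le_sum h2
    rw [Finset.sum_const, card_range, nsmul_eq_mul, ← h1] at h3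
    exact le_of_mul_le_mul_left h3 hQr

theorem pow_lem1 {a : ℝ} (ha : 0 ≤ a) (ha1 : a ≤ 1) (j : ℕ) : 1 - j * a ≤ (1 - a) ^ j := by
  have := one_add_mul_le_pow (a := -a) (by linarith) j
  have e : 1 + -a = 1 - a := by ring
  rw [e] at this
  linarith

theorem pow_lem2 {a : ℝ} (ha : 0 ≤ a) (ha1 : a ≤ 1) (j : ℕ) : (1 - a) ^ j * (1 + j * a) ≤ 1 := by
  have h1 := one_add_mul_le_pow (a := a) (by linarith) j
  have h2 : (1 - a) ^ j * (1 + a) ^ j ≤ 1 := by
    rw [← mul_pow]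
    refine pow_le_one₀ (by nlinarith) (by nlinarith)
  have h3 : 0 ≤ (1 - a) ^ j := pow_nonneg (by linarith) j
  nlinarith

theorem pow_lem3 {a : ℝ} (ha : 0 ≤ a) (j : ℕ) (hj : 2 * j * a ≤ 1) (ha1 : a ≤ 1) :
    1 ≤ (1 - a) ^ j * (1 + 2 * j * a) := by
  have h1 := pow_lem1 ha ha1 j
  have h0 : 0 ≤ (j : ℝ) * a := by positivity
  have h2 : (1 - j * a) * (1 + 2 * j * a) ≤ (1 - a) ^ j * (1 + 2 * j * a) := by
    gcongr
  nlinarith

theorem pow_lem4 {a : ℝ} (ha : 0 ≤ a) (j : ℕ) (ha1 : a ≤ 1) (hj : (j : ℝ) * a ≤ 1) :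
    (1 - a) ^ j * (1 - (j * a) ^ 2) ≤ 1 - j * a := by
  have h1 := pow_lem2 ha ha1 j
  have e : (1 - a) ^ j * (1 - (j * a) ^ 2) = (1 - a) ^ j * (1 + j * a) * (1 - j * a) := by ring
  rw [e]
  have : 0 ≤ 1 - j * a := by linarith
  nlinarith

theorem b_inj {K : ℕ} {S : Finset ℕ} (hS : S ⊆ Icc 1 K) : Set.InjOn b (S : Set ℕ) := by
  intro k hk l hl h
  have hk1 := (mem_Icc.1 (hS hk)).1
  have hl1 := (mem_Icc.1 (hS hl)).1
  rcases lt_trichotomy k l with h2 | h2 | h2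
  · exact absurd h (b_lt hk1 h2).ne
  · exact h2
  · exact absurd h (b_lt hl1 h2).ne'

theorem nu_le_card (S : Finset ℕ) (p : ℕ) : nu (S.image b) p ≤ S.card :=
  (nu_le _ p).trans card_image_le

theorem nu_eq_card {K : ℕ} {S : Finset ℕ} (hS : S ⊆ Icc 1 K) {p : ℕ}
    (h : ∀ k ∈ S, ∀ l ∈ S, k ≠ l → ¬ (p : ℤ) ∣ b k - b l) : nu (S.image b) p = S.card := by
  unfold nu
  rw [Set.InjOn.ncard_image, Set.ncard_coe_finset, card_image_of_injOn (b_inj hS)]
  intro c hc d hd hcd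
  obtain ⟨k, hk, rfl⟩ := mem_image.1 (Finset.mem_coe.1 hc)
  obtain ⟨l, hl, rfl⟩ := mem_image.1 (Finset.mem_coe.1 hd)
  by_contra h2
  refine h k hk l hl (fun h3 => h2 (by rw [h3])) ?_
  rw [← ZMod.intCast_zmod_eq_zero_iff_dvd]
  push_cast
  exact sub_eq_zero.2 hcd

/-- primes dividing a difference -/
def DV (P S : Finset ℕ) : Finset ℕ := S.offDiag.biUnion (fun q => dv P q.1 q.2)

theorem DV_sub (P S : Finset ℕ) : DV P S ⊆ P := by
  intro p hp
  obtain ⟨q, _, hq⟩ := mem_biUnion.1 hp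
  exact (mem_filter.1 hq).1

theorem not_DV {P S : Finset ℕ} {p : ℕ} (hp : p ∈ P) (h : p ∉ DV P S) :
    ∀ k ∈ S, ∀ l ∈ S, k ≠ l → ¬ (p : ℤ) ∣ b k - b l := by
  intro k hk l hl hkl h2
  refine h (mem_biUnion.2 ⟨(k, l), mem_offDiag.2 ⟨hk, hl, hkl⟩, ?_⟩)
  exact mem_filter.2 ⟨hp, h2⟩

theorem W_upper {K : ℕ} {P S : Finset ℕ} (hP : ∀ p ∈ P, p.Prime ∧ 2 * S.card ≤ p) (hS : S ⊆ Icc 1 K) :
    W P S ≤ (∏ p ∈ P, (1 - 1 / (p : ℝ))) ^ S.card * ∏ p ∈ DV P S, (1 + 2 * S.card / (p : ℝ)) := by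
  classical
  have h1 : W P S ≤ ∏ p ∈ P, ((1 - 1 / (p : ℝ)) ^ S.card * (if p ∈ DV P S then 1 + 2 * S.card / (p : ℝ) else 1)) := by
    refine Finset.prod_le_prod (fun p hp => ?_) fun p hp => ?_
    · have hp0 : (0 : ℝ) < p := by exact_mod_cast (hP p hp).1.pos
      rw [sub_nonneg, div_le_one hp0]
      exact_mod_cast nu_le_self (S.image b) (hP p hp).1.pos
    · have hp0 : (0 : ℝ) < p := by exact_mod_cast (hP p hp).1.pos
      have hp1 : (1 : ℝ) ≤ p := by exact_mod_cast (hP p hp).1.pos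
      have ha1 : 1 / (p : ℝ) ≤ 1 := by rw [div_le_one hp0]; exact hp1
      have hj : 2 * (S.card : ℝ) * (1 / p) ≤ 1 := by
        rw [mul_one_div, div_le_one hp0]
        exact_mod_cast (hP p hp).2
      split_ifs with h
      · have h2 := pow_lem3 (a := 1 / (p : ℝ)) (by positivity) S.card hj ha1
        rw [mul_one_div] at h2
        have h3 : (0 : ℝ) ≤ (nu (S.image b) p : ℝ) / p := by positivity
        linarith
      · rw [mul_one, nu_eq_card hS (not_DV hp h)]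
        have h2 := pow_lem1 (a := 1 / (p : ℝ)) (by positivity) ha1 S.card
        rw [mul_one_div] at h2
        exact h2
  refine h1.trans (le_of_eq ?_)
  rw [Finset.prod_mul_distrib, Finset.prod_pow, ← Finset.prod_filter]
  congr 1
  refine Finset.prod_congr ?_ fun _ _ => rfl
  ext p
  rw [mem_filter]
  exact ⟨fun h => h.2, fun h => ⟨DV_sub P S h, h⟩⟩

theorem prod_ge_sub {ι : Type*} (s : Finset ι) (f : ι → ℝ) (h : ∀ i ∈ s, 0 ≤ f i ∧ f i ≤ 1) :
    1 - ∑ i ∈ s, f i ≤ ∏ i ∈ s, (1 - f i) := by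
  classical
  induction s using Finset.induction_on with
  | empty => simp
  | insert i s hi ih =>
    rw [Finset.sum_insert hi, Finset.prod_insert hi]
    have h1 := ih fun j hj => h j (mem_insert_of_mem hj)
    have h2 := h i (mem_insert_self i s)
    have h3 : 0 ≤ ∏ j ∈ s, (1 - f j) := Finset.prod_nonneg fun j hj => by
      have := h j (mem_insert_of_mem hj)
      linarith
    have h4 : ∏ j ∈ s, (1 - f j) ≤ 1 := Finset.prod_le_one (fun j hj => by
      have := h j (mem_insert_of_mem hj)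
      linarith) fun j hj => by
      have := h j (mem_insert_of_mem hj)
      linarith
    nlinarith

theorem W_lower {P S : Finset ℕ} {w : ℕ} (hw : 1 ≤ w) (hP : ∀ p ∈ P, p.Prime ∧ 2 * S.card ≤ p ∧ w < p) :
    (∏ p ∈ P, (1 - 1 / (p : ℝ))) ^ S.card * (1 - 2 * (S.card : ℝ) ^ 2 / √(w : ℝ)) ≤ W P S := by
  classical
  have hfac : ∀ p ∈ P, 0 ≤ 1 - 1 / (p : ℝ) := fun p hp => (fac_pos (hP p hp).1).1.le
  have h1 : ∏ p ∈ P, ((1 - 1 / (p : ℝ)) ^ S.card * (1 - (S.card * (1 / (p : ℝ))) ^ 2)) ≤ W P S := by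
    refine Finset.prod_le_prod (fun p hp => ?_) fun p hp => ?_
    · have hp0 : (0 : ℝ) < p := by exact_mod_cast (hP p hp).1.pos
      have hj : (S.card : ℝ) * (1 / p) ≤ 1 := by
        rw [mul_one_div, div_le_one hp0]
        exact_mod_cast (by have := (hP p hp).2.1; omega : S.card ≤ p)
      have hj0 : (0 : ℝ) ≤ (S.card : ℝ) * (1 / p) := by positivity
      have : (0 : ℝ) ≤ 1 - (S.card * (1 / (p : ℝ))) ^ 2 := by nlinarith
      have := pow_nonneg (hfac p hp) S.card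
      positivity
    · have hp0 : (0 : ℝ) < p := by exact_mod_cast (hP p hp).1.pos
      have hp1 : (1 : ℝ) ≤ p := by exact_mod_cast (hP p hp).1.pos
      have ha1 : 1 / (p : ℝ) ≤ 1 := by rw [div_le_one hp0]; exact hp1
      have hj : (S.card : ℝ) * (1 / p) ≤ 1 := by
        rw [mul_one_div, div_le_one hp0]
        exact_mod_cast (by have := (hP p hp).2.1; omega : S.card ≤ p)
      refine (pow_lem4 (a := 1 / (p : ℝ)) (by positivity) S.card ha1 hj).trans ?_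
      have h2 : (nu (S.image b) p : ℝ) ≤ S.card := by exact_mod_cast nu_le_card S p
      rw [mul_one_div]
      gcongr
  refine le_trans ?_ h1
  rw [Finset.prod_mul_distrib, Finset.prod_pow]
  refine mul_le_mul_of_nonneg_left ?_ (pow_nonneg (Finset.prod_nonneg hfac) _)
  refine le_trans ?_ (prod_ge_sub P (fun p => (S.card * (1 / (p : ℝ))) ^ 2) fun p hp => ?_)
  · have h3 := L4 w hw P fun p hp => (hP p hp).2.2
    have h4 : ∑ p ∈ P, ((S.card : ℝ) * (1 / (p : ℝ))) ^ 2 ≤ (S.card : ℝ) ^ 2 * ∑ p ∈ P, 1 / ((p : ℝ) * √(p : ℝ)) := by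
      rw [Finset.mul_sum]
      refine Finset.sum_le_sum fun p hp => ?_
      have hp1 : (1 : ℝ) ≤ p := by exact_mod_cast (hP p hp).1.pos
      have hp0 : (0 : ℝ) < p := by linarith
      have hps : 0 < √(p : ℝ) := Real.sqrt_pos.2 hp0
      have h7 : √(p : ℝ) ≤ p := by
        rw [Real.sqrt_le_left hp0.le]
        nlinarith
      have h8 : 1 / ((p : ℝ) * p) ≤ 1 / (p * √(p : ℝ)) := by
        refine one_div_le_one_div_of_le (by positivity) ?_
        gcongr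
      calc ((S.card : ℝ) * (1 / (p : ℝ))) ^ 2 = (S.card : ℝ) ^ 2 * (1 / ((p : ℝ) * p)) := by
            field_simp
        _ ≤ _ := by gcongr
    have h5 := mul_le_mul_of_nonneg_left h3 (by positivity : (0 : ℝ) ≤ (S.card : ℝ) ^ 2)
    have h6 : (S.card : ℝ) ^ 2 * (2 / √(w : ℝ)) = 2 * (S.card : ℝ) ^ 2 / √(w : ℝ) := by ring
    linarith
  · have hp0 : (0 : ℝ) < p := by exact_mod_cast (hP p hp).1.pos
    have hj : (S.card : ℝ) * (1 / p) ≤ 1 := by
      rw [mul_one_div, div_le_one hp0]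
      exact_mod_cast (by have := (hP p hp).2.1; omega : S.card ≤ p)
    have hj0 : (0 : ℝ) ≤ (S.card : ℝ) * (1 / p) := by positivity
    exact ⟨by positivity, by nlinarith⟩

end Pool.Agent.H78.RS
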