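import Pool.Agent.H78.RS.Tup

set_option autoImplicit false

/-!
# Tuples of exponents: the average of the products over primes dividing differences
-/

namespace Pool.Agent.H78.RS

open Finset Pool.Agent.H2.WO

theorem one_le_prod_of {ι : Type*} (s : Finset ι) (f : ι → ℝ) (hf : ∀ i, 1 ≤ f i) : 1 ≤ ∏ i ∈ s, f i :=
  Finset.prod_induction _ (fun x : ℝ => 1 ≤ x) (fun a b ha hb => by nlinarith) le_rfl fun i _ => hf i

theorem prod_biUnion_le {ι : Type*} [DecidableEq ι] (s : Finset ι) (t : ι → Finset ℕ) (f : ℕ → ℝ)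
    (hf : ∀ p, 1 ≤ f p) : ∏ p ∈ s.biUnion t, f p ≤ ∏ i ∈ s, ∏ p ∈ t i, f p := by
  induction s using Finset.induction_on with
  | empty => simp
  | insert i s hi ih =>
    rw [biUnion_insert, prod_insert hi]
    have h0 : ∀ A : Finset ℕ, 0 ≤ ∏ p ∈ A, f p := fun A => by linarith [one_le_prod_of A f hf]
    have h1 : ∏ p ∈ t i ∪ s.biUnion t, f p ≤ (∏ p ∈ t i, f p) * ∏ p ∈ s.biUnion t, f p := by
      rw [← prod_union_inter]
      exact le_mul_of_one_le_right (h0 _) (one_le_prod_of _ f hf)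
    exact h1.trans (mul_le_mul_of_nonneg_left ih (h0 _))

theorem prod_sub_one_le {ι : Type*} (s : Finset ι) (F : ι → ℝ) (hF : ∀ i ∈ s, 1 ≤ F i) (M : ℕ) (hM : s.card ≤ M) :
    ∏ i ∈ s, F i - 1 ≤ ∑ i ∈ s, (F i ^ M - 1) := by
  rcases s.eq_empty_or_nonempty with h | h
  · subst h
    simp
  · obtain ⟨i0, hi0, hm⟩ := Finset.exists_max_image s F h
    have h1 : ∏ i ∈ s, F i ≤ F i0 ^ M := by
      calc ∏ i ∈ s, F i ≤ ∏ _i ∈ s, F i0 := Finset.prod_le_prod (fun i hi => by linarith [hF i hi]) hm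
        _ = F i0 ^ s.card := Finset.prod_const _
        _ ≤ F i0 ^ M := pow_le_pow_right₀ (hF i0 hi0) hM
    have h2 : F i0 ^ M - 1 ≤ ∑ i ∈ s, (F i ^ M - 1) :=
      Finset.single_le_sum (f := fun i => F i ^ M - 1)
        (fun i hi => by linarith [one_le_pow₀ (hF i hi) (n := M)]) hi0
    linarith

theorem pow_lem5 {x : ℝ} (hx : 0 ≤ x) (M : ℕ) : (1 + x) ^ M - 1 ≤ M * x * (1 + x) ^ M := by
  induction M with
  | zero => simp
  | succ M ih =>
    have h0 : 0 ≤ (1 + x) ^ M := by positivity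
    rw [pow_succ]
    push_cast
    have h1 : 0 ≤ (M : ℝ) * x * (1 + x) ^ M * x := by positivity
    have h2 : 0 ≤ x * (1 + x) ^ M * x := by positivity
    nlinarith

/-- the constant -/
def cst (j : ℕ) : ℕ := j * j * (2 * j) * (1 + 2 * j) ^ (j * j) + 1

theorem pow_lem6 (j : ℕ) {p : ℕ} (hp : 1 ≤ p) : (1 + 2 * j / (p : ℝ)) ^ (j * j) ≤ 1 + cst j / (p : ℝ) := by
  have hp1 : (1 : ℝ) ≤ p := by exact_mod_cast hp
  have hp0 : (0 : ℝ) < p := by linarith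
  have h1 := pow_lem5 (x := 2 * j / (p : ℝ)) (by positivity) (j * j)
  have h2 : (2 * j / (p : ℝ)) ≤ 2 * j := div_le_self (by positivity) hp1
  have h3 : ((j * j : ℕ) : ℝ) * (2 * j / (p : ℝ)) * (1 + 2 * j / (p : ℝ)) ^ (j * j) ≤
      ((j * j : ℕ) : ℝ) * (2 * j / (p : ℝ)) * (1 + 2 * j) ^ (j * j) := by gcongr
  have h4 : ((j * j : ℕ) : ℝ) * (2 * j / (p : ℝ)) * (1 + 2 * j) ^ (j * j) + 1 / p = cst j / (p : ℝ) := by
    unfold cst
    push_cast
    field_simp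
  have h5 : (0 : ℝ) ≤ 1 / p := by positivity
  linarith

theorem card_pairs (K j : ℕ) (hK : 1 ≤ K) {k l : ℕ} (hkl : k ≠ l) :
    (((powersetCard j (Icc 1 K)).filter (fun S => k ∈ S ∧ l ∈ S)).card : ℝ) ≤ (K : ℝ) ^ j / (K : ℝ) ^ 2 := by
  have hK0 : (0 : ℝ) < K := by exact_mod_cast hK
  by_cases hj : j < 2
  · have h1 : (powersetCard j (Icc 1 K)).filter (fun S => k ∈ S ∧ l ∈ S) = ∅ := by
      rw [Finset.filter_eq_empty_iff]
      rintro S hS ⟨h1, h2⟩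
      have h3 := Finset.one_lt_card.2 ⟨k, h1, l, h2, hkl⟩
      rw [(mem_powersetCard.1 hS).2] at h3
      omega
    rw [h1]
    simp only [card_empty, Nat.cast_zero]
    positivity
  · obtain ⟨i, rfl⟩ : ∃ i, j = i + 2 := ⟨j - 2, by omega⟩
    have h1 : ((powersetCard (i + 2) (Icc 1 K)).filter (fun S => k ∈ S ∧ l ∈ S)).card ≤
        (powersetCard i (Icc 1 K)).card := by
      refine card_le_card_of_injOn (fun S => (S.erase k).erase l) ?_ ?_
      · intro S hS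
        obtain ⟨hS, h1, h2⟩ := mem_filter.1 (Finset.mem_coe.1 hS)
        obtain ⟨h3, h4⟩ := mem_powersetCard.1 hS
        rw [Finset.mem_coe, mem_powersetCard]
        refine ⟨(erase_subset _ _).trans ((erase_subset _ _).trans h3), ?_⟩
        rw [card_erase_of_mem (mem_erase.2 ⟨hkl.symm, h2⟩), card_erase_of_mem h1, h4]
        rfl
      · intro S hS T hT hST
        obtain ⟨_, h1, h2⟩ := mem_filter.1 (Finset.mem_coe.1 hS)
        obtain ⟨_, h3, h4⟩ := mem_filter.1 (Finset.mem_coe.1 hT)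
        have e1 : S.erase k = T.erase k := by
          rw [← insert_erase (mem_erase.2 ⟨hkl.symm, h2⟩ : l ∈ S.erase k),
            ← insert_erase (mem_erase.2 ⟨hkl.symm, h4⟩ : l ∈ T.erase k)]
          exact congrArg _ hST
        rw [← insert_erase h1, ← insert_erase h3, e1]
    rw [card_powersetCard, Nat.card_Icc, Nat.add_sub_cancel] at h1
    have h2 := h1.trans (Nat.choose_le_pow K i)
    have h3 : (((powersetCard (i + 2) (Icc 1 K)).filter (fun S => k ∈ S ∧ l ∈ S)).card : ℝ) ≤ (K : ℝ) ^ i := by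
      exact_mod_cast h2
    rw [pow_add, mul_div_assoc, div_self (by positivity), mul_one]
    exact h3

theorem sum_offDiag (s : Finset ℕ) (g : ℕ → ℕ → ℝ) :
    ∑ q ∈ s.offDiag, g q.1 q.2 = ∑ k ∈ s, ∑ l ∈ s.erase k, g k l := by
  have h1 : s.offDiag = (s ×ˢ s).filter (fun q => q.1 ≠ q.2) := by
    ext q
    rw [mem_offDiag, mem_filter, mem_product]
    tauto
  rw [h1, Finset.sum_filter, Finset.sum_product]
  refine Finset.sum_congr rfl fun k _ => ?_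
  rw [← Finset.sum_filter, Finset.filter_ne]

theorem pair_swap (K j : ℕ) (hK : 1 ≤ K) (g : ℕ → ℕ → ℝ) (hg : ∀ k l, 0 ≤ g k l) :
    ∑ S ∈ powersetCard j (Icc 1 K), ∑ q ∈ S.offDiag, g q.1 q.2 ≤
      (K : ℝ) ^ j / (K : ℝ) ^ 2 * ∑ k ∈ Icc 1 K, ∑ l ∈ (Icc 1 K).erase k, g k l := by
  have h1 : ∑ S ∈ powersetCard j (Icc 1 K), ∑ q ∈ S.offDiag, g q.1 q.2 =
      ∑ q ∈ (Icc 1 K).offDiag, ∑ S ∈ (powersetCard j (Icc 1 K)).filter (fun S => q.1 ∈ S ∧ q.2 ∈ S), g q.1 q.2 := by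
    refine Finset.sum_comm' fun S q => ?_
    rw [mem_offDiag, mem_offDiag, mem_filter, mem_powersetCard]
    constructor
    · rintro ⟨⟨h1, h2⟩, h3, h4, h5⟩
      exact ⟨⟨⟨h1, h2⟩, h3, h4⟩, h1 h3, h1 h4, h5⟩
    · rintro ⟨⟨⟨h1, h2⟩, h3, h4⟩, _, _, h5⟩
      exact ⟨⟨h1, h2⟩, h3, h4, h5⟩
  rw [h1, ← sum_offDiag, Finset.mul_sum]
  refine Finset.sum_le_sum fun q hq => ?_
  rw [Finset.sum_const, nsmul_eq_mul]
  exact mul_le_mul_of_nonneg_right (card_pairs K j hK (mem_offDiag.1 hq).2.2) (hg _ _)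

theorem big_tup (j : ℕ) : ∃ C : ℝ, 0 < C ∧ ∀ w : ℕ, 3 ≤ w → ∃ K₀ : ℕ, ∀ K : ℕ, K₀ ≤ K → ∀ P : Finset ℕ,
    (∀ p ∈ P, p.Prime ∧ w < p) →
      ∑ S ∈ powersetCard j (Icc 1 K), (∏ p ∈ DV P S, (1 + 2 * j / (p : ℝ)) - 1) ≤ C / √(w : ℝ) * (K : ℝ) ^ j := by
  classical
  obtain ⟨C, hC, h⟩ := avg_largeg (cst j) (by unfold cst; omega)
  refine ⟨C, hC, fun w hw => ?_⟩
  obtain ⟨K₀, hK₀⟩ := h w hw
  refine ⟨max 1 K₀, fun K hK P hP => ?_⟩
  have hK1 : 1 ≤ K := (le_max_left _ _).trans hK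
  have hK0 : (0 : ℝ) < K := by exact_mod_cast hK1
  have hf : ∀ p : ℕ, 1 ≤ 1 + 2 * j / (p : ℝ) := fun p => by
    have : (0 : ℝ) ≤ 2 * j / (p : ℝ) := by positivity
    linarith
  have h1 : ∀ S ∈ powersetCard j (Icc 1 K), (∏ p ∈ DV P S, (1 + 2 * j / (p : ℝ)) - 1) ≤
      ∑ q ∈ S.offDiag, (∏ p ∈ dv P q.1 q.2, (1 + cst j / (p : ℝ)) - 1) := by
    intro S hS
    have h2 := prod_biUnion_le S.offDiag (fun q => dv P q.1 q.2) (fun p => 1 + 2 * j / (p : ℝ)) hf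
    have h3 := prod_sub_one_le S.offDiag (fun q => ∏ p ∈ dv P q.1 q.2, (1 + 2 * j / (p : ℝ)))
      (fun q _ => one_le_prod_of _ _ hf) (j * j) (by
        rw [offDiag_card, (mem_powersetCard.1 hS).2]
        exact Nat.sub_le _ _)
    have h4 : ∑ q ∈ S.offDiag, ((∏ p ∈ dv P q.1 q.2, (1 + 2 * j / (p : ℝ))) ^ (j * j) - 1) ≤
        ∑ q ∈ S.offDiag, (∏ p ∈ dv P q.1 q.2, (1 + cst j / (p : ℝ)) - 1) := by
      refine Finset.sum_le_sum fun q _ => sub_le_sub_right ?_ 1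
      rw [← Finset.prod_pow]
      refine Finset.prod_le_prod (fun p _ => by positivity) fun p hp => ?_
      exact pow_lem6 j (hP p (mem_filter.1 hp).1).1.pos
    unfold DV
    linarith
  refine (Finset.sum_le_sum h1).trans ?_
  refine (pair_swap K j hK1 (fun k l => ∏ p ∈ dv P k l, (1 + cst j / (p : ℝ)) - 1) fun k l => by
    have := one_le_prodg (cst j) (dv P k l)
    linarith).trans ?_
  have h5 := mul_le_mul_of_nonneg_left (hK₀ K ((le_max_right _ _).trans hK) P hP)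
    (by positivity : (0 : ℝ) ≤ (K : ℝ) ^ j / (K : ℝ) ^ 2)
  refine h5.trans (le_of_eq ?_)
  field_simp

end Pool.Agent.H78.RS
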