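import Pool.Agent.H78.RS.Tup2

set_option autoImplicit false

/-!
# The average of the singular series over tuples of exponents
-/

namespace Pool.Agent.H78.RS

open Finset Pool.Agent.H2.WO

theorem choose_w (j : ℕ) (C c ε : ℝ) (hC : 0 < C) (hc : 0 < c) (hε : 0 < ε) : ∃ w : ℕ, 3 ≤ w ∧ 2 * j ≤ w ∧
    C / √(w : ℝ) ≤ ε / 2 * (c / Real.log w) ^ j ∧ 2 * (j : ℝ) ^ 2 / √(w : ℝ) ≤ ε / 2 := by
  set η : ℝ := ε / 2 * c ^ j / C with hη
  have hη0 : 0 < η := by positivity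
  have h1 := (Real.isLittleO_pow_log_id_atTop (n := 2 * j)).def (show 0 < η ^ 2 by positivity)
  have h2 := tendsto_natCast_atTop_atTop.eventually h1
  have h3 : ∀ᶠ w : ℕ in Filter.atTop, 4 * (j : ℝ) ^ 2 / ε ≤ √(w : ℝ) :=
    (Real.tendsto_sqrt_atTop.comp tendsto_natCast_atTop_atTop).eventually_ge_atTop _
  obtain ⟨w, hw1, hw2, hw3⟩ := (h2.and (h3.and (Filter.eventually_ge_atTop (max 3 (2 * j))))).exists
  have hw30 : 3 ≤ w := (le_max_left _ _).trans hw3
  have hwr : (3 : ℝ) ≤ w := by exact_mod_cast hw30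
  have hlog : 0 < Real.log w := Real.log_pos (by linarith)
  have hs : 0 < √(w : ℝ) := Real.sqrt_pos.2 (by linarith)
  have hss : √(w : ℝ) * √(w : ℝ) = w := Real.mul_self_sqrt (by linarith)
  refine ⟨w, hw30, (le_max_right _ _).trans hw3, ?_, ?_⟩
  · have h4 : Real.log w ^ j ≤ η * √(w : ℝ) := by
      have h5 : ‖Real.log (w : ℝ) ^ (2 * j)‖ ≤ η ^ 2 * ‖(w : ℝ)‖ := hw1
      rw [Real.norm_of_nonneg (by positivity), Real.norm_of_nonneg (by positivity)] at h5
      refine le_of_sq_le_sq ?_ (by positivity)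
      calc (Real.log w ^ j) ^ 2 = Real.log (w : ℝ) ^ (2 * j) := by rw [← pow_mul, mul_comm]
        _ ≤ η ^ 2 * w := h5
        _ = (η * √(w : ℝ)) ^ 2 := by rw [mul_pow, sq (√(w : ℝ)), hss]
    rw [div_pow, div_le_iff₀ hs]
    have h6 : ε / 2 * (c ^ j / Real.log w ^ j) * √(w : ℝ) = (ε / 2 * c ^ j * √(w : ℝ)) / Real.log w ^ j := by
      field_simp
    rw [h6, le_div_iff₀ (by positivity)]
    calc C * Real.log w ^ j ≤ C * (η * √(w : ℝ)) := by gcongr
      _ = ε / 2 * c ^ j * √(w : ℝ) := by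
          rw [hη]
          field_simp
  · rw [div_le_iff₀ hs]
    rw [div_le_iff₀ hε] at hw2
    nlinarith

theorem tup_avg (j : ℕ) (ε : ℝ) (hε : 0 < ε) (hε1 : ε ≤ 1) : ∃ K₀ : ℕ, ∀ K : ℕ, K₀ ≤ K → ∀ y : ℕ,
    |∑ S ∈ powersetCard j (Icc 1 K), W (pm y) S - (K * V y) ^ j / j.factorial| ≤ ε * (K * V y) ^ j := by
  obtain ⟨C, hC, hA⟩ := big_tup j
  obtain ⟨c, hc, hV⟩ := V_low
  obtain ⟨w, hw3, hwj, hw, hw'⟩ := choose_w j C c ε hC hc hε
  have hVw0 : 0 < V w := Finset.prod_pos fun p hp => (fac_pos (mem_pm.1 hp).2).1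
  have hwr : (3 : ℝ) ≤ w := by exact_mod_cast hw3
  have hlogw : 0 < Real.log w := Real.log_pos (by linarith)
  have hwC : C / √(w : ℝ) ≤ ε / 2 * (V w) ^ j := by
    refine hw.trans (mul_le_mul_of_nonneg_left ?_ (by positivity))
    exact pow_le_pow_left₀ (by positivity) (hV w hw3) j
  obtain ⟨K1, hK1⟩ := hA w hw3
  set Qw : ℕ := ∏ p ∈ pm w, p * (p - 1) with hQw
  refine ⟨max (max 1 K1) ⌈4 * (j + 1) * (2 * Qw + j) / (ε * V w)⌉₊, fun K hK y => ?_⟩
  have hK1' : K1 ≤ K := (le_max_right _ _).trans ((le_max_left _ _).trans hK)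
  have hK0 : 1 ≤ K := (le_max_left _ _).trans ((le_max_left _ _).trans hK)
  have hKr : (1 : ℝ) ≤ K := by exact_mod_cast hK0
  have hKq : 4 * (j + 1) * (2 * Qw + j) / (ε * V w) ≤ (K : ℝ) :=
    (Nat.le_ceil _).trans (by exact_mod_cast (le_max_right _ _).trans hK)
  set P0 := (pm y).filter (fun p => p ≤ w) with hP0
  set P1 := (pm y).filter (fun p => ¬ p ≤ w) with hP1
  have hP0p : ∀ p ∈ P0, p.Prime := fun p hp => (mem_pm.1 (mem_filter.1 hp).1).2
  have hP1p : ∀ p ∈ P1, p.Prime ∧ w < p := fun p hp =>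
    ⟨(mem_pm.1 (mem_filter.1 hp).1).2, not_le.1 (mem_filter.1 hp).2⟩
  set V0 := ∏ p ∈ P0, (1 - 1 / (p : ℝ)) with hV0
  set V1 := ∏ p ∈ P1, (1 - 1 / (p : ℝ)) with hV1
  have hVV : V y = V0 * V1 := (Finset.prod_filter_mul_prod_filter_not _ _ _).symm
  have hsub : P0 ⊆ pm w := fun p hp => mem_pm.2 ⟨(mem_filter.1 hp).2, hP0p p hp⟩
  have hV0w : V w ≤ V0 := by
    unfold V
    rw [← Finset.prod_sdiff hsub]
    refine mul_le_of_le_one_left (Finset.prod_nonneg fun p hp => (fac_pos (hP0p p hp)).1.le) ?_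
    exact Finset.prod_le_one (fun p hp => (fac_pos (mem_pm.1 (mem_sdiff.1 hp).1).2).1.le)
      fun p hp => (fac_pos (mem_pm.1 (mem_sdiff.1 hp).1).2).2
  have hV00 : 0 < V0 := lt_of_lt_of_le hVw0 hV0w
  have hV10 : 0 < V1 := Finset.prod_pos fun p hp => (fac_pos (hP1p p hp).1).1
  set Q0 : ℕ := ∏ p ∈ P0, p * (p - 1) with hQ0
  have hQ0w : (Q0 : ℝ) ≤ Qw := by
    have : Q0 ≤ Qw := by
      rw [hQ0, hQw]
      refine Finset.prod_le_prod_of_subset_of_one_le' hsub ?_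
      intro p hp _
      have := (mem_pm.1 hp).2.one_lt
      exact Nat.mul_pos (by omega) (by omega)
    exact_mod_cast this
  set m := K * V0 with hm
  have hm0 : 0 < m := by positivity
  set t : ℝ := ε / (4 * (j + 1)) with ht
  have hj0 : (0 : ℝ) ≤ j := Nat.cast_nonneg _
  have ht0 : 0 < t := by positivity
  have htj : j * t ≤ ε / 4 := by
    rw [ht, mul_div_assoc', div_le_div_iff₀ (by positivity) (by norm_num)]
    nlinarith
  have ht1 : t ≤ 1 := by
    rw [ht, div_le_one (by positivity)]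
    linarith
  have hQt : 2 * (Q0 : ℝ) + j ≤ t * m := by
    rw [div_le_iff₀ (by positivity)] at hKq
    have h3 : (K : ℝ) * (ε * V w) ≤ K * (ε * V0) := by gcongr
    have h4 : 4 * ((j : ℝ) + 1) * (2 * Q0 + j) ≤ 4 * (j + 1) * (2 * Qw + j) := by gcongr
    rw [ht, div_mul_eq_mul_div, le_div_iff₀ (by positivity)]
    calc (2 * (Q0 : ℝ) + j) * (4 * (j + 1)) = 4 * (j + 1) * (2 * Q0 + j) := by ring
      _ ≤ K * (ε * V0) := by linarith
      _ = ε * m := by rw [hm]; ring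
  have hQnn : (0 : ℝ) ≤ Q0 := Nat.cast_nonneg _
  obtain ⟨hsu, hsl⟩ := small_tup P0 hP0p K j
  rw [← hV0, ← hQ0, ← hm] at hsu hsl
  have hf1 : (1 : ℝ) ≤ j.factorial := by exact_mod_cast Nat.factorial_pos j
  have hf0 : (0 : ℝ) < j.factorial := by linarith
  -- powers
  have hlo1 : 1 - ε / 4 ≤ (1 - t) ^ j := by
    have := pow_lem1 ht0.le ht1 j
    linarith
  have hup1 : (1 + t) ^ j ≤ 1 + ε / 2 := by
    have h1 : (1 + t) ^ j * (1 - t) ^ j ≤ 1 := by
      rw [← mul_pow]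
      exact pow_le_one₀ (by nlinarith) (by nlinarith)
    have h2 : 0 ≤ (1 + t) ^ j := by positivity
    have h3 : (1 + t) ^ j * (1 - ε / 4) ≤ (1 + ε / 2) * (1 - ε / 4) := by
      calc (1 + t) ^ j * (1 - ε / 4) ≤ (1 + t) ^ j * (1 - t) ^ j := by gcongr
        _ ≤ 1 := h1
        _ ≤ _ := by nlinarith
    exact le_of_mul_le_mul_right h3 (by linarith)
  have hU0 : ∑ S ∈ powersetCard j (Icc 1 K), W P0 S ≤ (1 + ε / 2) * m ^ j / j.factorial := by
    refine hsu.trans ?_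
    have h1 : (m + 2 * (Q0 : ℝ)) ^ j ≤ (1 + ε / 2) * m ^ j := by
      calc (m + 2 * (Q0 : ℝ)) ^ j ≤ ((1 + t) * m) ^ j := by
            gcongr
            linarith
        _ = (1 + t) ^ j * m ^ j := mul_pow _ _ _
        _ ≤ (1 + ε / 2) * m ^ j := by gcongr
    gcongr
  have hL0 : (1 - ε / 4) * m ^ j / j.factorial ≤ ∑ S ∈ powersetCard j (Icc 1 K), W P0 S := by
    have htm : t * m ≤ m := by nlinarith
    refine le_trans ?_ (hsl (by linarith))
    have h1 : (1 - ε / 4) * m ^ j ≤ (m - Q0 - j) ^ j := by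
      calc (1 - ε / 4) * m ^ j ≤ (1 - t) ^ j * m ^ j := by gcongr
        _ = ((1 - t) * m) ^ j := (mul_pow _ _ _).symm
        _ ≤ (m - Q0 - j) ^ j := by
            refine pow_le_pow_left₀ (mul_nonneg (by linarith) hm0.le) ?_ j
            linarith
    gcongr
  have hWW : ∀ S, W (pm y) S = W P0 S * W P1 S := fun S => (Finset.prod_filter_mul_prod_filter_not _ _ _).symm
  have hV1j : 0 < V1 ^ j := by positivity
  -- the upper bound
  have hup : ∑ S ∈ powersetCard j (Icc 1 K), W (pm y) S ≤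
      V1 ^ j * ((1 + ε / 2) * m ^ j / j.factorial + ε / 2 * m ^ j) := by
    have h1 : ∀ S ∈ powersetCard j (Icc 1 K), W (pm y) S ≤
        V1 ^ j * (W P0 S + (∏ p ∈ DV P1 S, (1 + 2 * j / (p : ℝ)) - 1)) := by
      intro S hS
      obtain ⟨hS1, hS2⟩ := mem_powersetCard.1 hS
      have h2 := W_upper (K := K) (P := P1) (S := S) (fun p hp => ⟨(hP1p p hp).1, by
        have := (hP1p p hp).2
        rw [hS2]
        omega⟩) hS1
      rw [hS2, ← hV1] at h2
      have h3 := W_nonneg P0 S hP0p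
      have h4 := W_le_one P0 S hP0p
      have h5 : 1 ≤ ∏ p ∈ DV P1 S, (1 + 2 * j / (p : ℝ)) := one_le_prod_of _ _ fun p => by
        have : (0 : ℝ) ≤ 2 * j / (p : ℝ) := by positivity
        linarith
      rw [hWW]
      calc W P0 S * W P1 S ≤ W P0 S * (V1 ^ j * ∏ p ∈ DV P1 S, (1 + 2 * j / (p : ℝ))) := by gcongr
        _ = V1 ^ j * (W P0 S * ∏ p ∈ DV P1 S, (1 + 2 * j / (p : ℝ))) := by ring
        _ ≤ _ := by
            refine mul_le_mul_of_nonneg_left ?_ hV1j.le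
            nlinarith
    refine (Finset.sum_le_sum h1).trans ?_
    rw [← Finset.mul_sum, Finset.sum_add_distrib]
    refine mul_le_mul_of_nonneg_left (add_le_add hU0 ?_) hV1j.le
    refine (hK1 K hK1' P1 hP1p).trans ?_
    calc C / √(w : ℝ) * (K : ℝ) ^ j ≤ ε / 2 * (V w) ^ j * (K : ℝ) ^ j := by gcongr
      _ ≤ ε / 2 * V0 ^ j * (K : ℝ) ^ j := by gcongr
      _ = ε / 2 * m ^ j := by rw [hm, mul_pow]; ring
  -- the lower bound
  have hlo : V1 ^ j * (1 - ε / 2) * ((1 - ε / 4) * m ^ j / j.factorial) ≤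
      ∑ S ∈ powersetCard j (Icc 1 K), W (pm y) S := by
    have h1 : ∀ S ∈ powersetCard j (Icc 1 K), V1 ^ j * (1 - ε / 2) * W P0 S ≤ W (pm y) S := by
      intro S hS
      obtain ⟨hS1, hS2⟩ := mem_powersetCard.1 hS
      have h2 := W_lower (P := P1) (S := S) (w := w) (by omega) (fun p hp => ⟨(hP1p p hp).1, by
        have := (hP1p p hp).2
        rw [hS2]
        omega, (hP1p p hp).2⟩)
      rw [hS2, ← hV1] at h2
      have h3 := W_nonneg P0 S hP0p
      have h4 : V1 ^ j * (1 - ε / 2) ≤ W P1 S := by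
        refine le_trans ?_ h2
        gcongr
      rw [hWW, mul_comm]
      gcongr
    refine le_trans ?_ (Finset.sum_le_sum h1)
    rw [← Finset.mul_sum]
    exact mul_le_mul_of_nonneg_left hL0 (mul_nonneg hV1j.le (by linarith))
  have hT : (K * V y) ^ j = V1 ^ j * m ^ j := by
    rw [hVV, hm, ← mul_pow]
    congr 1
    ring
  set T := V1 ^ j * m ^ j with hTdef
  have hT0 : 0 < T := by positivity
  have hTf : T / j.factorial ≤ T := div_le_self hT0.le hf1
  have hTf0 : 0 ≤ T / j.factorial := by positivity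
  rw [hT, abs_le]
  constructor
  · have e1 : V1 ^ j * (1 - ε / 2) * ((1 - ε / 4) * m ^ j / j.factorial) =
        (1 - ε / 2) * (1 - ε / 4) * (T / j.factorial) := by rw [hTdef]; ring
    rw [e1] at hlo
    have h6 : (1 - ε) * (T / j.factorial) ≤ (1 - ε / 2) * (1 - ε / 4) * (T / j.factorial) := by
      gcongr
      nlinarith
    nlinarith
  · have e1 : V1 ^ j * ((1 + ε / 2) * m ^ j / j.factorial + ε / 2 * m ^ j) =
        (1 + ε / 2) * (T / j.factorial) + ε / 2 * T := by rw [hTdef]; ring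
    rw [e1] at hup
    nlinarith

end Pool.Agent.H78.RS
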